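import Mathlib

/-! Auxiliary definitions for the mean value of the 5-torsion. -/

set_option autoImplicit false

namespace Pool.Agent.MP_d0fd9b_nt.H68

open Finset

/-! The divisor bound is copied from the files of helper72. -/

/-- (proof copied from the file `MP_e4c747_an/Exp`) -/
theorem divisor_bound (s : ℕ) : ∃ C : ℕ, 1 ≤ C ∧ ∀ n : ℕ, n ≠ 0 → #n.divisors ^ s ≤ C * n := by
  refine ⟨(s.factorial * 2 ^ s) ^ 2 ^ s, Nat.one_le_iff_ne_zero.2 (by positivity), fun n hn => ?_⟩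
  have h1 : ∀ p ∈ n.primeFactors, (n.factorization p + 1) ^ s ≤
      (if p < 2 ^ s then s.factorial * 2 ^ s else 1) * p ^ n.factorization p := by
    intro p hp
    have hp2 := (Nat.prime_of_mem_primeFactors hp).two_le
    generalize n.factorization p = a
    split_ifs with h
    · calc (a + 1) ^ s ≤ (a + 1).ascFactorial s := Nat.pow_succ_le_ascFactorial _ _
        _ = s.factorial * (a + s).choose s := Nat.ascFactorial_eq_factorial_mul_choose _ _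
        _ ≤ s.factorial * 2 ^ (a + s) := Nat.mul_le_mul_left _ (Nat.choose_le_two_pow _ _)
        _ = s.factorial * 2 ^ s * 2 ^ a := by ring
        _ ≤ _ := Nat.mul_le_mul_left _ (Nat.pow_le_pow_left hp2 _)
    · calc (a + 1) ^ s ≤ (2 ^ a) ^ s := Nat.pow_le_pow_left Nat.lt_two_pow_self _
        _ = (2 ^ s) ^ a := by rw [← pow_mul, ← pow_mul, mul_comm]
        _ ≤ _ := by rw [one_mul]; exact Nat.pow_le_pow_left (not_lt.1 h) _
  have h2 : ∏ p ∈ n.primeFactors, p ^ n.factorization p = n :=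
    Nat.prod_factorization_pow_eq_self hn
  rw [Nat.card_divisors hn, ← prod_pow]
  refine (prod_le_prod' h1).trans ?_
  rw [prod_mul_distrib, h2]
  refine Nat.mul_le_mul_right _ ?_
  rw [prod_ite, prod_const, prod_const_one, mul_one]
  refine Nat.pow_le_pow_right (by positivity) ?_
  calc _ ≤ #(range (2 ^ s)) := card_le_card fun p hp => mem_range.2 (mem_filter.1 hp).2
    _ = _ := card_range _

theorem tau_le {ε : ℝ} (hε : 0 < ε) :
    ∃ C : ℝ, 1 ≤ C ∧ ∀ n : ℕ, n ≠ 0 → ∀ x : ℝ, n ≤ x → (#n.divisors : ℝ) ≤ C * x ^ ε := by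
  obtain ⟨s, hs⟩ := exists_nat_one_div_lt hε
  obtain ⟨C, C1, hC⟩ := divisor_bound (s + 1)
  have C1' : (1 : ℝ) ≤ C := by exact_mod_cast C1
  refine ⟨C, C1', fun n hn x hx => ?_⟩
  have n1 : (1 : ℝ) ≤ n := by exact_mod_cast Nat.pos_of_ne_zero hn
  have x1 : 1 ≤ x := n1.trans hx
  refine le_of_pow_le_pow_left₀ (Nat.succ_ne_zero s) (by positivity) ?_
  have h1 : (#n.divisors : ℝ) ^ (s + 1) ≤ C * n := by exact_mod_cast hC n hn
  refine h1.trans ?_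
  rw [mul_pow, ← Real.rpow_natCast (x ^ ε), ← Real.rpow_mul (by linarith)]
  refine mul_le_mul (le_self_pow₀ C1' (Nat.succ_ne_zero s)) (hx.trans ?_) (by positivity) (by positivity)
  refine Real.self_le_rpow_of_one_le x1 ?_
  rw [div_lt_iff₀ (by positivity)] at hs
  push_cast
  exact hs.le

/-- the additive character `e(x)` -/
noncomputable def ee (x : ℝ) : ℂ := Complex.exp (2 * Real.pi * x * Complex.I)

/-- the integers of absolute value at most `K` -/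
noncomputable def II (K : ℕ) : Finset ℤ := Icc (-(K : ℤ)) K

/-- `m / q` is within `1 / (6 L)` of an integer -/
def Cl (q L : ℕ) (m : ℤ) : Prop := ∃ t : ℤ, 6 * L * |t| < q ∧ (q : ℤ) ∣ m - t

/-- the quadratic form in `r, y` -/
def Qf (n s r y : ℤ) : ℤ := s ^ 4 * r ^ 2 - s ^ 2 * n ^ 2 * r * y - n ^ 4 * y ^ 2

/-- first cubic form in `n, s`; the tuple is `(e, c, f, g)` -/
def F1 (n s : ℤ) (t : ℤ × ℤ × ℤ × ℤ) : ℤ :=
  t.2.2.2 * s ^ 3 + 2 * t.2.2.1 * n * s ^ 2 - 5 * t.1 * n ^ 3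

/-- second cubic form in `n, s` -/
def F2 (n s : ℤ) (t : ℤ × ℤ × ℤ × ℤ) : ℤ :=
  5 * t.2.1 * s ^ 3 - 2 * t.2.2.2 * n ^ 2 * s + t.2.2.1 * n ^ 3

/-- the resultant of the two cubic forms, divided by `-5` -/
def RR (t : ℤ × ℤ × ℤ × ℤ) : ℤ :=
  (t.2.2.1 * t.2.2.2) ^ 3 + 75 * (t.2.2.1 * t.2.2.2) ^ 2 * (t.1 * t.2.1)
    - 625 * (t.2.2.1 * t.2.2.2) * (t.1 * t.2.1) ^ 2 + 3125 * (t.1 * t.2.1) ^ 3
    - 8 * (t.2.1 * t.2.2.1 ^ 5 + t.1 * t.2.2.2 ^ 5)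

/-- the content of a tuple -/
def cont (t : ℤ × ℤ × ℤ × ℤ) : ℕ := Nat.gcd (Int.gcd t.1 t.2.1) (Int.gcd t.2.2.1 t.2.2.2)

/-- tuples of height at most `K` -/
noncomputable def box (K : ℕ) : Finset (ℤ × ℤ × ℤ × ℤ) := II K ×ˢ II K ×ˢ II K ×ˢ II K

/-- coprime pairs `(n, s)` with `N ≤ n < 2 N`, `|s| ≤ S` -/
noncomputable def pairs (N S : ℕ) : Finset (ℤ × ℤ) :=
  (Ico (N : ℤ) (2 * N) ×ˢ II S).filter fun p => Int.gcd p.1 p.2 = 1

/-- the off-diagonal count -/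
noncomputable def Zc (K : ℕ) (n s : ℤ) (k : ℕ) : ℕ :=
  #((box K).filter fun t => (k : ℤ) ∣ F1 n s t ∧ (k : ℤ) ∣ F2 n s t ∧ (F1 n s t ≠ 0 ∨ F2 n s t ≠ 0))

/-- the radical -/
def rad (k : ℕ) : ℕ := ∏ p ∈ k.primeFactors, p

/-- the number of solutions of the congruence in a box -/
noncomputable def cnt (R Y V : ℕ) (n s : ℤ) : ℕ :=
  #((II R ×ˢ II Y ×ˢ II V).filter fun z => n ^ 5 ∣ Qf n s z.1 z.2.1 - s ^ 5 * z.2.2)

/-- the conditions satisfied by the tuple `(n, s, r, y, v)` attached to a 5-torsion class -/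
def Good (M : ℝ) (z : ℤ × ℤ × ℤ × ℤ × ℤ) : Prop :=
  0 < z.1 ∧ Int.gcd z.1 z.2.1 = 1 ∧ z.1 ^ 5 ∣ Qf z.1 z.2.1 z.2.2.1 z.2.2.2.1 - z.2.1 ^ 5 * z.2.2.2.2 ∧
    ∃ A B : ℝ, 1 ≤ A ∧ 1 ≤ B ∧ A ≤ M ∧ B ≤ M ∧ |(z.2.1 : ℝ)| * A ≤ z.1 * B ∧
      |(z.2.2.1 : ℝ)| ≤ 2 * z.1 * A ∧ |(z.2.2.2.1 : ℝ)| * A ≤ 2 * z.1 * B ^ 2 ∧
      |(z.2.2.2.2 : ℝ)| * B ≤ 3 * z.1 * A ^ 3 ∧ (z.1 : ℝ) ≤ 18 * B ∧ z.1 * B ≤ 18 * A ^ 2

lemma mem_II {K : ℕ} {x : ℤ} : x ∈ II K ↔ |x| ≤ K := by rw [II, mem_Icc, abs_le]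

lemma card_II (K : ℕ) : #(II K) = 2 * K + 1 := by rw [II, Int.card_Icc]; omega

lemma ee_add (x y : ℝ) : ee (x + y) = ee x * ee y := by
  rw [ee, ee, ee, ← Complex.exp_add]; push_cast; ring_nf

lemma norm_ee (x : ℝ) : ‖ee x‖ = 1 := by
  rw [ee, show 2 * (Real.pi : ℂ) * x * Complex.I = ((2 * Real.pi * x : ℝ) : ℂ) * Complex.I by
    push_cast; ring, Complex.norm_exp_ofReal_mul_I]

lemma ee_int (m : ℤ) : ee m = 1 := by
  rw [ee, ← Complex.exp_int_mul_two_pi_mul_I m]; push_cast; ring_nf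

lemma ee_zero : ee 0 = 1 := by simp [ee]

lemma conj_ee (x : ℝ) : (starRingEnd ℂ) (ee x) = ee (-x) := by
  rw [ee, ee, ← Complex.exp_conj]
  simp only [map_mul, Complex.conj_ofReal, Complex.conj_I, map_ofNat]
  push_cast; ring_nf

lemma half_le_re_ee {x : ℝ} (hx : |x| ≤ 1 / 6) : 1 / 2 ≤ (ee x).re := by
  rw [ee, show 2 * (Real.pi : ℂ) * x * Complex.I = ((2 * Real.pi * x : ℝ) : ℂ) * Complex.I by
    push_cast; ring, Complex.exp_ofReal_mul_I_re, ← Real.cos_abs, ← Real.cos_pi_div_three]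
  have := Real.pi_pos
  refine Real.cos_le_cos_of_nonneg_of_le_pi (abs_nonneg _) (by linarith) ?_
  rw [abs_mul, abs_of_pos (by positivity : 0 < 2 * Real.pi)]
  nlinarith

/-- a short sum of characters does not cancel -/
lemma half_le_norm_sum {J : ℕ} {x : ℝ} (hx : J * |x| ≤ 1 / 6) :
    (J : ℝ) / 2 ≤ ‖∑ j ∈ range J, ee (j * x)‖ := by
  refine le_trans ?_ (Complex.re_le_norm _)
  rw [Complex.re_sum]
  refine le_trans (le_of_eq ?_) (card_nsmul_le_sum _ _ (1 / 2 : ℝ) fun j hj => half_le_re_ee ?_)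
  · rw [card_range, nsmul_eq_mul]; ring
  · have : (j : ℝ) ≤ J := by exact_mod_cast (mem_range.1 hj).le
    rw [abs_mul, Nat.abs_cast]
    exact le_trans (by gcongr) hx

end Pool.Agent.MP_d0fd9b_nt.H68
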