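import Pool.Agent.MP_d0fd9b_nt.H68.Base

/-! The off-diagonal terms: common roots of two binary cubic forms. -/

set_option autoImplicit false

namespace Pool.Agent.MP_d0fd9b_nt.H68

section

open Finset

lemma t4_mem {N S : ℕ} {x : ℤ × ℤ} (hx : x ∈ pairs N S) :
    (N : ℤ) ≤ x.1 ∧ x.1 < 2 * N ∧ |x.2| ≤ S ∧ Int.gcd x.1 x.2 = 1 := by
  rw [pairs, mem_filter, mem_product, mem_Ico, mem_II] at hx
  exact ⟨hx.1.1.1, hx.1.1.2, hx.1.2, hx.2⟩

lemma t4_eq {x y : ℤ × ℤ} (hx : 0 < x.1) (hy : 0 < y.1) (gx : Int.gcd x.1 x.2 = 1)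
    (gy : Int.gcd y.1 y.2 = 1) (h : x.1 * y.2 - x.2 * y.1 = 0) : x = y := by
  have a : x.1 ∣ y.1 := (Int.isCoprime_iff_gcd_eq_one.2 gx).dvd_of_dvd_mul_left
    ⟨y.2, by linarith⟩
  have b : y.1 ∣ x.1 := (Int.isCoprime_iff_gcd_eq_one.2 gy).dvd_of_dvd_mul_left
    ⟨x.2, by linarith⟩
  have e : x.1 = y.1 := Int.dvd_antisymm hx.le hy.le a b
  refine Prod.ext e (mul_left_cancel₀ hx.ne' ?_)
  rw [← e] at h
  linarith

lemma t4_base {N S m : ℕ} (hN : 0 < N) (hm : 0 < m) {E : Finset (ℤ × ℤ)} (hE : E ⊆ pairs N S)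
    (hd : ∀ x ∈ E, ∀ y ∈ E, (m : ℤ) ∣ x.1 * y.2 - x.2 * y.1) :
    (#E : ℝ) ≤ 1 + 8 * N * S / m := by
  have N0 : (0 : ℝ) < N := by exact_mod_cast hN
  have m0 : (0 : ℝ) < m := by exact_mod_cast hm
  set φ : ℤ × ℤ → ℝ := fun x => ((x.2 : ℝ) / x.1 + S / N) * (4 * N ^ 2 / m) with hφ
  have hb : ∀ x ∈ E, 0 ≤ φ x ∧ φ x ≤ 8 * N * S / m := by
    intro x hx
    obtain ⟨h1, -, h3, -⟩ := t4_mem (hE hx)
    have h1' : (N : ℝ) ≤ x.1 := by exact_mod_cast h1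
    have h3' : |(x.2 : ℝ)| ≤ S := by exact_mod_cast h3
    have : |(x.2 : ℝ) / x.1| ≤ S / N := by
      rw [abs_div, abs_of_pos (N0.trans_le h1')]
      gcongr
    obtain ⟨l, u⟩ := abs_le.1 this
    refine ⟨mul_nonneg (by linarith) (by positivity), ?_⟩
    calc φ x ≤ (S / N + S / N) * (4 * N ^ 2 / m) := by
          simp only [hφ]
          gcongr
      _ = 8 * N * S / m := by field_simp; ring
  have hc : #E ≤ #(range (⌊(8 * N * S / m : ℝ)⌋₊ + 1)) := by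
    refine card_le_card_of_injOn (fun x => ⌊φ x⌋₊) (fun x hx => ?_) (fun x hx y hy h => ?_)
    · exact mem_coe.2 (mem_range.2 (Nat.lt_succ_of_le (Nat.floor_le_floor (hb x hx).2)))
    · obtain ⟨a1, a2, -, a4⟩ := t4_mem (hE hx)
      obtain ⟨b1, b2, -, b4⟩ := t4_mem (hE hy)
      have hN' : (0 : ℤ) < N := by exact_mod_cast hN
      refine t4_eq (by omega) (by omega) a4 b4 (Int.eq_zero_of_abs_lt_dvd (hd x hx y hy) ?_)
      have x0 : (0 : ℝ) < x.1 := by exact_mod_cast (by omega : 0 < x.1)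
      have y0 : (0 : ℝ) < y.1 := by exact_mod_cast (by omega : 0 < y.1)
      have x2 : (x.1 : ℝ) ≤ 2 * N := by exact_mod_cast a2.le
      have y2 : (y.1 : ℝ) ≤ 2 * N := by exact_mod_cast b2.le
      have h' : (⌊φ x⌋₊ : ℝ) = ⌊φ y⌋₊ := by exact_mod_cast h
      have l1 := Nat.floor_le (hb x hx).1
      have l2 := Nat.floor_le (hb y hy).1
      have u1 := Nat.lt_floor_add_one (φ x)
      have u2 := Nat.lt_floor_add_one (φ y)
      have k : |φ y - φ x| < 1 := abs_lt.2 ⟨by linarith, by linarith⟩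
      have e : ((x.1 * y.2 - x.2 * y.1 : ℤ) : ℝ) = (φ y - φ x) * (m * (x.1 * y.1 / (4 * N ^ 2))) := by
        simp only [hφ]
        push_cast
        field_simp
        ring
      have r : (x.1 : ℝ) * y.1 / (4 * N ^ 2) ≤ 1 := by
        rw [div_le_one (by positivity)]
        nlinarith
      have : |((x.1 * y.2 - x.2 * y.1 : ℤ) : ℝ)| < m := by
        rw [e, abs_mul, abs_of_pos (by positivity : (0 : ℝ) < m * (x.1 * y.1 / (4 * N ^ 2)))]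
        calc _ ≤ |φ y - φ x| * (m * 1) := by gcongr
          _ < 1 * (m * 1) := by gcongr
          _ = m := by ring
      exact_mod_cast this
  have : (#E : ℝ) ≤ (⌊(8 * N * S / m : ℝ)⌋₊ : ℝ) + 1 := by
    rw [card_range] at hc
    exact_mod_cast hc
  linarith [Nat.floor_le (by positivity : (0 : ℝ) ≤ 8 * N * S / m)]

open Polynomial in
lemma t4_poly {p : ℕ} [Fact p.Prime] {t : ℤ × ℤ × ℤ × ℤ} (hp : ¬ p ∣ 5 * cont t) :
    ∃ R : Finset (ZMod p), #R ≤ 3 ∧ ∀ n s : ℤ, (n : ZMod p) ≠ 0 → (p : ℤ) ∣ F1 n s t →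
      (p : ℤ) ∣ F2 n s t → (s : ZMod p) / n ∈ R := by
  classical
  obtain ⟨e, c, f, g⟩ := t
  have key : ∀ a b c d : ZMod p, (a ≠ 0 ∨ b ≠ 0 ∨ c ≠ 0 ∨ d ≠ 0) → ∃ R : Finset (ZMod p), #R ≤ 3 ∧
      ∀ x, a * x ^ 3 + b * x ^ 2 + c * x + d = 0 → x ∈ R := by
    intro a b c d h
    refine ⟨(Cubic.roots ⟨a, b, c, d⟩).toFinset, Cubic.card_roots_le, fun x hx => ?_⟩
    refine Multiset.mem_toFinset.2 ((Cubic.mem_roots_iff ?_ x).2 hx)
    rcases h with h | h | h | h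
    exacts [Cubic.ne_zero_of_a_ne_zero h, Cubic.ne_zero_of_b_ne_zero h,
      Cubic.ne_zero_of_c_ne_zero h, Cubic.ne_zero_of_d_ne_zero h]
  have h5 : (5 : ZMod p) ≠ 0 := fun h => hp (Dvd.dvd.mul_right
    ((ZMod.natCast_eq_zero_iff 5 p).1 (by exact_mod_cast h)) _)
  by_cases h : (g : ZMod p) ≠ 0 ∨ (e : ZMod p) ≠ 0
  · obtain ⟨R, hR, H⟩ := key g (2 * f) 0 (-(5 * e)) (h.elim Or.inl fun h =>
      Or.inr (Or.inr (Or.inr (neg_ne_zero.2 (mul_ne_zero h5 h)))))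
    refine ⟨R, hR, fun n s hn h1 _ => H _ ?_⟩
    have := (ZMod.intCast_zmod_eq_zero_iff_dvd _ p).2 h1
    simp only [F1] at this
    push_cast at this
    field_simp
    linear_combination this
  · have h' : (c : ZMod p) ≠ 0 ∨ (f : ZMod p) ≠ 0 := by
      by_contra h'
      simp only [ne_eq, not_or, not_not, ZMod.intCast_zmod_eq_zero_iff_dvd] at h h'
      refine hp (Dvd.dvd.mul_left (Nat.dvd_gcd ?_ ?_) _)
      · exact Int.dvd_gcd h.2 h'.1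
      · exact Int.dvd_gcd h'.2 h.1
    obtain ⟨R, hR, H⟩ := key (5 * c) 0 (-(2 * g)) f (h'.elim (fun h => Or.inl (mul_ne_zero h5 h))
      fun h => Or.inr (Or.inr (Or.inr h)))
    refine ⟨R, hR, fun n s hn _ h2 => H _ ?_⟩
    have := (ZMod.intCast_zmod_eq_zero_iff_dvd _ p).2 h2
    simp only [F2] at this
    push_cast at this
    field_simp
    linear_combination this

lemma t4_gen {N S : ℕ} (hN : 0 < N) (t : ℤ × ℤ × ℤ × ℤ) (P : Finset ℕ)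
    (hP : ∀ p ∈ P, p.Prime ∧ ¬ p ∣ 5 * cont t) : ∀ m : ℕ, 0 < m → (∀ p ∈ P, p.Coprime m) →
    ∀ E : Finset (ℤ × ℤ), E ⊆ pairs N S →
      (∀ x ∈ E, ∀ y ∈ E, (m : ℤ) ∣ x.1 * y.2 - x.2 * y.1) →
      (∀ x ∈ E, ∀ p ∈ P, (p : ℤ) ∣ F1 x.1 x.2 t ∧ (p : ℤ) ∣ F2 x.1 x.2 t) →
      (#E : ℝ) ≤ 4 ^ #P * (1 + 8 * N * S / (m * ∏ p ∈ P, p : ℕ)) := by
  classical
  induction P using Finset.induction_on with
  | empty =>
    intro m hm _ E hE hd _
    simpa using t4_base hN hm hE hd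
  | insert p P hp ih =>
    intro m hm hc E hE hd hF
    obtain ⟨pp, p5⟩ := hP p (mem_insert_self _ _)
    have := Fact.mk pp
    obtain ⟨R, hR, H⟩ := t4_poly p5
    set l : ℤ × ℤ → Option (ZMod p) := fun x =>
      if (x.1 : ZMod p) = 0 then none else some ((x.2 : ZMod p) / x.1) with hl
    have hL : ∀ x ∈ E, l x ∈ insertNone R := by
      intro x hx
      obtain ⟨h1, h2⟩ := hF x hx p (mem_insert_self _ _)
      simp only [hl]
      split_ifs with h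
      · exact none_mem_insertNone
      · exact some_mem_insertNone.2 (H _ _ h h1 h2)
    have fib : ∀ o ∈ insertNone R, (#(E.filter fun x => l x = o) : ℝ) ≤
        4 ^ #P * (1 + 8 * N * S / (m * p * ∏ p ∈ P, p : ℕ)) := by
      intro o _
      refine ih (fun q hq => hP q (mem_insert_of_mem hq)) (m * p) (Nat.mul_pos hm pp.pos)
        (fun q hq => Nat.Coprime.mul_right (hc q (mem_insert_of_mem hq))
          ((Nat.coprime_primes (hP q (mem_insert_of_mem hq)).1 pp).2 fun e => hp (e ▸ hq))) _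
        ((filter_subset _ _).trans hE) (fun x hx y hy => ?_)
        fun x hx q hq => hF x (mem_filter.1 hx).1 q (mem_insert_of_mem hq)
      obtain ⟨hx, ex⟩ := mem_filter.1 hx
      obtain ⟨hy, ey⟩ := mem_filter.1 hy
      push_cast
      refine (Nat.isCoprime_iff_coprime.2 (hc p (mem_insert_self _ _)).symm).mul_dvd
        (hd x hx y hy) ((ZMod.intCast_zmod_eq_zero_iff_dvd _ p).1 ?_)
      have e := ex.trans ey.symm
      simp only [hl] at e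
      push_cast
      split_ifs at e with a b b
      · rw [a, b]; ring
      · rw [Option.some.injEq, div_eq_div_iff a b] at e
        linear_combination -e
    rw [card_eq_sum_card_fiberwise hL, Nat.cast_sum, card_insert_of_notMem hp, prod_insert hp,
      ← mul_assoc m, pow_succ', mul_assoc (4 : ℝ)]
    refine (sum_le_card_nsmul _ _ _ fib).trans ?_
    rw [nsmul_eq_mul, card_insertNone]
    have : ((#R + 1 : ℕ) : ℝ) ≤ 4 := by exact_mod_cast Nat.succ_le_succ hR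
    gcongr

theorem roots_le (N S : ℕ) (hN : 0 < N) (t : ℤ × ℤ × ℤ × ℤ) (P : Finset ℕ)
    (hP : ∀ p ∈ P, p.Prime ∧ ¬ p ∣ 5 * cont t) :
    (#((pairs N S).filter fun x => ∀ p ∈ P, (p : ℤ) ∣ F1 x.1 x.2 t ∧ (p : ℤ) ∣ F2 x.1 x.2 t) : ℝ) ≤
      4 ^ #P * (1 + 8 * N * S / (∏ p ∈ P, p : ℕ)) := by
  have := t4_gen hN t P hP 1 one_pos (fun p _ => Nat.coprime_one_right p) _
    (filter_subset (fun x => ∀ p ∈ P, (p : ℤ) ∣ F1 x.1 x.2 t ∧ (p : ℤ) ∣ F2 x.1 x.2 t)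
      (pairs N S)) (fun _ _ _ _ => by simp) fun x hx => (mem_filter.1 hx).2
  rwa [one_mul] at this

end

section

open Finset

lemma t5_mem {K : ℕ} {t : ℤ × ℤ × ℤ × ℤ} (ht : t ∈ box K) :
    t.1 ∈ II K ∧ t.2.1 ∈ II K ∧ t.2.2.1 ∈ II K ∧ t.2.2.2 ∈ II K := by
  simpa only [box, mem_product] using ht

lemma t5_inj (K : ℕ) (A : Finset (ℤ × ℤ × ℤ × ℤ)) (π : ℤ × ℤ × ℤ × ℤ → ℤ × ℤ)
    (h1 : ∀ t ∈ A, π t ∈ II K ×ˢ II K) (h2 : ∀ t ∈ A, ∀ u ∈ A, π t = π u → t = u) :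
    #A ≤ (2 * K + 1) ^ 2 := by
  have := card_le_card_of_injOn π (s := A) (t := II K ×ˢ II K) (fun t ht => h1 t ht)
    (fun t ht u hu h => h2 t ht u hu h)
  rwa [card_product, card_II, ← pow_two] at this

lemma t5_div {z : ℤ} (hz : z ≠ 0) (A : Finset ℤ) (hA : ∀ f ∈ A, f ∣ z) :
    #A ≤ 2 * #z.natAbs.divisors := by
  have hsub : A ⊆ z.natAbs.divisors.image (fun d : ℕ => (d : ℤ)) ∪
      z.natAbs.divisors.image (fun d : ℕ => -(d : ℤ)) := by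
    intro f hf
    have hd : f.natAbs ∈ z.natAbs.divisors :=
      Nat.mem_divisors.2 ⟨Int.natAbs_dvd_natAbs.2 (hA f hf), Int.natAbs_ne_zero.2 hz⟩
    rcases Int.natAbs_eq f with h | h
    · exact mem_union_left _ (mem_image.2 ⟨_, hd, h.symm⟩)
    · exact mem_union_right _ (mem_image.2 ⟨_, hd, h.symm⟩)
  have h1 := card_le_card hsub
  have h2 := card_union_le (z.natAbs.divisors.image (fun d : ℕ => (d : ℤ)))
    (z.natAbs.divisors.image (fun d : ℕ => -(d : ℤ)))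
  have h3 := card_image_le (s := z.natAbs.divisors) (f := fun d : ℕ => (d : ℤ))
  have h4 := card_image_le (s := z.natAbs.divisors) (f := fun d : ℕ => -(d : ℤ))
  omega

/-- the possible values of `f g` -/
noncomputable def t5_Z (m : ℤ) : Finset ℤ :=
  insert (25 * m) ((16 * m ^ 2).natAbs.divisors.image fun d : ℕ => 3 * m + (16 * m ^ 2 / d - d) / 2)

lemma t5_card_Z (m : ℤ) : #(t5_Z m) ≤ #(16 * m ^ 2).natAbs.divisors + 1 :=
  (card_insert_le _ _).trans (Nat.add_le_add_right card_image_le 1)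

lemma t5_z {e c f g : ℤ} (hm : e * c ≠ 0) (h : RR (e, c, f, g) = 0) : f * g ∈ t5_Z (e * c) := by
  by_cases h25 : f * g = 25 * (e * c)
  · rw [h25]; exact mem_insert_self _ _
  refine mem_insert_of_mem ?_
  have key : (8 * (c * f ^ 5 - e * g ^ 5)) ^ 2 =
      ((f * g - 25 * (e * c)) ^ 2) ^ 2 * ((f * g - 3 * (e * c)) ^ 2 + 16 * (e * c) ^ 2) := by
    simp only [RR] at h
    linear_combination (-((f * g) ^ 3 + 75 * (f * g) ^ 2 * (e * c) - 625 * (f * g) * (e * c) ^ 2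
      + 3125 * (e * c) ^ 3 + 8 * (c * f ^ 5 + e * g ^ 5))) * h
  generalize 8 * (c * f ^ 5 - e * g ^ 5) = b at key
  generalize f * g = z at key h25 ⊢
  generalize e * c = m at key h25 hm ⊢
  have ha : (z - 25 * m) ^ 2 ≠ 0 := pow_ne_zero _ (sub_ne_zero.2 h25)
  obtain ⟨y, rfl⟩ : (z - 25 * m) ^ 2 ∣ b := (Int.pow_dvd_pow_iff two_ne_zero).1 ⟨_, key⟩
  rw [mul_pow] at key
  have hy : |y| ^ 2 = (z - 3 * m) ^ 2 + 16 * m ^ 2 := by
    rw [sq_abs]; exact mul_left_cancel₀ (pow_ne_zero 2 ha) key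
  have hm2 : 0 < m ^ 2 := by positivity
  have hd : 0 < |y| - (z - 3 * m) := by
    have := abs_lt_of_sq_lt_sq' (a := z - 3 * m) (b := |y|) (by linarith) (abs_nonneg y)
    linarith [this.2]
  have hp : 16 * m ^ 2 = (|y| - (z - 3 * m)) * (|y| + (z - 3 * m)) := by linear_combination -hy
  refine mem_image.2 ⟨(|y| - (z - 3 * m)).natAbs, Nat.mem_divisors.2
    ⟨Int.natAbs_dvd_natAbs.2 ⟨_, hp⟩, Int.natAbs_ne_zero.2 (by positivity)⟩, ?_⟩
  rw [Int.natAbs_of_nonneg hd.le, hp, Int.mul_ediv_cancel_left _ hd.ne']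
  omega

lemma t5_main (K T : ℕ) (hT : ∀ m : ℕ, m ≠ 0 → m ≤ 16 * K ^ 4 → #m.divisors ≤ T)
    (A : Finset (ℤ × ℤ × ℤ × ℤ))
    (hA : ∀ t ∈ A, t ∈ box K ∧ RR t = 0 ∧ t.1 ≠ 0 ∧ t.2.1 ≠ 0 ∧ t.2.2.1 ≠ 0 ∧ t.2.2.2 ≠ 0) :
    #A ≤ 2 * T * (T + 1) * (2 * K + 1) ^ 2 := by
  have hab : ∀ a b : ℤ, a ∈ II K → b ∈ II K → (a * b).natAbs ≤ K ^ 2 := by
    intro a b ha hb
    rw [mem_II, abs_le] at ha hb
    rw [Int.natAbs_mul, pow_two]
    exact Nat.mul_le_mul (by omega) (by omega)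
  have h := card_le_mul_card_image_of_maps_to (s := A) (t := II K ×ˢ II K)
    (f := fun t => (t.1, t.2.1))
    (fun t ht => mem_product.2 ⟨(t5_mem (hA t ht).1).1, (t5_mem (hA t ht).1).2.1⟩)
    (2 * T * (T + 1)) ?_
  · rwa [card_product, card_II, ← pow_two] at h
  rintro ⟨e, c⟩ hb
  rw [mem_product] at hb
  set B := A.filter fun t => (t.1, t.2.1) = (e, c) with hB
  have hmem : ∀ t ∈ B, t ∈ A ∧ t.1 = e ∧ t.2.1 = c := fun t ht => by
    have := mem_filter.1 ht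
    exact ⟨this.1, (Prod.ext_iff.1 this.2).1, (Prod.ext_iff.1 this.2).2⟩
  rcases B.eq_empty_or_nonempty with h0 | ⟨t0, ht0⟩
  · rw [h0]; simp
  have hm : e * c ≠ 0 := by
    obtain ⟨h1, h2, h3⟩ := hmem t0 ht0
    exact mul_ne_zero (h2 ▸ (hA t0 h1).2.2.1) (h3 ▸ (hA t0 h1).2.2.2.1)
  have hZ : #(t5_Z (e * c)) ≤ T + 1 := by
    refine (t5_card_Z _).trans (Nat.add_le_add_right (hT _ (Int.natAbs_ne_zero.2 (by positivity)) ?_) 1)
    rw [Int.natAbs_mul, Int.natAbs_pow]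
    refine Nat.mul_le_mul le_rfl ?_
    calc (e * c).natAbs ^ 2 ≤ (K ^ 2) ^ 2 := Nat.pow_le_pow_left (hab e c hb.1 hb.2) 2
      _ = K ^ 4 := by ring
  have h2 := card_le_mul_card_image_of_maps_to (s := B) (t := t5_Z (e * c))
    (f := fun t => t.2.2.1 * t.2.2.2) (fun t ht => by
      obtain ⟨h1, h2, h3⟩ := hmem t ht
      refine t5_z hm ?_
      rw [← h2, ← h3]
      exact (hA t h1).2.1) (2 * T) ?_
  · exact h2.trans (Nat.mul_le_mul le_rfl hZ)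
  intro z _
  set C := B.filter fun t => t.2.2.1 * t.2.2.2 = z with hC
  rcases C.eq_empty_or_nonempty with h0 | ⟨t1, ht1⟩
  · rw [h0]; simp
  have hz := (mem_filter.1 ht1).2
  have h1 := hA t1 (hmem t1 (mem_filter.1 ht1).1).1
  have hz0 : z ≠ 0 := hz ▸ mul_ne_zero h1.2.2.2.2.1 h1.2.2.2.2.2
  have hzK : z.natAbs ≤ 16 * K ^ 4 := by
    have h3 : z.natAbs ≤ K ^ 2 := hz ▸ hab _ _ (t5_mem h1.1).2.2.1 (t5_mem h1.1).2.2.2
    have h4 : K ^ 2 ≤ (K ^ 2) ^ 2 := Nat.le_self_pow two_ne_zero _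
    have h5 : (K ^ 2) ^ 2 = K ^ 4 := by ring
    omega
  have hinj : Set.InjOn (fun t : ℤ × ℤ × ℤ × ℤ => t.2.2.1) C := by
    rintro ⟨a, b, f, g⟩ ht ⟨a', b', f', g'⟩ hu hf
    have p1 := mem_filter.1 (mem_coe.1 ht)
    have p2 := mem_filter.1 (mem_coe.1 hu)
    obtain ⟨q1, q2, q3⟩ := hmem _ p1.1
    obtain ⟨-, q5, q6⟩ := hmem _ p2.1
    have hf0 : f ≠ 0 := (hA _ q1).2.2.2.2.1
    have r1 : f * g = z := p1.2
    have r2 : f' * g' = z := p2.2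
    simp only at hf q2 q3 q5 q6
    subst hf
    rw [q2, q3, q5, q6, mul_left_cancel₀ hf0 (r1.trans r2.symm)]
  rw [← card_image_of_injOn hinj]
  refine (t5_div hz0 _ fun f hf => ?_).trans
    (Nat.mul_le_mul le_rfl (hT _ (Int.natAbs_ne_zero.2 hz0) hzK))
  obtain ⟨t, ht, rfl⟩ := mem_image.1 hf
  exact ⟨_, (mem_filter.1 ht).2.symm⟩

lemma t5_nat (K T : ℕ) (hT : ∀ m : ℕ, m ≠ 0 → m ≤ 16 * K ^ 4 → #m.divisors ≤ T) :
    #((box K).filter fun t => RR t = 0) ≤ (6 + 2 * T * (T + 1)) * (2 * K + 1) ^ 2 := by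
  set A := (box K).filter fun t => RR t = 0 with hA
  have hmem : ∀ (p : ℤ × ℤ × ℤ × ℤ → Prop) [DecidablePred p] (t : ℤ × ℤ × ℤ × ℤ),
      t ∈ A.filter p → (t.1 ∈ II K ∧ t.2.1 ∈ II K ∧ t.2.2.1 ∈ II K ∧ t.2.2.2 ∈ II K) ∧
        RR t = 0 ∧ p t := fun p _ t ht =>
    ⟨t5_mem (mem_filter.1 (mem_filter.1 ht).1).1, (mem_filter.1 (mem_filter.1 ht).1).2,
      (mem_filter.1 ht).2⟩
  have h5 : ∀ x y : ℤ, x ^ 5 = y ^ 5 → x = y := fun x y h =>
    (Odd.strictMono_pow (by decide : Odd 5)).injective h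
  have a1 := t5_inj K (A.filter fun t => t.1 = 0 ∧ t.2.2.1 = 0) (fun t => (t.2.1, t.2.2.2))
    (fun t ht => mem_product.2 ⟨(hmem _ t ht).1.2.1, (hmem _ t ht).1.2.2.2⟩) (by
      rintro ⟨e, c, f, g⟩ ht ⟨e', c', f', g'⟩ hu h
      obtain ⟨-, -, p1, p2⟩ := hmem _ _ ht
      obtain ⟨-, -, p3, p4⟩ := hmem _ _ hu
      simp only [Prod.mk.injEq] at h p1 p2 p3 p4 ⊢
      omega)
  have a2 := t5_inj K (A.filter fun t => t.1 = 0 ∧ t.2.2.1 ≠ 0) (fun t => (t.2.2.1, t.2.2.2))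
    (fun t ht => mem_product.2 ⟨(hmem _ t ht).1.2.2.1, (hmem _ t ht).1.2.2.2⟩) (by
      rintro ⟨e, c, f, g⟩ ht ⟨e', c', f', g'⟩ hu h
      obtain ⟨-, r1, p1, p2⟩ := hmem _ _ ht
      obtain ⟨-, r2, p3, -⟩ := hmem _ _ hu
      simp only [Prod.mk.injEq, RR] at h p1 p2 p3 r1 r2 ⊢
      obtain ⟨rfl, rfl⟩ := h
      subst p1 p3
      refine ⟨rfl, mul_left_cancel₀ (mul_ne_zero (by norm_num : (8 : ℤ) ≠ 0) (pow_ne_zero 5 p2)) ?_,
        rfl, rfl⟩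
      linear_combination r2 - r1)
  have a3 := t5_inj K (A.filter fun t => t.2.1 = 0 ∧ t.2.2.2 = 0) (fun t => (t.1, t.2.2.1))
    (fun t ht => mem_product.2 ⟨(hmem _ t ht).1.1, (hmem _ t ht).1.2.2.1⟩) (by
      rintro ⟨e, c, f, g⟩ ht ⟨e', c', f', g'⟩ hu h
      obtain ⟨-, -, p1, p2⟩ := hmem _ _ ht
      obtain ⟨-, -, p3, p4⟩ := hmem _ _ hu
      simp only [Prod.mk.injEq] at h p1 p2 p3 p4 ⊢
      omega)
  have a4 := t5_inj K (A.filter fun t => t.2.1 = 0 ∧ t.2.2.2 ≠ 0) (fun t => (t.2.2.1, t.2.2.2))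
    (fun t ht => mem_product.2 ⟨(hmem _ t ht).1.2.2.1, (hmem _ t ht).1.2.2.2⟩) (by
      rintro ⟨e, c, f, g⟩ ht ⟨e', c', f', g'⟩ hu h
      obtain ⟨-, r1, p1, p2⟩ := hmem _ _ ht
      obtain ⟨-, r2, p3, -⟩ := hmem _ _ hu
      simp only [Prod.mk.injEq, RR] at h p1 p2 p3 r1 r2 ⊢
      obtain ⟨rfl, rfl⟩ := h
      subst p1 p3
      refine ⟨mul_left_cancel₀ (mul_ne_zero (by norm_num : (8 : ℤ) ≠ 0) (pow_ne_zero 5 p2)) ?_,
        rfl, rfl, rfl⟩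
      linear_combination r2 - r1)
  have a5 := t5_inj K (A.filter fun t => t.1 ≠ 0 ∧ t.2.2.1 = 0) (fun t => (t.1, t.2.1))
    (fun t ht => mem_product.2 ⟨(hmem _ t ht).1.1, (hmem _ t ht).1.2.1⟩) (by
      rintro ⟨e, c, f, g⟩ ht ⟨e', c', f', g'⟩ hu h
      obtain ⟨-, r1, p1, p2⟩ := hmem _ _ ht
      obtain ⟨-, r2, -, p4⟩ := hmem _ _ hu
      simp only [Prod.mk.injEq, RR] at h p1 p2 p4 r1 r2 ⊢
      obtain ⟨rfl, rfl⟩ := h
      subst p2 p4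
      refine ⟨rfl, rfl, rfl, h5 _ _
        (mul_left_cancel₀ (mul_ne_zero (by norm_num : (8 : ℤ) ≠ 0) p1) ?_)⟩
      linear_combination r2 - r1)
  have a6 := t5_inj K (A.filter fun t => t.2.1 ≠ 0 ∧ t.2.2.2 = 0) (fun t => (t.1, t.2.1))
    (fun t ht => mem_product.2 ⟨(hmem _ t ht).1.1, (hmem _ t ht).1.2.1⟩) (by
      rintro ⟨e, c, f, g⟩ ht ⟨e', c', f', g'⟩ hu h
      obtain ⟨-, r1, p1, p2⟩ := hmem _ _ ht
      obtain ⟨-, r2, -, p4⟩ := hmem _ _ hu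
      simp only [Prod.mk.injEq, RR] at h p1 p2 p4 r1 r2 ⊢
      obtain ⟨rfl, rfl⟩ := h
      subst p2 p4
      refine ⟨rfl, rfl, h5 _ _
        (mul_left_cancel₀ (mul_ne_zero (by norm_num : (8 : ℤ) ≠ 0) p1) ?_), rfl⟩
      linear_combination r2 - r1)
  have a7 := t5_main K T hT
    (A.filter fun t => t.1 ≠ 0 ∧ t.2.1 ≠ 0 ∧ t.2.2.1 ≠ 0 ∧ t.2.2.2 ≠ 0) fun t ht =>
      ⟨(mem_filter.1 (mem_filter.1 ht).1).1, (hmem _ t ht).2⟩
  have hsub : A ⊆ (A.filter fun t => t.1 = 0 ∧ t.2.2.1 = 0) ∪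
      ((A.filter fun t => t.1 = 0 ∧ t.2.2.1 ≠ 0) ∪ ((A.filter fun t => t.2.1 = 0 ∧ t.2.2.2 = 0) ∪
      ((A.filter fun t => t.2.1 = 0 ∧ t.2.2.2 ≠ 0) ∪ ((A.filter fun t => t.1 ≠ 0 ∧ t.2.2.1 = 0) ∪
      ((A.filter fun t => t.2.1 ≠ 0 ∧ t.2.2.2 = 0) ∪
      (A.filter fun t => t.1 ≠ 0 ∧ t.2.1 ≠ 0 ∧ t.2.2.1 ≠ 0 ∧ t.2.2.2 ≠ 0)))))) := by
    intro t ht
    by_cases e0 : t.1 = 0
    · by_cases f0 : t.2.2.1 = 0
      · exact mem_union_left _ (mem_filter.2 ⟨ht, e0, f0⟩)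
      · exact mem_union_right _ (mem_union_left _ (mem_filter.2 ⟨ht, e0, f0⟩))
    refine mem_union_right _ (mem_union_right _ ?_)
    by_cases c0 : t.2.1 = 0
    · by_cases g0 : t.2.2.2 = 0
      · exact mem_union_left _ (mem_filter.2 ⟨ht, c0, g0⟩)
      · exact mem_union_right _ (mem_union_left _ (mem_filter.2 ⟨ht, c0, g0⟩))
    refine mem_union_right _ (mem_union_right _ ?_)
    by_cases f0 : t.2.2.1 = 0
    · exact mem_union_left _ (mem_filter.2 ⟨ht, e0, f0⟩)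
    refine mem_union_right _ ?_
    by_cases g0 : t.2.2.2 = 0
    · exact mem_union_left _ (mem_filter.2 ⟨ht, c0, g0⟩)
    · exact mem_union_right _ (mem_filter.2 ⟨ht, e0, c0, f0, g0⟩)
  have hc := (card_le_card hsub).trans ((card_union_le _ _).trans (Nat.add_le_add a1
    ((card_union_le _ _).trans (Nat.add_le_add a2 ((card_union_le _ _).trans (Nat.add_le_add a3
    ((card_union_le _ _).trans (Nat.add_le_add a4 ((card_union_le _ _).trans (Nat.add_le_add a5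
    ((card_union_le _ _).trans (Nat.add_le_add a6 a7))))))))))))
  refine hc.trans (le_of_eq ?_)
  ring

/-- T5 -/
theorem degen_le (K : ℕ) {τ : ℝ} (h1 : 1 ≤ τ)
    (hτ : ∀ m : ℕ, m ≠ 0 → m ≤ 16 * K ^ 4 → (#m.divisors : ℝ) ≤ τ) :
    (#((box K).filter fun t => RR t = 0) : ℝ) ≤ 12 * τ ^ 2 * (2 * K + 1) ^ 2 := by
  have h := t5_nat K ⌊τ⌋₊ fun m a b => Nat.le_floor (hτ m a b)
  have hT : (⌊τ⌋₊ : ℝ) ≤ τ := Nat.floor_le (by linarith)
  have h0 : (0 : ℝ) ≤ ⌊τ⌋₊ := Nat.cast_nonneg _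
  have h' : (#((box K).filter fun t => RR t = 0) : ℝ) ≤
      (6 + 2 * ⌊τ⌋₊ * (⌊τ⌋₊ + 1)) * (2 * K + 1) ^ 2 := by exact_mod_cast h
  refine h'.trans (mul_le_mul_of_nonneg_right ?_ (by positivity))
  nlinarith

end

section

open Finset

theorem t6_rad_pos (k : ℕ) : 0 < rad k :=
  prod_pos fun _ hp => (Nat.prime_of_mem_primeFactors hp).pos

theorem t6_rad_le {k : ℕ} (hk : k ≠ 0) : rad k ≤ k :=
  Nat.le_of_dvd (Nat.pos_of_ne_zero hk) (Nat.prod_primeFactors_dvd k)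

theorem t6_split {j : ℕ} (hj : 0 < j) (k : ℕ) (hk : k ≠ 0) :
    ∃ a b : ℕ, k = a * b ^ j ∧ a ∣ rad k ^ j := by
  induction k using Nat.strong_induction_on with
  | _ k ih =>
    by_cases h : ∃ p : ℕ, p.Prime ∧ p ^ j ∣ k
    · obtain ⟨p, hp, k', rfl⟩ := h
      have hk' : k' ≠ 0 := by rintro rfl; simp at hk
      have h1 : 1 < p ^ j := Nat.one_lt_pow hj.ne' hp.one_lt
      obtain ⟨a, b, hab, ha⟩ := ih k' (lt_mul_of_one_lt_left (Nat.pos_of_ne_zero hk') h1) hk'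
      refine ⟨a, p * b, by rw [mul_pow, hab]; ring, ha.trans (pow_dvd_pow_of_dvd ?_ _)⟩
      exact prod_dvd_prod_of_subset _ _ _ (Nat.primeFactors_mono (Dvd.intro_left _ rfl) hk)
    · refine ⟨k, 1, by simp, (Nat.dvd_iff_prime_pow_dvd_dvd _ _).2 fun p i hp hi => ?_⟩
      rcases Nat.eq_zero_or_pos i with rfl | hi0
      · simp
      have hij : i ≤ j := by
        by_contra hlt
        exact h ⟨p, hp, (pow_dvd_pow p (by omega)).trans hi⟩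
      have hpk : p ∣ k := (dvd_pow_self p hi0.ne').trans hi
      have : p ∣ rad k := dvd_prod_of_mem _ (Nat.mem_primeFactors.2 ⟨hp, hpk, hk⟩)
      exact (pow_dvd_pow p hij).trans (pow_dvd_pow_of_dvd this _)

theorem t6_fibre {j : ℕ} (hj : 0 < j) (H m : ℕ) :
    (#((Icc 1 H).filter fun k => rad k = m) : ℝ) ≤
      #(m ^ j).divisors * (H : ℝ) ^ (1 / (j : ℝ)) := by
  have hsub : ((Icc 1 H).filter fun k => rad k = m) ⊆
      ((m ^ j).divisors ×ˢ Icc 1 ⌊(H : ℝ) ^ (1 / (j : ℝ))⌋₊).image fun x => x.1 * x.2 ^ j := by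
    intro k hk
    rw [mem_filter, mem_Icc] at hk
    obtain ⟨⟨h1, h2⟩, rfl⟩ := hk
    obtain ⟨a, b, hab, ha⟩ := t6_split hj k (by omega)
    have ha0 : a ≠ 0 := by rintro rfl; omega
    have hb0 : b ≠ 0 := by
      rintro rfl
      rw [zero_pow hj.ne'] at hab; omega
    refine mem_image.2 ⟨(a, b), mem_product.2 ⟨Nat.mem_divisors.2
      ⟨ha, pow_ne_zero _ (t6_rad_pos k).ne'⟩, mem_Icc.2 ⟨Nat.one_le_iff_ne_zero.2 hb0, ?_⟩⟩, hab.symm⟩
    refine Nat.le_floor ?_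
    have hbH : b ^ j ≤ H := by
      calc b ^ j ≤ a * b ^ j := Nat.le_mul_of_pos_left _ (Nat.pos_of_ne_zero ha0)
        _ ≤ H := hab ▸ h2
    have hbH' : (b : ℝ) ^ j ≤ H := by exact_mod_cast hbH
    calc (b : ℝ) = ((b : ℝ) ^ j) ^ (1 / (j : ℝ)) := by
          rw [one_div, Real.pow_rpow_inv_natCast (Nat.cast_nonneg _) hj.ne']
      _ ≤ (H : ℝ) ^ (1 / (j : ℝ)) := Real.rpow_le_rpow (by positivity) hbH' (by positivity)
  have h1 := (card_le_card hsub).trans card_image_le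
  rw [card_product, Nat.card_Icc, Nat.add_sub_cancel] at h1
  have h2 : (#((Icc 1 H).filter fun k => rad k = m) : ℝ) ≤
      #(m ^ j).divisors * (⌊(H : ℝ) ^ (1 / (j : ℝ))⌋₊ : ℝ) := by exact_mod_cast h1
  exact h2.trans (mul_le_mul_of_nonneg_left (Nat.floor_le (by positivity)) (Nat.cast_nonneg _))

theorem rad_sum {ε : ℝ} (hε : 0 < ε) :
    ∃ C : ℝ, 0 ≤ C ∧ ∀ H : ℕ, ∑ k ∈ Icc 1 H, (1 : ℝ) / rad k ≤ C * (H : ℝ) ^ ε := by
  obtain ⟨n, hn⟩ := exists_nat_one_div_lt (show 0 < ε / 3 by positivity)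
  obtain ⟨j, hj, hjε⟩ : ∃ j : ℕ, 0 < j ∧ 1 / (j : ℝ) ≤ ε / 3 :=
    ⟨n + 1, Nat.succ_pos n, by push_cast; exact hn.le⟩
  have hj' : (0 : ℝ) < j := by exact_mod_cast hj
  obtain ⟨C, C1, hC⟩ := tau_le (show 0 < ε / 3 / j by positivity)
  refine ⟨C * (1 + 3 / ε), by positivity, fun H => ?_⟩
  rcases Nat.eq_zero_or_pos H with rfl | hH
  · simp only [show Icc 1 0 = (∅ : Finset ℕ) by decide, sum_empty]
    positivity
  have hH1 : (1 : ℝ) ≤ H := by exact_mod_cast hH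
  have hH0 : (0 : ℝ) < H := by positivity
  set T : ℝ := (H : ℝ) ^ (ε / 3) with hT
  have T1 : 1 ≤ T := Real.one_le_rpow hH1 (by positivity)
  have hmap : ∀ k ∈ Icc 1 H, rad k ∈ Icc 1 H := by
    intro k hk
    rw [mem_Icc] at hk ⊢
    exact ⟨t6_rad_pos k, (t6_rad_le (by omega)).trans hk.2⟩
  have hharm : ∑ m ∈ Icc 1 H, (1 : ℝ) / m ≤ (1 + 3 / ε) * T := by
    have h1 : ∑ m ∈ Icc 1 H, (1 : ℝ) / m = (harmonic H : ℝ) := by
      rw [harmonic_eq_sum_Icc]; push_cast; simp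
    have h2 := harmonic_le_one_add_log H
    have h3 := Real.log_le_rpow_div hH0.le (show 0 < ε / 3 by positivity)
    rw [← hT] at h3
    have h4 : T / (ε / 3) = 3 / ε * T := by field_simp
    rw [h1]; linarith
  calc ∑ k ∈ Icc 1 H, (1 : ℝ) / rad k
      = ∑ m ∈ Icc 1 H, ∑ k ∈ (Icc 1 H).filter fun k => rad k = m, (1 : ℝ) / rad k :=
        (sum_fiberwise_of_maps_to hmap _).symm
    _ ≤ ∑ m ∈ Icc 1 H, C * T * T * ((1 : ℝ) / m) := by
        refine sum_le_sum fun m hm => ?_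
        rw [mem_Icc] at hm
        rw [sum_congr rfl (g := fun _ => (1 : ℝ) / m) fun k hk => by rw [(mem_filter.1 hk).2],
          sum_const, nsmul_eq_mul]
        refine mul_le_mul_of_nonneg_right ((t6_fibre hj H m).trans ?_) (by positivity)
        have h1 := hC (m ^ j) (pow_ne_zero _ (by omega)) ((H : ℝ) ^ j)
          (by exact_mod_cast Nat.pow_le_pow_left hm.2 j)
        have h2 : ((H : ℝ) ^ j) ^ (ε / 3 / j) = T := by
          rw [← Real.rpow_natCast, ← Real.rpow_mul hH0.le, hT]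
          congr 1; field_simp
        rw [h2] at h1
        exact mul_le_mul h1 (Real.rpow_le_rpow_of_exponent_le hH1 hjε) (by positivity)
          (by positivity)
    _ = C * T * T * ∑ m ∈ Icc 1 H, (1 : ℝ) / m := (mul_sum _ _ _).symm
    _ ≤ C * T * T * ((1 + 3 / ε) * T) := mul_le_mul_of_nonneg_left hharm (by positivity)
    _ = C * (1 + 3 / ε) * (H : ℝ) ^ ε := by
        have : (H : ℝ) ^ ε = T * T * T := by
          rw [hT, ← Real.rpow_add hH0, ← Real.rpow_add hH0]; congr 1; ring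
        rw [this]; ring

end

section

open Finset

lemma t7_mem_box {K : ℕ} {t : ℤ × ℤ × ℤ × ℤ} : t ∈ box K ↔
    |t.1| ≤ K ∧ |t.2.1| ≤ K ∧ |t.2.2.1| ≤ K ∧ |t.2.2.2| ≤ K := by
  simp only [box, mem_product, mem_II]

lemma t7_mem_pairs {N S : ℕ} {x : ℤ × ℤ} (h : x ∈ pairs N S) :
    (N : ℤ) ≤ x.1 ∧ x.1 < 2 * N ∧ |x.2| ≤ S ∧ Int.gcd x.1 x.2 = 1 := by
  simp only [pairs, mem_filter, mem_product, mem_Ico, mem_II] at h
  exact ⟨h.1.1.1, h.1.1.2, h.1.2, h.2⟩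

lemma t7_card_pairs {N S : ℕ} (hS : 0 < S) : #(pairs N S) ≤ 3 * N * S := by
  refine (card_filter_le _ _).trans ?_
  rw [card_product, card_II, Int.card_Ico]
  have : (2 * (N : ℤ) - N).toNat = N := by omega
  rw [this]
  nlinarith

lemma t7_F_le {N S K : ℕ} {x : ℤ × ℤ} (hx : x ∈ pairs N S) {t : ℤ × ℤ × ℤ × ℤ} (ht : t ∈ box K) :
    |F1 x.1 x.2 t| ≤ 50 * K * (N + S) ^ 3 ∧ |F2 x.1 x.2 t| ≤ 50 * K * (N + S) ^ 3 := by
  obtain ⟨h1, h2, h3, -⟩ := t7_mem_pairs hx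
  obtain ⟨he, hc, hf, hg⟩ := t7_mem_box.1 ht
  have hn : |x.1| ≤ 2 * N := abs_le.2 ⟨by omega, h2.le⟩
  have hN : (0 : ℤ) ≤ N := by positivity
  have hS : (0 : ℤ) ≤ S := by positivity
  have hK : (0 : ℤ) ≤ K := by positivity
  constructor
  · calc |F1 x.1 x.2 t| ≤ |t.2.2.2 * x.2 ^ 3| + |2 * t.2.2.1 * x.1 * x.2 ^ 2| + |5 * t.1 * x.1 ^ 3| :=
          (abs_sub _ _).trans (add_le_add (abs_add_le _ _) le_rfl)
      _ ≤ K * S ^ 3 + 2 * K * (2 * N) * S ^ 2 + 5 * K * (2 * N) ^ 3 := by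
          simp only [abs_mul, abs_pow, Nat.abs_ofNat]
          gcongr
      _ ≤ 50 * K * (N + S) ^ 3 := by
          have : 0 ≤ (K : ℤ) * (10 * N ^ 3 + 150 * N ^ 2 * S + 146 * N * S ^ 2 + 49 * S ^ 3) := by
            positivity
          nlinarith
  · calc |F2 x.1 x.2 t| ≤ |5 * t.2.1 * x.2 ^ 3| + |2 * t.2.2.2 * x.1 ^ 2 * x.2| + |t.2.2.1 * x.1 ^ 3| :=
          (abs_add_le _ _).trans (add_le_add (abs_sub _ _) le_rfl)
      _ ≤ 5 * K * S ^ 3 + 2 * K * (2 * N) ^ 2 * S + K * (2 * N) ^ 3 := by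
          simp only [abs_mul, abs_pow, Nat.abs_ofNat]
          gcongr
      _ ≤ 50 * K * (N + S) ^ 3 := by
          have : 0 ≤ (K : ℤ) * (42 * N ^ 3 + 142 * N ^ 2 * S + 150 * N * S ^ 2 + 45 * S ^ 3) := by
            positivity
          nlinarith

lemma t7_RR_le {K : ℕ} {t : ℤ × ℤ × ℤ × ℤ} (ht : t ∈ box K) : |5 * RR t| ≤ 20000 * K ^ 6 := by
  obtain ⟨he, hc, hf, hg⟩ := t7_mem_box.1 ht
  have hK : (0 : ℤ) ≤ K := by positivity
  obtain ⟨e, c, f, g⟩ := t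
  simp only at he hc hf hg
  have h1 : |(f * g) ^ 3| ≤ (K * K) ^ 3 := by simp only [abs_mul, abs_pow]; gcongr
  have h2 : |75 * (f * g) ^ 2 * (e * c)| ≤ 75 * ((K : ℤ) * K) ^ 2 * (K * K) := by
    simp only [abs_mul, abs_pow, Nat.abs_ofNat]; gcongr
  have h3 : |625 * (f * g) * (e * c) ^ 2| ≤ 625 * ((K : ℤ) * K) * (K * K) ^ 2 := by
    simp only [abs_mul, abs_pow, Nat.abs_ofNat]; gcongr
  have h4 : |3125 * (e * c) ^ 3| ≤ 3125 * ((K : ℤ) * K) ^ 3 := by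
    simp only [abs_mul, abs_pow, Nat.abs_ofNat]; gcongr
  have h5 : |c * f ^ 5| ≤ K * K ^ 5 := by simp only [abs_mul, abs_pow]; gcongr
  have h6 : |e * g ^ 5| ≤ K * K ^ 5 := by simp only [abs_mul, abs_pow]; gcongr
  have h7 : (0 : ℤ) ≤ K ^ 6 := by positivity
  rw [abs_le] at h1 h2 h3 h4 h5 h6 ⊢
  simp only [RR]
  constructor <;> nlinarith [h1.1, h1.2, h2.1, h2.2, h3.1, h3.2, h4.1, h4.2, h5.1, h5.2, h6.1, h6.2]

lemma t7_dvd_RR {n s k : ℤ} (h : Int.gcd n s = 1) {t : ℤ × ℤ × ℤ × ℤ} (h1 : k ∣ F1 n s t)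
    (h2 : k ∣ F2 n s t) : k ∣ 5 * RR t := by
  obtain ⟨e, c, f, g⟩ := t
  have a1 : k ∣ 5 * RR (e, c, f, g) * n ^ 5 := by
    have : 5 * RR (e, c, f, g) * n ^ 5 =
        -(3125 * e ^ 2 * c ^ 3 * n ^ 2 + 1250 * e * c ^ 3 * f * s ^ 2 - 750 * e * c ^ 2 * f * g * n ^ 2 + 250 * e * c ^ 2 * g ^ 2 * n * s - 100 * c ^ 2 * f ^ 3 * n * s - 150 * c ^ 2 * f ^ 2 * g * s ^ 2 + 65 * c * f ^ 2 * g ^ 2 * n ^ 2 + 10 * c * f * g ^ 3 * n * s + 20 * c * g ^ 4 * s ^ 2 - 8 * g ^ 5 * n ^ 2) * F1 n s (e, c, f, g) +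
        -(-625 * e ^ 2 * c ^ 2 * g * n ^ 2 - 500 * e * c ^ 2 * f ^ 2 * n * s - 250 * e * c ^ 2 * f * g * s ^ 2 - 50 * e * c * f * g ^ 2 * n ^ 2 - 50 * e * c * g ^ 3 * n * s + 40 * c * f ^ 4 * n ^ 2 + 80 * c * f ^ 3 * g * n * s + 30 * c * f ^ 2 * g ^ 2 * s ^ 2 - 5 * f ^ 2 * g ^ 3 * n ^ 2 - 10 * f * g ^ 4 * n * s - 4 * g ^ 5 * s ^ 2) * F2 n s (e, c, f, g) := by
      simp only [RR, F1, F2]; ring
    rw [this]
    exact dvd_add (h1.mul_left _) (h2.mul_left _)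
  have a2 : k ∣ 5 * RR (e, c, f, g) * s ^ 5 := by
    have : 5 * RR (e, c, f, g) * s ^ 5 =
        -(-625 * e ^ 2 * c ^ 2 * f * s ^ 2 - 250 * e ^ 2 * c * f * g * n ^ 2 + 500 * e ^ 2 * c * g ^ 2 * n * s + 50 * e * c * f ^ 3 * n * s - 50 * e * c * f ^ 2 * g * s ^ 2 + 30 * e * f ^ 2 * g ^ 2 * n ^ 2 - 80 * e * f * g ^ 3 * n * s + 40 * e * g ^ 4 * s ^ 2 - 4 * f ^ 5 * n ^ 2 + 10 * f ^ 4 * g * n * s - 5 * f ^ 3 * g ^ 2 * s ^ 2) * F1 n s (e, c, f, g) +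
        -(-3125 * e ^ 3 * c ^ 2 * s ^ 2 - 1250 * e ^ 3 * c * g * n ^ 2 + 250 * e ^ 2 * c * f ^ 2 * n * s + 750 * e ^ 2 * c * f * g * s ^ 2 + 150 * e ^ 2 * f * g ^ 2 * n ^ 2 - 100 * e ^ 2 * g ^ 3 * n * s - 20 * e * f ^ 4 * n ^ 2 + 10 * e * f ^ 3 * g * n * s - 65 * e * f ^ 2 * g ^ 2 * s ^ 2 + 8 * f ^ 5 * s ^ 2) * F2 n s (e, c, f, g) := by
      simp only [RR, F1, F2]; ring
    rw [this]
    exact dvd_add (h1.mul_left _) (h2.mul_left _)
  obtain ⟨u, v, huv⟩ : IsCoprime (n ^ 5) (s ^ 5) := (Int.isCoprime_iff_gcd_eq_one.2 h).pow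
  have : 5 * RR (e, c, f, g) =
      u * (5 * RR (e, c, f, g) * n ^ 5) + v * (5 * RR (e, c, f, g) * s ^ 5) := by
    linear_combination (-5 * RR (e, c, f, g)) * huv
  rw [this]
  exact dvd_add (a1.mul_left _) (a2.mul_left _)

lemma t7_rad_le {k : ℕ} (hk : k ≠ 0) : rad k ≤ k :=
  Nat.le_of_dvd (Nat.pos_of_ne_zero hk) (Nat.prod_primeFactors_dvd k)

lemma t7_two_pow {k : ℕ} (hk : k ≠ 0) : 2 ^ #k.primeFactors ≤ #k.divisors := by
  rw [Nat.card_divisors hk]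
  refine pow_card_le_prod _ _ _ fun p hp => ?_
  have := (Nat.prime_of_mem_primeFactors hp).factorization_pos_of_dvd hk
    (Nat.dvd_of_mem_primeFactors hp)
  omega

lemma t7_card_dvd {H Ω : ℕ} {τ : ℝ} (hτ : ∀ m : ℕ, m ≠ 0 → m ≤ Ω → (#m.divisors : ℝ) ≤ τ) {m : ℤ}
    (m0 : m ≠ 0) (hm : |m| ≤ Ω) : (#((Icc 1 H).filter fun k : ℕ => (k : ℤ) ∣ m) : ℝ) ≤ τ := by
  have h0 : m.natAbs ≠ 0 := Int.natAbs_ne_zero.2 m0
  refine le_trans ?_ (hτ m.natAbs h0 (by rw [← Int.natCast_natAbs] at hm; exact_mod_cast hm))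
  exact_mod_cast card_le_card fun k hk =>
    Nat.mem_divisors.2 ⟨Int.natCast_dvd.1 (mem_filter.1 hk).2, h0⟩

lemma t7_cont_dvd (t : ℤ × ℤ × ℤ × ℤ) : (cont t : ℤ) ∣ t.1 ∧ (cont t : ℤ) ∣ t.2.1 ∧
    (cont t : ℤ) ∣ t.2.2.1 ∧ (cont t : ℤ) ∣ t.2.2.2 := by
  have h1 : (cont t : ℤ) ∣ (Int.gcd t.1 t.2.1 : ℕ) := by exact_mod_cast Nat.gcd_dvd_left _ _
  have h2 : (cont t : ℤ) ∣ (Int.gcd t.2.2.1 t.2.2.2 : ℕ) := by exact_mod_cast Nat.gcd_dvd_right _ _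
  exact ⟨h1.trans (Int.gcd_dvd_left _ _), h1.trans (Int.gcd_dvd_right _ _),
    h2.trans (Int.gcd_dvd_left _ _), h2.trans (Int.gcd_dvd_right _ _)⟩

lemma t7_cont_mem {K : ℕ} {t : ℤ × ℤ × ℤ × ℤ} (ht : t ∈ box K) (h : RR t ≠ 0) :
    cont t ∈ Icc 1 K := by
  obtain ⟨he, hc, hf, hg⟩ := t7_mem_box.1 ht
  obtain ⟨d1, d2, d3, d4⟩ := t7_cont_dvd t
  have key : ∀ x : ℤ, x ≠ 0 → (cont t : ℤ) ∣ x → |x| ≤ K → cont t ∈ Icc 1 K := by
    intro x x0 hd hx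
    have h1 := Int.le_of_dvd (abs_pos.2 x0) ((dvd_abs _ _).2 hd)
    have h2 : cont t ≠ 0 := fun h0 => x0 (by rw [h0] at hd; simpa using hd)
    rw [mem_Icc]; omega
  by_cases a1 : t.1 = 0
  · by_cases a2 : t.2.1 = 0
    · by_cases a3 : t.2.2.1 = 0
      · exact absurd (by simp [RR, a1, a2, a3]) h
      · exact key _ a3 d3 hf
    · exact key _ a2 d2 hc
  · exact key _ a1 d1 he

lemma t7_card_mult {K j : ℕ} (hj : j ∈ Icc 1 K) :
    (#((II K).filter fun x : ℤ => (j : ℤ) ∣ x) : ℝ) ≤ 3 * K / j := by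
  rw [mem_Icc] at hj
  have j0 : (0 : ℤ) < j := by omega
  have h : #((II K).filter fun x : ℤ => (j : ℤ) ∣ x) ≤ #(II (K / j)) := by
    refine le_trans (card_le_card (t := (II (K / j)).image fun y : ℤ => j * y) ?_) card_image_le
    intro x hx
    obtain ⟨hx, y, rfl⟩ := mem_filter.1 hx
    refine mem_image.2 ⟨y, ?_, rfl⟩
    rw [mem_II] at hx ⊢
    rw [abs_mul, abs_of_pos j0] at hx
    have : y.natAbs ≤ K / j := by
      rw [Nat.le_div_iff_mul_le (by omega)]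
      have : ((y.natAbs * j : ℕ) : ℤ) ≤ K := by push_cast; rw [mul_comm]; exact hx
      exact_mod_cast this
    rw [← Int.natCast_natAbs]
    exact_mod_cast this
  rw [card_II] at h
  have h1 : 1 ≤ K / j := (Nat.le_div_iff_mul_le (by omega)).2 (by omega)
  have h2 : ((K / j : ℕ) : ℝ) ≤ K / j := Nat.cast_div_le
  have h3 : (#((II K).filter fun x : ℤ => (j : ℤ) ∣ x) : ℝ) ≤ 3 * ((K / j : ℕ) : ℝ) := by
    exact_mod_cast h.trans (by omega)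
  rw [mul_div_assoc]
  linarith

lemma t7_inv_cube (K : ℕ) : ∑ j ∈ Icc 1 K, (1 : ℝ) / (j : ℝ) ^ 3 ≤ 2 := by
  have h : ∀ K : ℕ, ∑ j ∈ Icc 1 (K + 1), (1 : ℝ) / (j : ℝ) ^ 3 ≤ 2 - 1 / ((K : ℝ) + 1) := by
    intro K
    induction K with
    | zero => norm_num
    | succ K ih =>
      rw [sum_Icc_succ_top (by omega)]
      push_cast
      have hK : (0 : ℝ) ≤ K := by positivity
      have : (1 : ℝ) / ((K : ℝ) + 1 + 1) ^ 3 ≤ 1 / ((K : ℝ) + 1) - 1 / ((K : ℝ) + 1 + 1) := by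
        rw [div_sub_div _ _ (by positivity) (by positivity), div_le_div_iff₀ (by positivity)
          (by positivity)]
        nlinarith [mul_nonneg hK hK, mul_nonneg hK (mul_nonneg hK hK)]
      linarith
  cases K with
  | zero => simp
  | succ K =>
    have : (0 : ℝ) ≤ 1 / ((K : ℝ) + 1) := by positivity
    linarith [h K]

lemma t7_cont_sum (K : ℕ) :
    ∑ t ∈ (box K).filter fun t => RR t ≠ 0, (cont t : ℝ) ≤ 162 * (K : ℝ) ^ 4 := by
  calc ∑ t ∈ (box K).filter fun t => RR t ≠ 0, (cont t : ℝ)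
      ≤ ∑ t ∈ (box K).filter fun t => RR t ≠ 0, ∑ j ∈ Icc 1 K,
          if (j : ℤ) ∣ t.1 ∧ (j : ℤ) ∣ t.2.1 ∧ (j : ℤ) ∣ t.2.2.1 ∧ (j : ℤ) ∣ t.2.2.2 then (j : ℝ)
          else 0 := by
        refine sum_le_sum fun t ht => ?_
        obtain ⟨ht, h⟩ := mem_filter.1 ht
        refine le_trans (le_of_eq ?_) (single_le_sum (f := fun j : ℕ =>
          if (j : ℤ) ∣ t.1 ∧ (j : ℤ) ∣ t.2.1 ∧ (j : ℤ) ∣ t.2.2.1 ∧ (j : ℤ) ∣ t.2.2.2 then (j : ℝ)
          else 0) (fun j _ => by split_ifs <;> positivity) (t7_cont_mem ht h))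
        simp only [if_pos (t7_cont_dvd t)]
    _ ≤ ∑ t ∈ box K, ∑ j ∈ Icc 1 K,
          if (j : ℤ) ∣ t.1 ∧ (j : ℤ) ∣ t.2.1 ∧ (j : ℤ) ∣ t.2.2.1 ∧ (j : ℤ) ∣ t.2.2.2 then (j : ℝ)
          else 0 :=
        sum_le_sum_of_subset_of_nonneg (filter_subset _ _) fun t _ _ =>
          sum_nonneg fun j _ => by split_ifs <;> positivity
    _ = ∑ j ∈ Icc 1 K, (#((II K).filter fun x : ℤ => (j : ℤ) ∣ x) : ℝ) ^ 4 * j := by
        rw [sum_comm]
        refine sum_congr rfl fun j _ => ?_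
        rw [← sum_filter, sum_const, nsmul_eq_mul]
        congr 1
        have : ((box K).filter fun t =>
            (j : ℤ) ∣ t.1 ∧ (j : ℤ) ∣ t.2.1 ∧ (j : ℤ) ∣ t.2.2.1 ∧ (j : ℤ) ∣ t.2.2.2) =
            ((II K).filter fun x : ℤ => (j : ℤ) ∣ x) ×ˢ ((II K).filter fun x : ℤ => (j : ℤ) ∣ x) ×ˢ
            ((II K).filter fun x : ℤ => (j : ℤ) ∣ x) ×ˢ ((II K).filter fun x : ℤ => (j : ℤ) ∣ x) := by
          ext t
          simp only [box, mem_filter, mem_product]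
          tauto
        rw [this]
        simp only [card_product]
        push_cast
        ring
    _ ≤ ∑ j ∈ Icc 1 K, 81 * (K : ℝ) ^ 4 * (1 / (j : ℝ) ^ 3) := by
        refine sum_le_sum fun j hj => ?_
        have j0 : (0 : ℝ) < j := by exact_mod_cast (mem_Icc.1 hj).1
        calc _ ≤ (3 * (K : ℝ) / j) ^ 4 * j := by gcongr; exact t7_card_mult hj
          _ = _ := by field_simp; ring
    _ ≤ 162 * (K : ℝ) ^ 4 := by
        rw [← mul_sum]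
        have := t7_inv_cube K
        have h4 : (0 : ℝ) ≤ (K : ℝ) ^ 4 := by positivity
        nlinarith

/-- the weight of one tuple -/
noncomputable def t7_W (N S H : ℕ) (t : ℤ × ℤ × ℤ × ℤ) : ℝ :=
  ∑ x ∈ pairs N S, ∑ k ∈ Icc 1 H,
    if (k : ℤ) ∣ F1 x.1 x.2 t ∧ (k : ℤ) ∣ F2 x.1 x.2 t ∧ (F1 x.1 x.2 t ≠ 0 ∨ F2 x.1 x.2 t ≠ 0)
    then (rad k : ℝ) else 0

lemma t7_W_degen {N S H K Ω : ℕ} {τ : ℝ} (hS : 0 < S) (h1 : 1 ≤ τ)
    (hτ : ∀ m : ℕ, m ≠ 0 → m ≤ Ω → (#m.divisors : ℝ) ≤ τ) (o3 : 50 * K * (N + S) ^ 3 ≤ Ω)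
    {t : ℤ × ℤ × ℤ × ℤ} (ht : t ∈ box K) : t7_W N S H t ≤ 3 * N * S * (τ * H) := by
  have o3' : 50 * (K : ℤ) * (N + S) ^ 3 ≤ Ω := by exact_mod_cast o3
  have hc : (#(pairs N S) : ℝ) ≤ 3 * N * S := by exact_mod_cast t7_card_pairs hS
  refine le_trans (sum_le_card_nsmul _ _ (τ * H) fun x hx => ?_) ?_
  · obtain ⟨b1, b2⟩ := t7_F_le hx ht
    have key : ∀ m : ℤ, m ≠ 0 → |m| ≤ Ω → (∀ k : ℕ, (k : ℤ) ∣ F1 x.1 x.2 t →
        (k : ℤ) ∣ F2 x.1 x.2 t → (k : ℤ) ∣ m) → (∑ k ∈ Icc 1 H,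
        if (k : ℤ) ∣ F1 x.1 x.2 t ∧ (k : ℤ) ∣ F2 x.1 x.2 t ∧ (F1 x.1 x.2 t ≠ 0 ∨ F2 x.1 x.2 t ≠ 0)
        then (rad k : ℝ) else 0) ≤ τ * H := by
      intro m m0 hm hd
      calc _ ≤ ∑ k ∈ Icc 1 H, if (k : ℤ) ∣ m then (H : ℝ) else 0 := by
            refine sum_le_sum fun k hk => ?_
            rw [mem_Icc] at hk
            split_ifs with c1 c2
            · exact_mod_cast (t7_rad_le (by omega)).trans hk.2
            · exact absurd (hd k c1.1 c1.2.1) c2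
            · positivity
            · exact le_rfl
        _ ≤ τ * H := by
            rw [← sum_filter, sum_const, nsmul_eq_mul]
            gcongr
            exact t7_card_dvd hτ m0 hm
    by_cases z1 : F1 x.1 x.2 t = 0
    · by_cases z2 : F2 x.1 x.2 t = 0
      · simp only [z1, z2, ne_eq, not_true_eq_false, or_self, and_false, if_false, sum_const_zero]
        positivity
      · exact key _ z2 (b2.trans o3') fun k _ h => h
    · exact key _ z1 (b1.trans o3') fun k h _ => h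
  · rw [nsmul_eq_mul]
    gcongr

lemma t7_W_gen {N S H K Ω : ℕ} {τ : ℝ} (hN : 0 < N) (h1 : 1 ≤ τ)
    (hτ : ∀ m : ℕ, m ≠ 0 → m ≤ Ω → (#m.divisors : ℝ) ≤ τ) (o1 : H ≤ Ω) (o2 : 20000 * K ^ 6 ≤ Ω)
    {t : ℤ × ℤ × ℤ × ℤ} (ht : t ∈ box K) (h : RR t ≠ 0) :
    t7_W N S H t ≤ τ ^ 3 * (H + 40 * N * S * cont t) := by
  have o2' : 20000 * (K : ℤ) ^ 6 ≤ Ω := by exact_mod_cast o2
  have c0 : 0 < cont t := (mem_Icc.1 (t7_cont_mem ht h)).1
  rw [t7_W, sum_comm]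
  calc _ ≤ ∑ k ∈ Icc 1 H,
        if (k : ℤ) ∣ 5 * RR t then τ ^ 2 * (H + 40 * N * S * cont t) else 0 := by
        refine sum_le_sum fun k hk => ?_
        rw [mem_Icc] at hk
        have k0 : k ≠ 0 := by omega
        split_ifs with hd
        · set P := k.primeFactors.filter fun p => ¬ p ∣ 5 * cont t with hP
          set P' := k.primeFactors.filter fun p => p ∣ 5 * cont t with hP'
          have hr := roots_le N S hN t P fun p hp =>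
            ⟨Nat.prime_of_mem_primeFactors (mem_filter.1 hp).1, (mem_filter.1 hp).2⟩
          have hrad : rad k = (∏ p ∈ P', p) * ∏ p ∈ P, p :=
            (prod_filter_mul_prod_filter_not _ _ _).symm
          have hP0 : (0 : ℝ) < (∏ p ∈ P, p : ℕ) := by
            exact_mod_cast prod_pos fun p hp =>
              (Nat.prime_of_mem_primeFactors (mem_filter.1 hp).1).pos
          have hP1 : ((∏ p ∈ P', p : ℕ) : ℝ) ≤ 5 * cont t := by
            have : (∏ p ∈ P', p) ∣ 5 * cont t :=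
              Finset.prod_primes_dvd _ (fun p hp =>
                (Nat.prime_of_mem_primeFactors (mem_filter.1 hp).1).prime)
                fun p hp => (mem_filter.1 hp).2
            exact_mod_cast Nat.le_of_dvd (by omega) this
          have h4 : (4 : ℝ) ^ #P ≤ τ ^ 2 := by
            have a1 : 2 ^ #P ≤ #k.divisors :=
              (Nat.pow_le_pow_right (by norm_num) (card_filter_le _ _)).trans (t7_two_pow k0)
            have a2 : (2 : ℝ) ^ #P ≤ τ :=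
              le_trans (by exact_mod_cast a1) (hτ k k0 (hk.2.trans o1))
            calc (4 : ℝ) ^ #P = (2 ^ #P) ^ 2 := by rw [← pow_mul, mul_comm, pow_mul]; norm_num
              _ ≤ τ ^ 2 := by gcongr
          have hH : (rad k : ℝ) ≤ H := by exact_mod_cast (t7_rad_le k0).trans hk.2
          rw [← sum_filter, sum_const, nsmul_eq_mul]
          calc _ ≤ (#((pairs N S).filter fun x => ∀ p ∈ P,
                  (p : ℤ) ∣ F1 x.1 x.2 t ∧ (p : ℤ) ∣ F2 x.1 x.2 t) : ℝ) * rad k := by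
                gcongr with x
                intro hx p hp
                have : (p : ℤ) ∣ k := by
                  exact_mod_cast Nat.dvd_of_mem_primeFactors (mem_filter.1 hp).1
                exact ⟨this.trans hx.1, this.trans hx.2.1⟩
            _ ≤ 4 ^ #P * (1 + 8 * N * S / (∏ p ∈ P, p : ℕ)) * rad k := by gcongr
            _ = 4 ^ #P * (rad k + 8 * N * S * (∏ p ∈ P', p : ℕ)) := by
                rw [hrad, Nat.cast_mul]; field_simp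
            _ ≤ τ ^ 2 * (H + 8 * N * S * (5 * cont t)) := by gcongr
            _ = _ := by ring
        · refine le_of_eq (sum_eq_zero fun x hx => if_neg fun c => hd ?_)
          exact t7_dvd_RR (t7_mem_pairs hx).2.2.2 c.1 c.2.1
    _ ≤ τ * (τ ^ 2 * (H + 40 * N * S * cont t)) := by
        rw [← sum_filter, sum_const, nsmul_eq_mul]
        gcongr
        exact t7_card_dvd hτ (mul_ne_zero (by norm_num) h) ((t7_RR_le ht).trans o2')
    _ = _ := by ring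

/-- T7 (uses roots_le, degen_le) -/
theorem wsum_le {N S H K Ω : ℕ} {τ : ℝ} (hN : 0 < N) (hS : 0 < S) (h1 : 1 ≤ τ)
    (hτ : ∀ m : ℕ, m ≠ 0 → m ≤ Ω → (#m.divisors : ℝ) ≤ τ) (o1 : H ≤ Ω) (o2 : 20000 * K ^ 6 ≤ Ω)
    (o3 : 50 * K * (N + S) ^ 3 ≤ Ω) :
    ∑ x ∈ pairs N S, ∑ k ∈ Icc 1 H, (rad k : ℝ) * Zc K x.1 x.2 k ≤
      7000 * τ ^ 3 * ((K : ℝ) ^ 4 * (H + N * S) + (K : ℝ) ^ 2 * N * S * H) := by
  have hsw : ∑ x ∈ pairs N S, ∑ k ∈ Icc 1 H, (rad k : ℝ) * Zc K x.1 x.2 k =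
      ∑ t ∈ box K, t7_W N S H t := by
    simp only [t7_W]
    rw [sum_comm (s := box K)]
    refine sum_congr rfl fun x _ => ?_
    rw [sum_comm (s := box K)]
    refine sum_congr rfl fun k _ => ?_
    rw [← sum_filter, sum_const, nsmul_eq_mul, mul_comm, Zc]
  rw [hsw]
  rcases Nat.eq_zero_or_pos K with rfl | hK
  · refine le_of_eq ((sum_eq_zero fun t ht => ?_).trans (by simp))
    obtain ⟨he, hc, hf, hg⟩ := t7_mem_box.1 ht
    simp only [Nat.cast_zero, abs_nonpos_iff] at he hc hf hg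
    simp [t7_W, F1, F2, he, hc, hf, hg]
  have hK' : (1 : ℝ) ≤ K := by exact_mod_cast hK
  have τ0 : 0 ≤ τ := by linarith
  have hd := degen_le K h1 fun m m0 hm => hτ m m0 (hm.trans (le_trans (by
    have : K ^ 4 ≤ K ^ 6 := Nat.pow_le_pow_right hK (by norm_num)
    omega) o2))
  have hb : (#((box K).filter fun t => ¬ RR t = 0) : ℝ) ≤ 81 * (K : ℝ) ^ 4 := by
    have : #((box K).filter fun t => ¬ RR t = 0) ≤ (3 * K) ^ 4 := by
      refine (card_filter_le _ _).trans ?_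
      simp only [box, card_product, card_II]
      calc _ = (2 * K + 1) ^ 4 := by ring
        _ ≤ (3 * K) ^ 4 := Nat.pow_le_pow_left (by omega) _
    calc _ ≤ (((3 * K) ^ 4 : ℕ) : ℝ) := by exact_mod_cast this
      _ = _ := by push_cast; ring
  have s1 : ∑ t ∈ (box K).filter fun t => RR t = 0, t7_W N S H t ≤
      324 * τ ^ 3 * ((K : ℝ) ^ 2 * N * S * H) := by
    refine le_trans (sum_le_card_nsmul _ _ _ fun t ht =>
      t7_W_degen hS h1 hτ o3 (mem_filter.1 ht).1) ?_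
    rw [nsmul_eq_mul]
    calc _ ≤ 12 * τ ^ 2 * (3 * (K : ℝ)) ^ 2 * (3 * N * S * (τ * H)) := by
          gcongr
          refine hd.trans ?_
          gcongr
          linarith
      _ = _ := by ring
  have s2 : ∑ t ∈ (box K).filter fun t => ¬ RR t = 0, t7_W N S H t ≤
      τ ^ 3 * (81 * (K : ℝ) ^ 4 * H + 40 * N * S * (162 * (K : ℝ) ^ 4)) := by
    refine le_trans (sum_le_sum fun t ht =>
      t7_W_gen hN h1 hτ o1 o2 (mem_filter.1 ht).1 (mem_filter.1 ht).2) ?_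
    rw [← mul_sum, sum_add_distrib, ← mul_sum, sum_const, nsmul_eq_mul]
    gcongr
    exact t7_cont_sum K
  rw [← sum_filter_add_sum_filter_not (box K) fun t => RR t = 0]
  have p1 : 0 ≤ τ ^ 3 * ((K : ℝ) ^ 2 * N * S * H) := by positivity
  have p2 : 0 ≤ τ ^ 3 * ((K : ℝ) ^ 4 * H) := by positivity
  have p3 : 0 ≤ τ ^ 3 * ((K : ℝ) ^ 4 * (N * S)) := by positivity
  nlinarith

end

end Pool.Agent.MP_d0fd9b_nt.H68
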