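import Pool.Agent.MP_d0fd9b_nt.H68.Base
import Pool.Agent.MP_d0fd9b_nt.H72.Defs
import Pool.Agent.MP_d0fd9b_nt.Field

/-! From a class of order five to a pair of reduced ideals and an integral tuple. -/

set_option autoImplicit false

namespace Pool.Agent.MP_d0fd9b_nt.H68

section

/-! The lemmas of this section are copied from the files of helper72. -/

open QuadraticAlgebra Ideal Finset

variable {a b : ℤ}

/-- complex embedding -/
noncomputable def ec (w : ℂ) (z : QuadraticAlgebra ℤ a b) : ℂ := z.re + z.im * w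

lemma ec_mul {w : ℂ} (hw : w * w = a + b * w) (x y : QuadraticAlgebra ℤ a b) :
    ec w (x * y) = ec w x * ec w y := by
  simp only [ec, re_mul, im_mul]
  push_cast
  linear_combination (-(x.im : ℂ) * y.im) * hw

lemma ec_norm {δ : ℂ} (hδ : δ * δ = b ^ 2 + 4 * a) (z : QuadraticAlgebra ℤ a b) :
    ec ((b + δ) / 2) z * ec ((b - δ) / 2) z = (z.norm : ℤ) := by
  simp only [ec, norm_def]
  push_cast
  linear_combination (-(z.im : ℂ) ^ 2 / 4) * hδ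

/-- the positive form `u² + |D| v²` -/
def sz (z : QuadraticAlgebra ℤ a b) : ℤ := (2 * z.re + b * z.im) ^ 2 + |b ^ 2 + 4 * a| * z.im ^ 2

lemma sz_nonneg (z : QuadraticAlgebra ℤ a b) : 0 ≤ sz z := by unfold sz; positivity

lemma ec_sz {δ : ℂ} (hδ : δ * δ = b ^ 2 + 4 * a) (z : QuadraticAlgebra ℤ a b) :
    2 * (‖ec ((b + δ) / 2) z‖ ^ 2 + ‖ec ((b - δ) / 2) z‖ ^ 2) = (sz z : ℝ) := by
  have e1 : ec ((b + δ) / 2) z = ((2 * z.re + b * z.im : ℤ) : ℂ) / 2 + z.im * δ / 2 := by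
    simp only [ec]; push_cast; ring
  have e2 : ec ((b - δ) / 2) z = ((2 * z.re + b * z.im : ℤ) : ℂ) / 2 - z.im * δ / 2 := by
    simp only [ec]; push_cast; ring
  have e3 : ‖δ‖ ^ 2 = |((b ^ 2 + 4 * a : ℤ) : ℝ)| := by
    rw [pow_two, ← norm_mul, hδ, ← Complex.norm_intCast]; push_cast; rfl
  have := parallelogram_law_with_norm ℂ (((2 * z.re + b * z.im : ℤ) : ℂ) / 2) (z.im * δ / 2)
  rw [e1, e2, this, sz]
  simp only [norm_div, norm_mul, Complex.norm_intCast, Complex.norm_ofNat, div_pow, mul_pow, sq_abs, e3]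
  push_cast; ring

lemma exists_box' [IsDedekindDomain (QuadraticAlgebra ℤ a b)] (hb : |b| ≤ 1) {Δ : ℝ} (h1 : 1 ≤ Δ)
    (hΔ : Δ ^ 2 = |((b ^ 2 + 4 * a : ℤ) : ℝ)|)
    {I : Ideal (QuadraticAlgebra ℤ a b)} (hI : I ≠ ⊥) :
    ∃ α ∈ I, α ≠ 0 ∧ (sz α : ℝ) ≤ 10 * absNorm I * Δ := by
  classical
  have hN : absNorm I ≠ 0 := fun h => hI (absNorm_eq_zero_iff.1 h)
  have hfin : Finite (QuadraticAlgebra ℤ a b ⧸ I) := (absNorm_ne_zero_iff I).1 hN
  let _ : Fintype (QuadraticAlgebra ℤ a b ⧸ I) := Fintype.ofFinite _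
  have hc : Fintype.card (QuadraticAlgebra ℤ a b ⧸ I) = absNorm I := by
    rw [absNorm_apply, Submodule.cardQuot_apply, Nat.card_eq_fintype_card]
  set n : ℝ := ((absNorm I : ℕ) : ℝ) with hn
  have n0 : 0 < n := by rw [hn]; exact_mod_cast Nat.pos_of_ne_zero hN
  set s := √(n * Δ) with hs
  set t := √(n / Δ) with ht
  have s2 : s ^ 2 = n * Δ := Real.sq_sqrt (by positivity)
  have t2 : t ^ 2 = n / Δ := Real.sq_sqrt (by positivity)
  have s0 : 0 < s := Real.sqrt_pos.2 (by positivity)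
  have t0 : 0 < t := Real.sqrt_pos.2 (by positivity)
  have st : s * t = n := by
    rw [hs, ht, ← Real.sqrt_mul (by positivity), show n * Δ * (n / Δ) = n ^ 2 by field_simp,
      Real.sqrt_sq n0.le]
  have ts : t ≤ s := Real.sqrt_le_sqrt (by
    rw [div_le_iff₀ (by linarith)]; nlinarith [mul_nonneg n0.le (sub_nonneg.2 h1)])
  let z : ℕ × ℕ → QuadraticAlgebra ℤ a b := fun y => ⟨y.1, y.2⟩
  obtain ⟨y, hy, y', hy', hne, he⟩ := exists_ne_map_eq_of_card_lt_of_maps_to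
    (s := range (⌊s⌋₊ + 1) ×ˢ range (⌊t⌋₊ + 1)) (t := univ)
    (f := fun y => Ideal.Quotient.mk I (z y)) (by
      rw [card_product, card_range, card_range, card_univ, hc]
      have : n < ((⌊s⌋₊ + 1) * (⌊t⌋₊ + 1) : ℕ) := by
        push_cast
        rw [← st]
        exact mul_lt_mul'' (Nat.lt_floor_add_one s) (Nat.lt_floor_add_one t) s0.le t0.le
      rw [hn] at this
      exact_mod_cast this) (fun y _ => by simp)
  simp only [mem_product, mem_range, Nat.lt_succ_iff] at hy hy'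
  have q1 : (y.1 : ℝ) ≤ s := (Nat.le_floor_iff s0.le).1 hy.1
  have q2 : (y'.1 : ℝ) ≤ s := (Nat.le_floor_iff s0.le).1 hy'.1
  have q3 : (y.2 : ℝ) ≤ t := (Nat.le_floor_iff t0.le).1 hy.2
  have q4 : (y'.2 : ℝ) ≤ t := (Nat.le_floor_iff t0.le).1 hy'.2
  have r1 : |(y.1 : ℝ) - y'.1| ≤ s := by
    rw [abs_le]; constructor <;> linarith [Nat.cast_nonneg (α := ℝ) y.1, Nat.cast_nonneg (α := ℝ) y'.1]
  have r2 : |(y.2 : ℝ) - y'.2| ≤ t := by
    rw [abs_le]; constructor <;> linarith [Nat.cast_nonneg (α := ℝ) y.2, Nat.cast_nonneg (α := ℝ) y'.2]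
  refine ⟨z y - z y', Ideal.Quotient.eq.1 he, fun h => hne ?_, ?_⟩
  · have h2 := congrArg QuadraticAlgebra.im h
    have h3 := congrArg QuadraticAlgebra.re h
    simp only [im_sub, re_sub, z, im_zero, re_zero] at h2 h3
    exact Prod.ext (by omega) (by omega)
  · have hb' : |(b : ℝ)| ≤ 1 := by exact_mod_cast hb
    have r3 : |2 * ((y.1 : ℝ) - y'.1) + b * ((y.2 : ℝ) - y'.2)| ≤ 3 * s := by
      refine (abs_add_le _ _).trans ?_
      rw [abs_mul, abs_mul, abs_two]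
      nlinarith [abs_nonneg ((y.2 : ℝ) - y'.2), abs_nonneg (b : ℝ)]
    have r4 := pow_le_pow_left₀ (abs_nonneg _) r3 2
    have r5 := pow_le_pow_left₀ (abs_nonneg _) r2 2
    rw [sq_abs] at r4 r5
    simp only [sz, z, re_sub, im_sub]
    rw [Int.cast_add, Int.cast_mul (|b ^ 2 + 4 * a|), Int.cast_abs, ← hΔ]
    push_cast
    have r6 : Δ ^ 2 * ((y.2 : ℝ) - y'.2) ^ 2 ≤ Δ ^ 2 * (n / Δ) := by rw [← t2]; gcongr
    have r7 : Δ ^ 2 * (n / Δ) = n * Δ := by field_simp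
    nlinarith

end

section

open QuadraticAlgebra Finset NumberField H72

theorem torsion_eq {d : ℤ} (hs : Squarefree d) (h1 : d ≠ 1) (l : ℕ) : ∃ (a b f : ℤ)
    (_ : IsDedekindDomain (QuadraticAlgebra ℤ a b))
    (_ : Finite (ClassGroup (QuadraticAlgebra ℤ a b))), |b| ≤ 1 ∧ (f = 1 ∨ f = 2) ∧
      b ^ 2 + 4 * a = f ^ 2 * d ∧
      torsion l d = Nat.card {c : ClassGroup (QuadraticAlgebra ℤ a b) // c ^ l = 1} := by
  obtain ⟨t, ht⟩ := IsAlgClosed.exists_eq_mul_self (d : ℂ)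
  have hirr : ∀ r : ℚ, t ≠ r := fun r hr => by
    have h2 : IsSquare (d : ℚ) := ⟨r, by
      rw [hr] at ht
      exact_mod_cast ht⟩
    obtain ⟨s, rfl⟩ := Rat.isSquare_intCast_iff.1 h2
    rcases Int.isUnit_iff.1 (hs s dvd_rfl) with rfl | rfl <;> simp at h1
  have hroot : Polynomial.aeval t (Polynomial.X ^ 2 - Polynomial.C (d : ℚ)) = 0 := by
    simp [pow_two, ht]
  have hmon : (Polynomial.X ^ 2 - Polynomial.C (d : ℚ)).Monic :=
    Polynomial.monic_X_pow_sub_C _ two_ne_zero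
  have hint : IsIntegral ℚ t := ⟨_, hmon, by rwa [← Polynomial.aeval_def]⟩
  have hKK : IntermediateField.adjoin ℚ {z : ℂ | z ^ 2 = d} = IntermediateField.adjoin ℚ {t} := by
    apply le_antisymm
    · rw [IntermediateField.adjoin_le_iff]
      intro z hz
      have h2 : z ^ 2 = t ^ 2 := by rw [pow_two t, ← ht]; exact hz
      rcases sq_eq_sq_iff_eq_or_eq_neg.1 h2 with rfl | rfl
      · exact IntermediateField.mem_adjoin_simple_self ℚ _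
      · exact neg_mem (IntermediateField.mem_adjoin_simple_self ℚ t)
    · apply IntermediateField.adjoin.mono
      rintro z rfl
      exact (pow_two z).trans ht.symm
  let K := IntermediateField.adjoin ℚ {z : ℂ | z ^ 2 = d}
  replace hKK : K = IntermediateField.adjoin ℚ {t} := hKK
  have hfin : FiniteDimensional ℚ K := hKK ▸ IntermediateField.adjoin.finiteDimensional hint
  have hnf : NumberField K := {}
  have hK : Module.finrank ℚ K = 2 := by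
    rw [hKK, IntermediateField.adjoin.finrank hint]
    apply le_antisymm
    · have := Polynomial.natDegree_le_natDegree (minpoly.min ℚ _ hmon hroot)
      rwa [Polynomial.natDegree_X_pow_sub_C] at this
    · exact (minpoly.two_le_natDegree_iff hint).2 fun ⟨r, hr⟩ => hirr r (by simpa using hr.symm)
  let θ : K := ⟨t, hKK ▸ IntermediateField.mem_adjoin_simple_self ℚ _⟩
  have hθ2 : θ * θ = (d : K) := Subtype.ext (by simp [θ, ht])
  have hθq : ∀ r : ℚ, θ ≠ r := fun r hr => hirr r (by simpa using congrArg Subtype.val hr)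
  have h4 : d % 4 = 1 ∨ d % 4 = 2 ∨ d % 4 = 3 := by
    have : ¬ (2 * 2 : ℤ) ∣ d := fun h => by
      have := Int.isUnit_iff.1 (hs 2 h)
      omega
    omega
  have fin : ∀ {a b : ℤ} [IsDedekindDomain (QuadraticAlgebra ℤ a b)]
      (_ : 𝓞 K ≃+* QuadraticAlgebra ℤ a b), Finite (ClassGroup (QuadraticAlgebra ℤ a b)) ∧
      Nat.card {c : ClassGroup (𝓞 K) // c ^ l = 1} =
        Nat.card {c : ClassGroup (QuadraticAlgebra ℤ a b) // c ^ l = 1} := fun e =>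
    ⟨Finite.of_equiv _ (ClassGroup.mulEquiv e).toEquiv,
      Nat.card_congr ((ClassGroup.mulEquiv e).toEquiv.subtypeEquiv fun c => by
        rw [← (ClassGroup.mulEquiv e).map_eq_one_iff, map_pow]; rfl)⟩
  rcases h4 with h4 | h4
  · obtain ⟨a, ha⟩ : ∃ a : ℤ, 4 * a + 1 = d := ⟨d / 4, by omega⟩
    have hF : Fund a 1 := Or.inl ⟨rfl, ha ▸ hs⟩
    obtain ⟨hd, ⟨e⟩⟩ := structure_thm hF K hK ((1 + θ) / 2) (by
      have : ((4 * a + 1 : ℤ) : K) = ((d : ℤ) : K) := by rw [ha]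
      push_cast at this ⊢
      linear_combination hθ2 / 4 - this / 4) (by
      intro r hr
      apply hθq (2 * r - 1)
      push_cast
      linear_combination 2 * hr)
    exact ⟨a, 1, 1, hd, (fin e).1, by simp, Or.inl rfl, by linarith, (fin e).2⟩
  · have hF : Fund d 0 := Or.inr ⟨rfl, hs, by omega⟩
    obtain ⟨hd, ⟨e⟩⟩ := structure_thm hF K hK θ (by simpa using hθ2) hθq
    exact ⟨d, 0, 2, hd, (fin e).1, by simp, Or.inr rfl, by ring, (fin e).2⟩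

end

section

open QuadraticAlgebra Ideal H72

variable {a b : ℤ}

/-- the conjugate ideal -/
def cj (J : Ideal (QuadraticAlgebra ℤ a b)) : Ideal (QuadraticAlgebra ℤ a b) :=
  J.map (starRingEnd (QuadraticAlgebra ℤ a b))

lemma cj_mul (I J : Ideal (QuadraticAlgebra ℤ a b)) : cj (I * J) = cj I * cj J := Ideal.map_mul _ _ _

lemma cj_pow (I : Ideal (QuadraticAlgebra ℤ a b)) (n : ℕ) : cj (I ^ n) = cj I ^ n :=
  Ideal.map_pow _ _ _

lemma cj_span (x : QuadraticAlgebra ℤ a b) : cj (span {x}) = span {star x} := by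
  rw [cj, map_span, Set.image_singleton]; rfl

lemma cj_cj (I : Ideal (QuadraticAlgebra ℤ a b)) : cj (cj I) = I := by
  rw [cj, cj, Ideal.map_map]
  convert Ideal.map_id I
  ext x : 1
  exact star_star x

lemma cj_dvd {I J : Ideal (QuadraticAlgebra ℤ a b)} (h : I ∣ J) : cj I ∣ cj J := by
  obtain ⟨K, rfl⟩ := h
  exact ⟨cj K, cj_mul _ _⟩

lemma star_mem_cj {I : Ideal (QuadraticAlgebra ℤ a b)} {x : QuadraticAlgebra ℤ a b} (h : x ∈ I) :
    star x ∈ cj I := mem_map_of_mem (starRingEnd (QuadraticAlgebra ℤ a b)) h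

lemma mul_star_eq (x : QuadraticAlgebra ℤ a b) :
    x * star x = ((x.norm : ℤ) : QuadraticAlgebra ℤ a b) := (algebraMap_norm_eq_mul_star x).symm

lemma cj_int (m : ℤ) : cj (span {(m : QuadraticAlgebra ℤ a b)}) = span {(m : QuadraticAlgebra ℤ a b)} := by
  rw [cj_span, star_intCast]

lemma cj_nat (m : ℕ) : cj (span {(m : QuadraticAlgebra ℤ a b)}) = span {(m : QuadraticAlgebra ℤ a b)} := by
  rw [cj_span, star_natCast]

lemma cj_prime {I : Ideal (QuadraticAlgebra ℤ a b)} (h : Prime I) : Prime (cj I) := by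
  let e : Ideal (QuadraticAlgebra ℤ a b) ≃* Ideal (QuadraticAlgebra ℤ a b) :=
    { toFun := cj, invFun := cj, left_inv := cj_cj, right_inv := cj_cj, map_mul' := cj_mul }
  exact (MulEquiv.prime_iff e).2 h

lemma ideal_pow_inj {R : Type} [CommRing R] [IsDedekindDomain R] {I J : Ideal R} {n : ℕ} (hn : n ≠ 0)
    (h : I ^ n = J ^ n) : I = J := pow_left_injective hn h

lemma span_natAbs (m : ℤ) : span {((m.natAbs : ℕ) : QuadraticAlgebra ℤ a b)} =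
    span {(m : QuadraticAlgebra ℤ a b)} := by
  rcases Int.natAbs_eq m with h | h
  · conv_rhs => rw [h]
    simp
  · conv_rhs => rw [h]
    simp

variable [IsDedekindDomain (QuadraticAlgebra ℤ a b)]

lemma mul_cj [Finite (ClassGroup (QuadraticAlgebra ℤ a b))] {J : Ideal (QuadraticAlgebra ℤ a b)}
    (hJ : J ≠ ⊥) : J * cj J = span {((absNorm J : ℕ) : QuadraticAlgebra ℤ a b)} := by
  have h0 : J ∈ nonZeroDivisors (Ideal (QuadraticAlgebra ℤ a b)) := mem_nonZeroDivisors_of_ne_zero hJ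
  obtain ⟨n, hn, h1⟩ := (isOfFinOrder_of_finite (ClassGroup.mk0 ⟨J, h0⟩)).exists_pow_eq_one
  rw [← map_pow, SubmonoidClass.mk_pow, ClassGroup.mk0_eq_one_iff] at h1
  obtain ⟨γ, hγ⟩ := h1
  have hγ' : J ^ n = span {γ} := hγ
  have h2 := congrArg absNorm hγ'
  rw [map_pow, absNorm_span_singleton, alg_norm] at h2
  refine ideal_pow_inj hn.ne' ?_
  rw [mul_pow, ← cj_pow, hγ', cj_span, span_singleton_mul_span_singleton, mul_star_eq,
    span_singleton_pow, ← Nat.cast_pow, h2, span_natAbs]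

/-- decomposition of a rational prime -/
lemma prime_cases [Finite (ClassGroup (QuadraticAlgebra ℤ a b))] {p : ℕ} (hp : p.Prime) :
    Prime (span {(p : QuadraticAlgebra ℤ a b)}) ∨
      ∃ q : Ideal (QuadraticAlgebra ℤ a b), Prime q ∧ span {(p : QuadraticAlgebra ℤ a b)} = q * cj q := by
  have hN : absNorm (span {(p : QuadraticAlgebra ℤ a b)}) = p ^ 2 := by
    rw [absNorm_span_singleton, alg_norm, QuadraticAlgebra.norm_natCast]; simp [Int.natAbs_pow]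
  have h0 : span {(p : QuadraticAlgebra ℤ a b)} ≠ 0 := fun h => by
    rw [h, zero_eq_bot, absNorm_bot] at hN
    exact pow_ne_zero 2 hp.ne_zero hN.symm
  have h1 : ¬ IsUnit (span {(p : QuadraticAlgebra ℤ a b)}) := fun h => by
    rw [isUnit_iff.1 h, absNorm_top] at hN
    exact (Nat.one_lt_pow two_ne_zero hp.one_lt).ne hN
  obtain ⟨q, hq, J, hJ⟩ := WfDvdMonoid.exists_irreducible_factor h1 h0
  have hq' : Prime q := hq.prime
  have h2 : absNorm q * absNorm J = p ^ 2 := by rw [← map_mul, ← hJ, hN]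
  obtain ⟨i, hi, h3⟩ := (Nat.dvd_prime_pow hp).1 (Dvd.intro _ h2)
  interval_cases i
  · exact absurd (isUnit_iff.2 (absNorm_eq_one_iff.1 (by simpa using h3))) hq'.not_isUnit
  · exact Or.inr ⟨q, hq', by rw [mul_cj hq'.ne_zero, h3, pow_one]⟩
  · rw [h3] at h2
    have h4 : absNorm J = 1 := by
      have := pow_pos hp.pos 2
      nlinarith
    rw [absNorm_eq_one_iff.1 h4, mul_top] at hJ
    exact Or.inl (hJ ▸ hq')

lemma prim_lemma [Finite (ClassGroup (QuadraticAlgebra ℤ a b))] {p : ℕ} (hp : p.Prime)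
    {A B : Ideal (QuadraticAlgebra ℤ a b)}
    (h1 : span {(p : QuadraticAlgebra ℤ a b)} ∣ A ^ 2 * cj B)
    (h2 : span {(p : QuadraticAlgebra ℤ a b)} ^ 2 ∣ A * B ^ 2) :
    span {(p : QuadraticAlgebra ℤ a b)} ∣ A ∨ span {(p : QuadraticAlgebra ℤ a b)} ∣ B := by
  have h3 := (dvd_pow_self _ two_ne_zero).trans h2
  rcases prime_cases (a := a) (b := b) hp with h | ⟨q, hq, h⟩
  · exact (h.dvd_or_dvd h3).imp id h.dvd_of_dvd_pow
  have hq' := cj_prime hq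
  rw [h] at h1 h2 h3 ⊢
  by_cases he : q ∣ cj q
  · have e : cj q = q := (associated_iff_eq.1 (hq.associated_of_dvd hq' he)).symm
    rw [e] at h2 ⊢
    by_cases hB : q ∣ B
    · obtain ⟨B₀, rfl⟩ := hB
      by_cases hB' : q ∣ B₀
      · exact Or.inr (mul_dvd_mul_left q hB')
      · left
        have h4 : q ^ 2 * q ^ 2 ∣ q ^ 2 * (A * B₀ ^ 2) := by
          convert h2 using 1 <;> ring
        rw [← pow_two]
        exact hq.pow_dvd_of_dvd_mul_right 2 (fun h => hB' (hq.dvd_of_dvd_pow h))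
          ((mul_dvd_mul_iff_left (pow_ne_zero 2 hq.ne_zero)).1 h4)
    · left
      rw [← pow_two]
      exact hq.pow_dvd_of_dvd_mul_right 2 (fun h => hB (hq.dvd_of_dvd_pow h)) (pow_two q ▸ e ▸ h3)
  · have both : ∀ X, q ∣ X → cj q ∣ X → q * cj q ∣ X := by
      rintro _ h4 ⟨X, rfl⟩
      rw [mul_comm q]
      exact mul_dvd_mul_left _ ((hq.dvd_or_dvd h4).resolve_left he)
    have u1 := (hq.dvd_or_dvd ((dvd_mul_right _ _).trans h1)).imp hq.dvd_of_dvd_pow cj_dvd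
    have u2 := (hq'.dvd_or_dvd ((dvd_mul_left _ _).trans h1)).imp hq'.dvd_of_dvd_pow cj_dvd
    have u3 := (hq.dvd_or_dvd ((dvd_mul_right _ _).trans h3)).imp id hq.dvd_of_dvd_pow
    have u4 := (hq'.dvd_or_dvd ((dvd_mul_left _ _).trans h3)).imp id hq'.dvd_of_dvd_pow
    rw [cj_cj] at u1 u2
    rw [cj_cj] at u2
    by_cases v1 : q ∣ A
    · by_cases v2 : cj q ∣ A
      · exact Or.inl (both _ v1 v2)
      · exact Or.inr (both _ (u2.resolve_left v2) (u4.resolve_left v2))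
    · exact Or.inr (both _ (u3.resolve_left v1) (u1.resolve_left v1))

omit [IsDedekindDomain (QuadraticAlgebra ℤ a b)] in
lemma dvd_of_im {p : ℕ} (hp : p.Prime) {β : QuadraticAlgebra ℤ a b} (h1 : (p : ℤ) ∣ β.im)
    (h2 : (p : ℤ) ∣ β.norm) : (p : QuadraticAlgebra ℤ a b) ∣ β := by
  have hpz : Prime (p : ℤ) := Nat.prime_iff_prime_int.1 hp
  obtain ⟨s, hs⟩ := h1
  obtain ⟨t, ht⟩ := h2
  rw [norm_def] at ht
  obtain ⟨u, hu⟩ : (p : ℤ) ∣ β.re := hpz.dvd_of_dvd_pow (n := 2)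
    ⟨t - b * β.re * s + a * s * β.im, by linear_combination ht - (b * β.re - a * β.im) * hs⟩
  exact ⟨⟨u, s⟩, by ext <;> simp [hu, hs]⟩

omit [IsDedekindDomain (QuadraticAlgebra ℤ a b)] in
lemma sq_dvd_of_im {p : ℕ} (hp : p.Prime) {β : QuadraticAlgebra ℤ a b} (h1 : (p : ℤ) ^ 2 ∣ β.im)
    (h2 : (p : ℤ) ^ 3 ∣ β.norm) : (p : QuadraticAlgebra ℤ a b) ^ 2 ∣ β := by
  have p0 : (p : ℤ) ≠ 0 := by exact_mod_cast hp.ne_zero
  obtain ⟨γ, rfl⟩ := dvd_of_im hp ((dvd_pow_self _ two_ne_zero).trans h1)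
    ((dvd_pow_self _ three_ne_zero).trans h2)
  rw [pow_two]
  refine mul_dvd_mul_left _ (dvd_of_im hp ?_ ?_)
  · have : ((p : QuadraticAlgebra ℤ a b) * γ).im = p * γ.im := by simp
    rw [this, pow_two] at h1
    exact (mul_dvd_mul_iff_left p0).1 h1
  · rw [map_mul, QuadraticAlgebra.norm_natCast, pow_succ] at h2
    exact (mul_dvd_mul_iff_left (pow_ne_zero 2 p0)).1 h2

omit [IsDedekindDomain (QuadraticAlgebra ℤ a b)] in
lemma dvd_im_mul {m : ℤ} {β γ : QuadraticAlgebra ℤ a b} (h1 : m ∣ β.im) (h2 : m ∣ γ.im) :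
    m ∣ (β * γ).im := by
  rw [im_mul]
  exact dvd_add (dvd_add (h2.mul_left _) (h1.mul_right _)) (h2.mul_left _)

/-- the local analysis: if `p G` divides the first four coordinates, it divides the fifth -/
lemma half [Finite (ClassGroup (QuadraticAlgebra ℤ a b))] {p : ℕ} (hp : p.Prime)
    {A B : Ideal (QuadraticAlgebra ℤ a b)} {β₁ β₂ α : QuadraticAlgebra ℤ a b} {w x G n s r v : ℤ}
    (hA : ¬ span {(p : QuadraticAlgebra ℤ a b)} ∣ A) (hB : ¬ span {(p : QuadraticAlgebra ℤ a b)} ∣ B)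
    (e1 : span {β₁} = A ^ 2 * cj B) (e2 : span {β₂} = A * B ^ 2)
    (hw : (w : QuadraticAlgebra ℤ a b) ∈ A) (n1 : β₁.norm = w ^ 2 * x) (n2 : β₂.norm = w * x ^ 2)
    (e3 : (x : QuadraticAlgebra ℤ a b) ^ 2 * α = β₁ ^ 2 * β₂) (G0 : G ≠ 0)
    (i1 : β₁.im = G * n) (i2 : β₂.im = G * s) (i3 : α.im = G * v) (I1 : s * v = r ^ 2 - w * n ^ 2)
    (dn : (p : ℤ) ∣ n) (ds : (p : ℤ) ∣ s) : (p : ℤ) ∣ v := by
  have hpz : Prime (p : ℤ) := Nat.prime_iff_prime_int.1 hp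
  by_contra hv
  have dr : (p : ℤ) ∣ r := hpz.dvd_of_dvd_pow (n := 2) (by
    rw [show r ^ 2 = s * v + w * n * n by linear_combination -I1]
    exact dvd_add (ds.mul_right _) (dn.mul_left _))
  have ds2 : (p : ℤ) ^ 2 ∣ s := hpz.pow_dvd_of_dvd_mul_right 2 hv (by
    rw [I1]
    exact dvd_sub (pow_dvd_pow_of_dvd dr 2) ((pow_dvd_pow_of_dvd dn 2).mul_left _))
  have dx : (p : ℤ) ∣ x := by
    have h1 : G * p ∣ β₁.im := i1 ▸ mul_dvd_mul_left G dn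
    have h2 : G * p ∣ β₂.im := i2 ▸ mul_dvd_mul_left G ds
    have h3 := dvd_im_mul (dvd_im_mul h1 h1) h2
    have h4 : ((x : QuadraticAlgebra ℤ a b) ^ 2 * α).im = G * (x ^ 2 * v) := by
      rw [← Int.cast_pow, im_mul, i3]; simp only [re_intCast, im_intCast]; push_cast; ring
    rw [← pow_two, ← e3, h4] at h3
    exact hpz.dvd_of_dvd_pow ((hpz.dvd_or_dvd ((mul_dvd_mul_iff_left G0).1 h3)).resolve_right hv)
  have d1 : span {(p : QuadraticAlgebra ℤ a b)} ∣ A ^ 2 * cj B := by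
    rw [← e1, dvd_iff_le, span_singleton_le_span_singleton]
    exact dvd_of_im hp (i1 ▸ dn.mul_left G) (n1 ▸ dx.mul_left _)
  by_cases dw : (p : ℤ) ∣ w
  · refine (prim_lemma hp d1 ?_).elim hA hB
    rw [← e2, span_singleton_pow, dvd_iff_le, span_singleton_le_span_singleton]
    refine sq_dvd_of_im hp (i2 ▸ ds2.mul_left G) ?_
    rw [n2, pow_succ']
    exact mul_dvd_mul dw (pow_dvd_pow_of_dvd dx 2)
  · obtain ⟨u, u', huv⟩ := (Prime.coprime_iff_not_dvd hpz).2 dw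
    have hco : IsCoprime (span {(p : QuadraticAlgebra ℤ a b)}) A := by
      refine isCoprime_iff_exists.2 ⟨(u : ℤ) * p, mul_mem_left _ _ (mem_span_singleton_self _),
        (u' : ℤ) * w, mul_mem_left _ _ hw, ?_⟩
      exact_mod_cast congrArg (Int.cast : ℤ → QuadraticAlgebra ℤ a b) huv
    have := cj_dvd ((hco.pow_right (n := 2)).dvd_of_dvd_mul_left d1)
    rw [cj_cj, cj_nat] at this
    exact hB this

end

section

/-- the six irrational parts and the two norms attached to a pair of ideals -/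
def Sys (δ a₁ a₂ b₁ b₂ : ℂ) (n s r y v u w x : ℤ) : Prop :=
  δ * n = a₁ ^ 2 * b₂ - a₂ ^ 2 * b₁ ∧ δ * s = a₁ * b₁ ^ 2 - a₂ * b₂ ^ 2 ∧
    δ * r = a₁ ^ 3 * b₁ - a₂ ^ 3 * b₂ ∧ δ * y = a₂ * b₁ ^ 3 - a₁ * b₂ ^ 3 ∧
    δ * v = a₁ ^ 5 - a₂ ^ 5 ∧ δ * u = b₁ ^ 5 - b₂ ^ 5 ∧ a₁ * a₂ = w ∧ b₁ * b₂ = x

/-- relations which recover `w` and `D` from the tuple -/
def Rel (z : ℤ × ℤ × ℤ × ℤ × ℤ) (w D : ℤ) : Prop :=
  ∃ x : ℤ, w ≠ 0 ∧ x ≠ 0 ∧ z.2.1 * z.2.2.2.2 = z.2.2.1 ^ 2 - w * z.1 ^ 2 ∧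
    z.2.2.1 * z.2.2.2.1 = w * z.2.1 ^ 2 - x * z.1 ^ 2 ∧
    D * z.2.1 ^ 2 * z.1 ^ 2 = (x * z.2.2.1 - w * z.2.2.2.1) ^ 2 - 4 * w * x ^ 2 * z.1 ^ 2 ∧
    (z.2.1 = 0 → x ^ 2 * z.2.2.2.2 ^ 2 = w * z.1 ^ 2 * (D * z.1 ^ 2 + 4 * w ^ 2 * x))

lemma Rel.unique {z : ℤ × ℤ × ℤ × ℤ × ℤ} {w D w' D' : ℤ} (hn : z.1 ≠ 0) (h : Rel z w D)
    (h' : Rel z w' D') : w = w' ∧ D = D' := by
  obtain ⟨n, s, r, y, v⟩ := z
  obtain ⟨x, w0, -, h1, h2, h3, h4⟩ := h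
  obtain ⟨x', -, -, h1', h2', h3', h4'⟩ := h'
  simp only at *
  have n2 := pow_ne_zero 2 hn
  obtain rfl : w = w' := mul_right_cancel₀ n2 (by linear_combination h1 - h1')
  obtain rfl : x = x' := mul_right_cancel₀ n2 (by linear_combination h2 - h2')
  refine ⟨rfl, ?_⟩
  rcases eq_or_ne s 0 with hs | hs
  · exact mul_right_cancel₀ (mul_ne_zero w0 (mul_ne_zero n2 n2))
      (by linear_combination h4' hs - h4 hs)
  · exact mul_right_cancel₀ (mul_ne_zero (pow_ne_zero 2 hs) n2) (by linear_combination h3 - h3')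

variable {δ a₁ a₂ b₁ b₂ : ℂ} {n s r y v u w x : ℤ}

lemma Sys.swap (h : Sys δ a₁ a₂ b₁ b₂ n s r y v u w x) :
    Sys δ b₁ b₂ a₂ a₁ s (-n) y (-r) u (-v) x w := by
  obtain ⟨h1, h2, h3, h4, h5, h6, h7, h8⟩ := h
  refine ⟨?_, ?_, ?_, ?_, ?_, ?_, ?_, ?_⟩ <;> push_cast
  · linear_combination h2
  · linear_combination -h1
  · linear_combination h4
  · linear_combination -h3
  · exact h6
  · linear_combination -h5
  · exact h8
  · linear_combination h7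

lemma Sys.neg (h : Sys δ a₁ a₂ b₁ b₂ n s r y v u w x) :
    Sys δ a₁ a₂ (-b₁) (-b₂) (-n) s (-r) (-y) v (-u) w x := by
  obtain ⟨h1, h2, h3, h4, h5, h6, h7, h8⟩ := h
  refine ⟨?_, ?_, ?_, ?_, ?_, ?_, ?_, ?_⟩ <;> push_cast
  · linear_combination -h1
  · linear_combination h2
  · linear_combination -h3
  · linear_combination -h4
  · exact h5
  · linear_combination -h6
  · exact h7
  · linear_combination h8

lemma Sys.div {G : ℤ} (h : Sys δ a₁ a₂ b₁ b₂ (G * n) (G * s) (G * r) (G * y) (G * v) (G * u) w x) :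
    Sys (δ * G) a₁ a₂ b₁ b₂ n s r y v u w x := by
  simpa only [Sys, Int.cast_mul, mul_assoc] using h

lemma Sys.I1 (h : Sys δ a₁ a₂ b₁ b₂ n s r y v u w x) (h0 : δ ≠ 0) : s * v = r ^ 2 - w * n ^ 2 := by
  obtain ⟨h1, h2, h3, h4, h5, h6, h7, h8⟩ := h
  have : (δ * s) * (δ * v) = (δ * r) ^ 2 - w * (δ * n) ^ 2 := by rw [h1, h2, h3, h5, ← h7]; ring
  have : (s : ℂ) * v = r ^ 2 - w * n ^ 2 :=
    mul_left_cancel₀ (pow_ne_zero 2 h0) (by linear_combination this)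
  exact_mod_cast this

lemma Sys.I2 (h : Sys δ a₁ a₂ b₁ b₂ n s r y v u w x) (h0 : δ ≠ 0) :
    r * y = w * s ^ 2 - x * n ^ 2 := by
  obtain ⟨h1, h2, h3, h4, h5, h6, h7, h8⟩ := h
  have : (δ * r) * (δ * y) = w * (δ * s) ^ 2 - x * (δ * n) ^ 2 := by
    rw [h1, h2, h3, h4, ← h7, ← h8]; ring
  have : (r : ℂ) * y = w * s ^ 2 - x * n ^ 2 :=
    mul_left_cancel₀ (pow_ne_zero 2 h0) (by linear_combination this)
  exact_mod_cast this

lemma Sys.rel (h : Sys δ a₁ a₂ b₁ b₂ n s r y v u w x) (h0 : δ ≠ 0) {D : ℤ} (hD : δ * δ = D)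
    (w0 : w ≠ 0) (x0 : x ≠ 0) : Rel (n, s, r, y, v) w D := by
  refine ⟨x, w0, x0, h.I1 h0, h.I2 h0, ?_, fun hs => ?_⟩
  · obtain ⟨h1, h2, h3, h4, h5, h6, h7, h8⟩ := h
    have : (δ * s) ^ 2 * (δ * n) ^ 2 = (x * (δ * r) - w * (δ * y)) ^ 2 - 4 * w * x ^ 2 * (δ * n) ^ 2 := by
      rw [h1, h2, h3, h4, ← h7, ← h8]; ring
    have : (D : ℂ) * s ^ 2 * n ^ 2 = (x * r - w * y) ^ 2 - 4 * w * x ^ 2 * n ^ 2 :=
      mul_left_cancel₀ (pow_ne_zero 2 h0) (by rw [← hD]; linear_combination this)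
    exact_mod_cast this
  · obtain ⟨h1, h2, h3, h4, h5, h6, h7, h8⟩ := h
    have hs' : s = 0 := hs
    rw [hs', Int.cast_zero, mul_zero] at h2
    have e1 : (x : ℂ) ^ 2 * (δ * v) = a₁ * b₁ ^ 2 * (δ * n) * (a₁ ^ 2 * b₂ + a₂ ^ 2 * b₁) := by
      rw [h1, h5, ← h8]; linear_combination (-(a₂ ^ 4 * b₁ ^ 2)) * h2
    have e2 : (a₁ * b₁ ^ 2) ^ 2 = w * x ^ 2 := by
      rw [← h7, ← h8]; linear_combination (-(a₁ * b₁ ^ 2)) * h2
    have e3 : (a₁ ^ 2 * b₂ + a₂ ^ 2 * b₁) ^ 2 = (δ * n) ^ 2 + 4 * w ^ 2 * x := by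
      rw [h1, ← h7, ← h8]; ring
    have e4 : ((x : ℂ) ^ 2 * (δ * v)) ^ 2 = w * x ^ 2 * (δ * n) ^ 2 * ((δ * n) ^ 2 + 4 * w ^ 2 * x) := by
      rw [e1, mul_pow, mul_pow (a₁ * b₁ ^ 2), e2, e3]
    have x0' : (x : ℂ) ≠ 0 := by exact_mod_cast x0
    have : (x : ℂ) ^ 2 * v ^ 2 = w * n ^ 2 * (D * n ^ 2 + 4 * w ^ 2 * x) :=
      mul_left_cancel₀ (mul_ne_zero (pow_ne_zero 2 h0) (pow_ne_zero 2 x0'))
        (by rw [← hD]; linear_combination e4)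
    exact_mod_cast this

lemma norm_lin {p q c : ℂ} {k l m : ℤ} {P Q : ℝ} (h : c * k = p * l + q * m) (hp : ‖p‖ ≤ P)
    (hq : ‖q‖ ≤ Q) : ‖c‖ * |(k : ℝ)| ≤ P * |(l : ℝ)| + Q * |(m : ℝ)| := by
  rw [← Complex.norm_intCast, ← norm_mul, h]
  refine (norm_add_le _ _).trans ?_
  rw [norm_mul, norm_mul, Complex.norm_intCast, Complex.norm_intCast]
  gcongr

lemma Sys.good (h : Sys δ a₁ a₂ b₁ b₂ n s r y v u w x) {Δ M : ℝ} (h1 : 1 ≤ Δ) (hδ : Δ ≤ ‖δ‖)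
    (w0 : w ≠ 0) (x0 : x ≠ 0) (n0 : 0 < n) (hc : Int.gcd n s = 1) {A B : ℝ}
    (hA : A = max ‖a₁‖ ‖a₂‖) (hB : B = max ‖b₁‖ ‖b₂‖) (hA' : A ≤ 3 * √Δ) (hB' : B ≤ 3 * √Δ)
    (hM : 3 * √Δ ≤ M) (hs : |(s : ℝ)| * A ≤ n * B) : Good M (n, s, r, y, v) := by
  have h0 : δ ≠ 0 := norm_pos_iff.1 (by linarith)
  have j1 := h.I1 h0
  have j2 := h.I2 h0
  have j3 := h.swap.I1 h0
  obtain ⟨e1, e2, e3, e4, e5, e6, e7, e8⟩ := h
  have a1 : ‖a₁‖ ≤ A := hA ▸ le_max_left _ _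
  have a2 : ‖a₂‖ ≤ A := hA ▸ le_max_right _ _
  have b1 : ‖b₁‖ ≤ B := hB ▸ le_max_left _ _
  have b2 : ‖b₂‖ ≤ B := hB ▸ le_max_right _ _
  have one : ∀ (p q : ℂ) (m : ℤ) (P : ℝ), m ≠ 0 → p * q = m → ‖p‖ ≤ P → ‖q‖ ≤ P → 1 ≤ P :=
    fun p q m P m0 e hp hq => by
      have t1 : (1 : ℝ) ≤ |(m : ℝ)| := by exact_mod_cast Int.one_le_abs m0
      rw [← Complex.norm_intCast, ← e, norm_mul] at t1
      have t2 := mul_le_mul hp hq (norm_nonneg _) ((norm_nonneg _).trans hp)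
      nlinarith [norm_nonneg p]
  have A1 := one _ _ _ _ w0 e7 a1 a2
  have B1 := one _ _ _ _ x0 e8 b1 b2
  have n0' : (0 : ℝ) < n := by exact_mod_cast n0
  have an : |(n : ℝ)| = n := abs_of_pos n0'
  have lin : ∀ (c p q : ℂ) (k l m : ℤ) (P Q : ℝ), c * (δ * k) = p * (δ * l) + q * (δ * m) →
      ‖p‖ ≤ P → ‖q‖ ≤ Q → ‖c‖ * |(k : ℝ)| ≤ P * |(l : ℝ)| + Q * |(m : ℝ)| :=
    fun c p q k l m P Q e hp hq =>
      norm_lin (mul_left_cancel₀ h0 (by linear_combination e)) hp hq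
  have mx : ∀ (p q : ℂ) (k T : ℝ), 0 ≤ k → ‖p‖ * k ≤ T → ‖q‖ * k ≤ T → max ‖p‖ ‖q‖ * k ≤ T :=
    fun p q k T k0 hp hq => by rw [max_mul_of_nonneg _ _ k0]; exact max_le hp hq
  have pw : ∀ (p : ℂ) (P : ℝ) (i : ℕ), ‖p‖ ≤ P → ‖p ^ i‖ ≤ P ^ i := fun p P i hp => by
    rw [norm_pow]; gcongr
  have ml : ∀ p q : ℂ, ‖p‖ ≤ A → ‖q‖ ≤ B → ‖p * q‖ ≤ A * B := fun p q hp hq => by
    rw [norm_mul]; gcongr
  have r1 := mx _ _ _ _ (abs_nonneg _)
    (lin b₁ (a₁ ^ 2) (a₂ * b₂) r s n _ _ (by rw [e1, e2, e3]; ring) (pw _ _ 2 a1) (ml _ _ a2 b2))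
    (lin b₂ (a₂ ^ 2) (a₁ * b₁) r s n _ _ (by rw [e1, e2, e3]; ring) (pw _ _ 2 a2) (ml _ _ a1 b1))
  have r2 := mx _ _ _ _ (abs_nonneg _)
    (lin a₁ (-b₂ ^ 2) (a₂ * b₁) y n s _ _ (by rw [e1, e2, e4]; ring)
      ((norm_neg _).trans_le (pw _ _ 2 b2)) (ml _ _ a2 b1))
    (lin a₂ (-b₁ ^ 2) (a₁ * b₂) y n s _ _ (by rw [e1, e2, e4]; ring)
      ((norm_neg _).trans_le (pw _ _ 2 b1)) (ml _ _ a1 b2))
  have r3 := mx _ _ _ _ (abs_nonneg _)
    (lin b₁ (a₁ ^ 2) (a₂ ^ 3) v r n _ _ (by rw [e1, e3, e5]; ring) (pw _ _ 2 a1) (pw _ _ 3 a2))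
    (lin b₂ (a₂ ^ 2) (a₁ ^ 3) v r n _ _ (by rw [e1, e3, e5]; ring) (pw _ _ 2 a2) (pw _ _ 3 a1))
  rw [← hB, an] at r1 r3
  rw [← hA, an] at r2
  have r4 : Δ * n ≤ 2 * A ^ 2 * B := by
    have t1 : ‖δ * n‖ ≤ A ^ 2 * B + A ^ 2 * B := by
      rw [e1]
      refine (norm_sub_le _ _).trans ?_
      rw [norm_mul, norm_mul, norm_pow, norm_pow]
      gcongr
    rw [norm_mul, Complex.norm_intCast, an] at t1
    linarith [mul_le_mul_of_nonneg_right hδ n0'.le]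
  have s2 : √Δ ^ 2 = Δ := Real.sq_sqrt (by linarith)
  have A2 : A ^ 2 ≤ 9 * Δ := by
    have := pow_le_pow_left₀ (by linarith) hA' 2
    rw [mul_pow, s2] at this
    linarith
  have B2 : B ^ 2 ≤ 9 * Δ := by
    have := pow_le_pow_left₀ (by linarith) hB' 2
    rw [mul_pow, s2] at this
    linarith
  have r5 : |(r : ℝ)| ≤ 2 * n * A := le_of_mul_le_mul_left (a := B)
    (by linarith [mul_le_mul_of_nonneg_left hs (show 0 ≤ A by linarith)]) (by linarith)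
  refine ⟨n0, hc, ⟨u, ?_⟩, A, B, A1, B1, hA'.trans hM, hB'.trans hM, hs, r5, ?_, ?_, ?_, ?_⟩
  · simp only [Qf]
    linear_combination (-s ^ 4) * j1 - s ^ 2 * n ^ 2 * j2 + n ^ 4 * j3
  · simp only
    linarith [mul_le_mul_of_nonneg_left hs (show 0 ≤ B by linarith)]
  · simp only
    linarith [mul_le_mul_of_nonneg_left r5 (sq_nonneg A)]
  · simp only
    exact le_of_mul_le_mul_left (a := Δ)
      (by linarith [mul_le_mul_of_nonneg_right A2 (show 0 ≤ B by linarith)]) (by linarith)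
  · simp only
    refine le_of_mul_le_mul_left (a := Δ) ?_ (by linarith)
    linarith [mul_le_mul_of_nonneg_right r4 (show 0 ≤ B by linarith),
      mul_le_mul_of_nonneg_left B2 (sq_nonneg A)]

lemma Sys.good' (h : Sys δ a₁ a₂ b₁ b₂ n s r y v u w x) {Δ M : ℝ} (h1 : 1 ≤ Δ) (hδ : Δ ≤ ‖δ‖)
    {D : ℤ} (hD : δ * δ = D) (w0 : w ≠ 0) (x0 : x ≠ 0) (hc : Int.gcd n s = 1)
    (hA : max ‖a₁‖ ‖a₂‖ ≤ 3 * √Δ) (hB : max ‖b₁‖ ‖b₂‖ ≤ 3 * √Δ) (hM : 3 * √Δ ≤ M)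
    (hs : |(s : ℝ)| * max ‖a₁‖ ‖a₂‖ ≤ |(n : ℝ)| * max ‖b₁‖ ‖b₂‖) :
    ∃ z : ℤ × ℤ × ℤ × ℤ × ℤ, Good M z ∧ Rel z w D ∧ z.2.2.2.2 = v := by
  have h0 : δ ≠ 0 := norm_pos_iff.1 (by linarith)
  rcases lt_trichotomy n 0 with hn | hn | hn
  · refine ⟨_, h.neg.good h1 hδ w0 x0 (by linarith) (by simpa using hc) rfl rfl hA
      (by simpa using hB) hM ?_, h.neg.rel h0 hD w0 x0, rfl⟩
    rw [abs_of_neg (show (n : ℝ) < 0 by exact_mod_cast hn)] at hs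
    simpa using hs
  · exfalso
    subst hn
    have hs1 : |(s : ℝ)| = 1 := by
      rw [Int.gcd_zero_left] at hc
      rw [← Int.cast_abs, ← Int.natCast_natAbs, hc]; simp
    rw [hs1, Int.cast_zero, abs_zero, zero_mul, one_mul] at hs
    have : a₁ = 0 := norm_le_zero_iff.1 ((le_max_left _ _).trans hs)
    have e := h.2.2.2.2.2.2.1
    rw [this, zero_mul] at e
    exact w0 (by exact_mod_cast e.symm)
  · refine ⟨_, h.good h1 hδ w0 x0 hn hc rfl rfl hA hB hM ?_, h.rel h0 hD w0 x0, rfl⟩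
    rwa [abs_of_pos (show (0 : ℝ) < n by exact_mod_cast hn)] at hs

lemma Sys.side (h : Sys δ a₁ a₂ b₁ b₂ n s r y v u w x) {Δ M : ℝ} (h1 : 1 ≤ Δ) (hδ : Δ ≤ ‖δ‖)
    {D : ℤ} (hD : δ * δ = D) (w0 : w ≠ 0) (x0 : x ≠ 0) (hc : Int.gcd n s = 1)
    (hA : max ‖a₁‖ ‖a₂‖ ≤ 3 * √Δ) (hB : max ‖b₁‖ ‖b₂‖ ≤ 3 * √Δ) (hM : 3 * √Δ ≤ M) :
    ∃ z : ℤ × ℤ × ℤ × ℤ × ℤ, Good M z ∧
      (Rel z w D ∧ z.2.2.2.2 = v ∨ Rel z x D ∧ z.2.2.2.2 = u) := by
  rcases le_total (|(s : ℝ)| * max ‖a₁‖ ‖a₂‖) (|(n : ℝ)| * max ‖b₁‖ ‖b₂‖) with hs | hs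
  · obtain ⟨z, z1, z2⟩ := h.good' h1 hδ hD w0 x0 hc hA hB hM hs
    exact ⟨z, z1, Or.inl z2⟩
  · obtain ⟨z, z1, z2⟩ := h.swap.good' h1 hδ hD x0 w0 (by rw [Int.gcd_neg, Int.gcd_comm, hc]) hB
      (by rwa [max_comm]) hM (by rwa [Int.cast_neg, abs_neg, max_comm ‖a₂‖])
    exact ⟨z, z1, Or.inr z2⟩

end

section

open Finset

open QuadraticAlgebra Ideal H72 in
lemma t10_real {a b : ℤ} [IsDedekindDomain (QuadraticAlgebra ℤ a b)] {I : Ideal (QuadraticAlgebra ℤ a b)}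
    (hI : I ≠ ⊥) (w : ℝ) {X : ℝ} (hX : 0 < X) :
    ∃ α ∈ I, α ≠ 0 ∧ |(α.re : ℝ) + α.im * w| ≤ X ∧ |(α.im : ℝ)| ≤ 2 * absNorm I / X := by
  classical
  have hN : absNorm I ≠ 0 := fun h => hI (absNorm_eq_zero_iff.1 h)
  have hfin : Finite (QuadraticAlgebra ℤ a b ⧸ I) := (absNorm_ne_zero_iff I).1 hN
  let _ : Fintype (QuadraticAlgebra ℤ a b ⧸ I) := Fintype.ofFinite _
  have hc : Fintype.card (QuadraticAlgebra ℤ a b ⧸ I) = absNorm I := by
    rw [absNorm_apply, Submodule.cardQuot_apply, Nat.card_eq_fintype_card]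
  set n : ℝ := ((absNorm I : ℕ) : ℝ) with hn
  have n0 : 0 < n := by rw [hn]; exact_mod_cast Nat.pos_of_ne_zero hN
  set L := ⌈X⌉₊ with hL
  have L1 : X ≤ L := Nat.le_ceil X
  set K := ⌊2 * n / X⌋₊ with hK
  have K1 : (K : ℝ) ≤ 2 * n / X := Nat.floor_le (by positivity)
  have K2 : 2 * n / X < K + 1 := Nat.lt_floor_add_one _
  let z : ℕ × ℕ → QuadraticAlgebra ℤ a b := fun y => ⟨y.2 - ⌊y.1 * w⌋, y.1⟩
  let ζ : ℕ × ℕ → ℝ := fun y => y.2 + Int.fract (y.1 * w)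
  have ζ0 : ∀ y, 0 ≤ ζ y := fun y => add_nonneg (Nat.cast_nonneg _) (Int.fract_nonneg _)
  obtain ⟨y, hy, y', hy', hne, he⟩ := exists_ne_map_eq_of_card_lt_of_maps_to
    (s := range (K + 1) ×ˢ range L) (t := univ ×ˢ range (⌊L / X⌋₊ + 1))
    (f := fun y => (Ideal.Quotient.mk I (z y), ⌊ζ y / X⌋₊)) (by
      rw [card_product, card_product, card_range, card_range, card_range, card_univ, hc]
      have h1 : (⌊L / X⌋₊ : ℝ) ≤ L / X := Nat.floor_le (by positivity)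
      have h2 : 1 ≤ L / X := (one_le_div hX).2 L1
      have h3 : n * (⌊L / X⌋₊ + 1) < (K + 1) * L := by
        calc _ ≤ n * (2 * (L / X)) := by gcongr; linarith
          _ = 2 * n / X * L := by ring
          _ < _ := by gcongr
      rw [hn] at h3
      exact_mod_cast h3) (fun y hy => by
      simp only [coe_product, coe_univ, coe_range, Set.mem_prod, Set.mem_univ, true_and,
        Set.mem_Iio] at hy ⊢
      refine Nat.lt_succ_of_le (Nat.floor_le_floor ?_)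
      have h1 : (y.2 : ℝ) + 1 ≤ L := by exact_mod_cast hy.2
      have h2 := Int.fract_lt_one (y.1 * w)
      gcongr
      simp only [ζ]; linarith)
  simp only [mem_product, mem_range, Nat.lt_succ_iff, Prod.mk.injEq] at hy hy' he
  refine ⟨z y - z y', Ideal.Quotient.eq.1 he.1, fun h => hne ?_, ?_, ?_⟩
  · have h2 := congrArg QuadraticAlgebra.im h
    have h3 := congrArg QuadraticAlgebra.re h
    simp only [im_sub, re_sub, z, im_zero, re_zero] at h2 h3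
    have h4 : y.1 = y'.1 := by omega
    rw [h4] at h3
    exact Prod.ext h4 (by omega)
  · have e : ((z y - z y').re : ℝ) + (z y - z y').im * w = ζ y - ζ y' := by
      simp only [z, ζ, re_sub, im_sub, Int.fract]; push_cast; ring
    have p1 := Nat.floor_le (div_nonneg (ζ0 y) hX.le)
    have p2 := Nat.floor_le (div_nonneg (ζ0 y') hX.le)
    have p3 := Nat.lt_floor_add_one (ζ y / X)
    have p4 := Nat.lt_floor_add_one (ζ y' / X)
    rw [he.2] at p1 p3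
    rw [le_div_iff₀ hX] at p1 p2
    rw [div_lt_iff₀ hX] at p3 p4
    rw [e, abs_le]
    constructor <;> linarith
  · have q1 : (y.1 : ℝ) ≤ K := by exact_mod_cast hy.1
    have q2 : (y'.1 : ℝ) ≤ K := by exact_mod_cast hy'.1
    simp only [z, im_sub]
    push_cast
    rw [abs_le]
    constructor <;> linarith [Nat.cast_nonneg (α := ℝ) y.1, Nat.cast_nonneg (α := ℝ) y'.1]

open QuadraticAlgebra Ideal H72 in
lemma t10_skew {a b : ℤ} [IsDedekindDomain (QuadraticAlgebra ℤ a b)] {Δ : ℝ} (h1 : 1 ≤ Δ) {δ : ℝ}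
    (hδ : |δ| = Δ) {I : Ideal (QuadraticAlgebra ℤ a b)} (hI : I ≠ ⊥) {t₁ t₂ : ℝ} (p₂ : 0 < t₂)
    (ht : t₁ * t₂ = absNorm I) (h : t₂ ≤ t₁) :
    ∃ α ∈ I, α ≠ 0 ∧ ‖ec ((b + δ) / 2) α‖ ≤ 3 * √Δ * t₁ ∧ ‖ec ((b - δ) / 2) α‖ ≤ 3 * √Δ * t₂ := by
  have s0 : 0 < √Δ := Real.sqrt_pos.2 (by linarith)
  have s2 : √Δ * √Δ = Δ := Real.mul_self_sqrt (by linarith)
  obtain ⟨α, m, z, u1, u2⟩ := t10_real hI ((b - δ) / 2) (X := √Δ * t₂) (by positivity)
  have e2 : ec ((b - δ) / 2) α = (((α.re : ℝ) + α.im * ((b - δ) / 2) : ℝ) : ℂ) := by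
    simp only [ec]; push_cast; ring
  have e1 : ec ((b + δ) / 2) α = (((α.re : ℝ) + α.im * ((b - δ) / 2) + α.im * δ : ℝ) : ℂ) := by
    simp only [ec]; push_cast; ring
  refine ⟨α, m, z, ?_, ?_⟩
  · rw [e1, Complex.norm_real, Real.norm_eq_abs]
    refine (abs_add_le _ _).trans ?_
    rw [abs_mul, hδ]
    have u3 : |(α.im : ℝ)| * Δ ≤ 2 * √Δ * t₁ := by
      refine (mul_le_mul_of_nonneg_right u2 (by linarith)).trans (le_of_eq ?_)
      rw [← ht]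
      field_simp
      rw [pow_two, s2]
    nlinarith [mul_le_mul_of_nonneg_left h s0.le]
  · rw [e2, Complex.norm_real, Real.norm_eq_abs]
    nlinarith [mul_pos s0 p₂]

open QuadraticAlgebra Ideal H72 in
theorem exists_prim {a b : ℤ} [IsDedekindDomain (QuadraticAlgebra ℤ a b)] (hb : |b| ≤ 1) {Δ : ℝ}
    (h1 : 1 ≤ Δ) (hΔ : Δ ^ 2 = |((b ^ 2 + 4 * a : ℤ) : ℝ)|) {δ : ℂ} (hδ : δ * δ = b ^ 2 + 4 * a)
    {I : Ideal (QuadraticAlgebra ℤ a b)} (hI : I ≠ ⊥) {t₁ t₂ : ℝ} (p₁ : 0 < t₁) (p₂ : 0 < t₂)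
    (ht : t₁ * t₂ = absNorm I) (hc : b ^ 2 + 4 * a < 0 → t₁ = t₂) :
    ∃ α ∈ I, α ≠ 0 ∧ ‖ec ((b + δ) / 2) α‖ ≤ 3 * √Δ * t₁ ∧ ‖ec ((b - δ) / 2) α‖ ≤ 3 * √Δ * t₂ ∧
      ∀ p : ℕ, p.Prime → α ∉ span {(p : QuadraticAlgebra ℤ a b)} * I := by
  classical
  have s0 : 0 < √Δ := Real.sqrt_pos.2 (by linarith)
  have s2 : √Δ ^ 2 = Δ := Real.sq_sqrt (by linarith)
  have hex : ∃ α ∈ I, α ≠ 0 ∧ ‖ec ((b + δ) / 2) α‖ ≤ 3 * √Δ * t₁ ∧
      ‖ec ((b - δ) / 2) α‖ ≤ 3 * √Δ * t₂ := by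
    rcases lt_or_ge (b ^ 2 + 4 * a) 0 with h | h
    · obtain rfl := hc h
      obtain ⟨α, m, z, u⟩ := exists_box' hb h1 hΔ hI
      rw [← ec_sz hδ, ← ht] at u
      have k : ∀ x y : ℝ, 2 * (x ^ 2 + y ^ 2) ≤ 10 * (t₁ * t₁) * Δ → x ≤ 3 * √Δ * t₁ := fun x y u =>
        le_of_sq_le_sq (by rw [mul_pow, mul_pow, s2]; nlinarith [sq_nonneg y, sq_nonneg t₁]) (by positivity)
      exact ⟨α, m, z, k _ _ u, k _ _ (by rwa [add_comm] at u)⟩
    · have h' : (0 : ℝ) ≤ ((b ^ 2 + 4 * a : ℤ) : ℝ) := by exact_mod_cast h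
      rw [abs_of_nonneg h'] at hΔ
      have e : δ ^ 2 = (Δ : ℂ) ^ 2 := by
        rw [pow_two, hδ, ← Complex.ofReal_pow, hΔ]; push_cast; ring
      obtain ⟨d, hd, rfl⟩ : ∃ d : ℝ, |d| = Δ ∧ δ = d := by
        rcases sq_eq_sq_iff_eq_or_eq_neg.1 e with h | h
        · exact ⟨Δ, abs_of_pos (by linarith), h⟩
        · exact ⟨-Δ, by rw [abs_neg, abs_of_pos (by linarith)], by rw [h]; simp⟩
      rcases le_total t₂ t₁ with h2 | h2
      · exact t10_skew h1 hd hI p₂ ht h2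
      · obtain ⟨α, m, z, u1, u2⟩ := t10_skew (δ := -d) h1 (by rwa [abs_neg]) hI p₁
          (by rwa [mul_comm]) h2
        rw [Complex.ofReal_neg, ← sub_eq_add_neg] at u1
        rw [Complex.ofReal_neg, sub_neg_eq_add] at u2
        exact ⟨α, m, z, u2, u1⟩
  have hex' : ∃ n : ℕ, ∃ α ∈ I, α ≠ 0 ∧ ‖ec ((b + δ) / 2) α‖ ≤ 3 * √Δ * t₁ ∧
      ‖ec ((b - δ) / 2) α‖ ≤ 3 * √Δ * t₂ ∧ α.re.natAbs + α.im.natAbs = n := by
    obtain ⟨α, m, z, u1, u2⟩ := hex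
    exact ⟨_, α, m, z, u1, u2, rfl⟩
  obtain ⟨α, m, z, u1, u2, hn⟩ := Nat.find_spec hex'
  refine ⟨α, m, z, u1, u2, fun p hp h => ?_⟩
  obtain ⟨β, βI, rfl⟩ := mem_span_singleton_mul.1 h
  have β0 : β ≠ 0 := right_ne_zero_of_mul z
  have k : ∀ w : ℂ, ‖ec w β‖ ≤ ‖ec w ((p : QuadraticAlgebra ℤ a b) * β)‖ := fun w => by
    have : ec w ((p : QuadraticAlgebra ℤ a b) * β) = p * ec w β := by
      simp only [ec, re_mul, im_mul, re_natCast, im_natCast]; push_cast; ring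
    rw [this, norm_mul, Complex.norm_natCast]
    exact le_mul_of_one_le_left (norm_nonneg _) (by exact_mod_cast hp.one_lt.le)
  have := Nat.find_min' hex' ⟨β, βI, β0, (k _).trans u1, (k _).trans u2, rfl⟩
  rw [← hn] at this
  simp only [re_mul, im_mul, re_natCast, im_natCast, mul_zero, zero_mul, add_zero,
    Int.natAbs_mul, Int.natAbs_natCast] at this
  have h3 : 0 < β.re.natAbs + β.im.natAbs := by
    by_contra h
    exact β0 (QuadraticAlgebra.ext (by simp; omega) (by simp; omega))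
  nlinarith [hp.two_le]

end

section

open QuadraticAlgebra Ideal H72

variable {a b : ℤ}

lemma exists_G (n s r y v u : ℤ) (h : n ≠ 0 ∨ s ≠ 0) : ∃ G n' s' r' y' v' u' : ℤ, 0 < G ∧
    n = G * n' ∧ s = G * s' ∧ r = G * r' ∧ y = G * y' ∧ v = G * v' ∧ u = G * u' ∧
    ∀ p : ℤ, p ∣ n' → p ∣ s' → p ∣ r' → p ∣ y' → p ∣ v' → p ∣ u' → p ∣ 1 := by
  set g := gcd (gcd (gcd n s) (gcd r y)) (gcd v u) with hg
  have d1 : g ∣ gcd n s := (gcd_dvd_left _ _).trans (gcd_dvd_left _ _)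
  have d2 : g ∣ gcd r y := (gcd_dvd_left _ _).trans (gcd_dvd_right _ _)
  have d3 : g ∣ gcd v u := gcd_dvd_right _ _
  obtain ⟨n', hn⟩ := (abs_dvd _ _).2 (d1.trans (gcd_dvd_left _ _))
  obtain ⟨s', hs⟩ := (abs_dvd _ _).2 (d1.trans (gcd_dvd_right _ _))
  obtain ⟨r', hr⟩ := (abs_dvd _ _).2 (d2.trans (gcd_dvd_left _ _))
  obtain ⟨y', hy⟩ := (abs_dvd _ _).2 (d2.trans (gcd_dvd_right _ _))
  obtain ⟨v', hv⟩ := (abs_dvd _ _).2 (d3.trans (gcd_dvd_left _ _))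
  obtain ⟨u', hu⟩ := (abs_dvd _ _).2 (d3.trans (gcd_dvd_right _ _))
  have g0 : |g| ≠ 0 := fun h0 => by
    rw [h0, zero_mul] at hn hs
    exact h.elim (fun h => h hn) fun h => h hs
  refine ⟨|g|, n', s', r', y', v', u', (abs_nonneg g).lt_of_ne' g0, hn, hs, hr, hy, hv, hu,
    fun p p1 p2 p3 p4 p5 p6 => ?_⟩
  have k : ∀ {z z' : ℤ}, z = |g| * z' → p ∣ z' → |g| * p ∣ z := fun e d => e ▸ mul_dvd_mul_left _ d
  have : |g| * p ∣ g := dvd_gcd (dvd_gcd (dvd_gcd (k hn p1) (k hs p2)) (dvd_gcd (k hr p3) (k hy p4)))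
    (dvd_gcd (k hv p5) (k hu p6))
  rw [← dvd_abs] at this
  exact (mul_dvd_mul_iff_left g0).1 (by rwa [mul_one])

/-- the embedding as a ring homomorphism -/
noncomputable def eh {w : ℂ} (hw : w * w = a + b * w) : QuadraticAlgebra ℤ a b →+* ℂ where
  toFun := ec w
  map_one' := by simp [ec]
  map_mul' := ec_mul hw
  map_zero' := by simp [ec]
  map_add' x y := by simp only [ec, re_add, im_add]; push_cast; ring

lemma quot {R : Type} [CommRing R] [IsDedekindDomain R] {X m : R} {K : Ideal R} (hm : m ≠ 0)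
    (h : span {X} = span {m} * K) : ∃ γ, X = m * γ ∧ span {γ} = K := by
  obtain ⟨γ, rfl⟩ : m ∣ X := by
    rw [← mem_span_singleton, ← span_singleton_le_iff_mem, h]
    exact Ideal.le_of_dvd (dvd_mul_right _ _)
  rw [← span_singleton_mul_span_singleton] at h
  exact ⟨γ, rfl, mul_left_cancel₀ (fun h => hm (span_singleton_eq_bot.1 h)) h⟩

theorem exists_sys [IsDedekindDomain (QuadraticAlgebra ℤ a b)]
    [Finite (ClassGroup (QuadraticAlgebra ℤ a b))] (hb : |b| ≤ 1) {Δ : ℝ}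
    (h1 : 1 ≤ Δ) (hΔ : Δ ^ 2 = |((b ^ 2 + 4 * a : ℤ) : ℝ)|) {δ : ℂ} (hδ : δ * δ = b ^ 2 + 4 * a)
    (c : ClassGroup (QuadraticAlgebra ℤ a b)) (hc : c ^ 5 = 1) (hc1 : c ≠ 1) :
    ∃ (a₁ a₂ b₁ b₂ : ℂ) (n s r y v u w x G : ℤ) (α α' : QuadraticAlgebra ℤ a b)
      (J J' : nonZeroDivisors (Ideal (QuadraticAlgebra ℤ a b))), 0 < G ∧
      Sys (δ * G) a₁ a₂ b₁ b₂ n s r y v u w x ∧ w ≠ 0 ∧ x ≠ 0 ∧ Int.gcd n s = 1 ∧
      max ‖a₁‖ ‖a₂‖ ≤ 3 * √Δ ∧ max ‖b₁‖ ‖b₂‖ ≤ 3 * √Δ ∧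
      (α.im = G * v ∧ α.norm = w ^ 5 ∧ span {α} = J.1 ^ 5 ∧ c = (ClassGroup.mk0 J)⁻¹) ∧
      (α'.im = G * u ∧ α'.norm = x ^ 5 ∧ span {α'} = J'.1 ^ 5 ∧ c = ClassGroup.mk0 J' ^ 2) := by
  have hD0 : b ^ 2 + 4 * a ≠ 0 := fun h => by
    rw [h, Int.cast_zero, abs_zero] at hΔ
    nlinarith
  have δ0 : δ ≠ 0 := fun h => hD0 (by
    rw [h, zero_mul] at hδ
    exact_mod_cast hδ.symm)
  have hw1 : ((b : ℂ) + δ) / 2 * ((b + δ) / 2) = a + b * ((b + δ) / 2) := by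
    linear_combination hδ / 4
  have hw2 : ((b : ℂ) - δ) / 2 * ((b - δ) / 2) = a + b * ((b - δ) / 2) := by
    linear_combination hδ / 4
  obtain ⟨φ, hφ⟩ : ∃ φ : QuadraticAlgebra ℤ a b →+* ℂ, ∀ z, φ z = ec ((b + δ) / 2) z :=
    ⟨eh hw1, fun _ => rfl⟩
  obtain ⟨ψ, hψ⟩ : ∃ ψ : QuadraticAlgebra ℤ a b →+* ℂ, ∀ z, ψ z = ec ((b - δ) / 2) z :=
    ⟨eh hw2, fun _ => rfl⟩
  have s1 : ∀ z, φ (star z) = ψ z := fun z => by
    simp only [hφ, hψ, ec, re_star, im_star]; push_cast; ring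
  have s2 : ∀ z, ψ (star z) = φ z := fun z => by
    simp only [hφ, hψ, ec, re_star, im_star]; push_cast; ring
  have him : ∀ z : QuadraticAlgebra ℤ a b, δ * z.im = φ z - ψ z := fun z => by
    simp only [hφ, hψ, ec]; ring
  have hnm : ∀ z : QuadraticAlgebra ℤ a b, φ z * ψ z = (z.norm : ℤ) := fun z => by
    rw [hφ, hψ, ec_norm hδ]
  have hext : ∀ z z' : QuadraticAlgebra ℤ a b, φ z = φ z' → ψ z = ψ z' → z = z' := fun z z' e e' => by
    have i1 : z.im = z'.im := by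
      have : (z.im : ℂ) = z'.im := mul_left_cancel₀ δ0 (by rw [him, him, e, e'])
      exact_mod_cast this
    rw [hφ, hφ, ec, ec, i1, add_left_inj] at e
    exact QuadraticAlgebra.ext (by exact_mod_cast e) i1
  have hn0 : ∀ z : QuadraticAlgebra ℤ a b, z ≠ 0 → z.norm ≠ 0 := fun z hz h => by
    have := mul_star_eq z
    rw [h, Int.cast_zero, mul_eq_zero, star_eq_zero, or_self] at this
    exact hz this
  obtain ⟨⟨I, I0⟩, rfl⟩ := ClassGroup.mk0_surjective c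
  have hI : I ≠ ⊥ := nonZeroDivisors.ne_zero I0
  have hc' := hc
  rw [← map_pow, SubmonoidClass.mk_pow, ClassGroup.mk0_eq_one_iff] at hc'
  obtain ⟨α₀, hα₀⟩ := hc'
  replace hα₀ : span {α₀} = I ^ 5 := hα₀.symm
  have α00 : α₀ ≠ 0 := fun h => pow_ne_zero 5 hI (by rw [← hα₀, h]; simp)
  obtain ⟨N, hN5, hN⟩ : ∃ N : ℤ, N ^ 5 = α₀.norm ∧ N.natAbs = absNorm I := by
    have h2 := congrArg absNorm hα₀
    rw [map_pow, absNorm_span_singleton, alg_norm] at h2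
    rcases Int.natAbs_eq α₀.norm with h | h
    · exact ⟨absNorm I, by rw [h, h2]; push_cast; ring, by simp⟩
    · exact ⟨-absNorm I, by rw [h, h2]; push_cast; ring, by simp⟩
  have N0 : N ≠ 0 := fun h => hn0 _ α00 (by rw [← hN5, h]; simp)
  have N0' : (N : QuadraticAlgebra ℤ a b) ≠ 0 := fun h => N0 (by simpa using congrArg QuadraticAlgebra.re h)
  have N0c : (N : ℂ) ≠ 0 := by exact_mod_cast N0
  have hII : span {(N : QuadraticAlgebra ℤ a b)} = I * cj I := by rw [mul_cj hI, ← hN, span_natAbs]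
  obtain ⟨A₁, hA₁⟩ := IsAlgClosed.exists_pow_nat_eq (φ α₀) (n := 5) (by norm_num)
  have hA := hnm α₀
  rw [← hN5, ← hA₁, Int.cast_pow] at hA
  have A10 : A₁ ≠ 0 := fun h => pow_ne_zero 5 N0c (by rw [← hA, h]; simp)
  obtain ⟨A₂, hAA⟩ : ∃ A₂ : ℂ, A₁ * A₂ = N := ⟨N / A₁, by field_simp⟩
  have A20 : A₂ ≠ 0 := fun h => N0c (by rw [← hAA, h, mul_zero])
  have hA₂ : A₂ ^ 5 = ψ α₀ := mul_left_cancel₀ (pow_ne_zero 5 A10) (by rw [hA, ← hAA, mul_pow])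
  have t1 := norm_pos_iff.2 A10
  have t2 := norm_pos_iff.2 A20
  have ht : ‖A₁‖ * ‖A₂‖ = absNorm I := by
    rw [← norm_mul, hAA, Complex.norm_intCast, ← hN, Nat.cast_natAbs, Int.cast_abs]
  have hneg : b ^ 2 + 4 * a < 0 → ‖A₁‖ = ‖A₂‖ := fun h => by
    have h' : ((b ^ 2 + 4 * a : ℤ) : ℝ) < 0 := by exact_mod_cast h
    have e : δ * δ = (((b ^ 2 + 4 * a : ℤ) : ℝ) : ℂ) := by rw [hδ]; push_cast; ring
    have e1 := congrArg Complex.re e
    have e2 := congrArg Complex.im e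
    rw [Complex.mul_re, Complex.ofReal_re] at e1
    rw [Complex.mul_im, Complex.ofReal_im] at e2
    have e3 : δ.re = 0 := by
      by_contra h0
      have : δ.im = 0 := mul_left_cancel₀ h0 (by linarith)
      rw [this] at e1
      nlinarith
    have e4 : (starRingEnd ℂ) δ = -δ := Complex.ext (by simp [e3]) (by simp)
    have e5 : (starRingEnd ℂ) (φ α₀) = ψ α₀ := by
      simp only [hφ, hψ, ec, map_add, map_mul, map_div₀, map_intCast, e4, map_ofNat]; ring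
    refine (pow_left_inj₀ t1.le t2.le (n := 5) (by norm_num)).1 ?_
    rw [← norm_pow, ← norm_pow, hA₁, hA₂, ← e5, Complex.norm_conj]
  obtain ⟨α₁, m1, z1, u1, u2, pr1⟩ := exists_prim hb h1 hΔ hδ hI t1 t2 ht hneg
  obtain ⟨α₂, m2, z2, u3, u4, pr2⟩ := exists_prim hb h1 hΔ hδ (pow_ne_zero 2 hI) (pow_pos t1 2)
    (pow_pos t2 2) (by rw [← mul_pow, ht, map_pow, Nat.cast_pow]) fun h => by rw [hneg h]
  rw [← hφ] at u1 u3
  rw [← hψ] at u2 u4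
  obtain ⟨J, hJ⟩ : I ∣ span {α₁} := dvd_iff_le.2 ((span_singleton_le_iff_mem _).2 m1)
  obtain ⟨J', hJ'⟩ : I ^ 2 ∣ span {α₂} := dvd_iff_le.2 ((span_singleton_le_iff_mem _).2 m2)
  have J0 : J ≠ 0 := fun h => z1 (by rwa [h, mul_zero, zero_eq_bot, span_singleton_eq_bot] at hJ)
  have J0' : J' ≠ 0 := fun h => z2 (by rwa [h, mul_zero, zero_eq_bot, span_singleton_eq_bot] at hJ')
  have q1 : ∀ p : ℕ, p.Prime → ¬ span {(p : QuadraticAlgebra ℤ a b)} ∣ J := fun p hp h =>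
    pr1 p hp (by
      rw [← span_singleton_le_iff_mem, hJ, mul_comm I]
      exact Ideal.mul_mono_left (dvd_iff_le.1 h))
  have q2 : ∀ p : ℕ, p.Prime → ¬ span {(p : QuadraticAlgebra ℤ a b)} ∣ J' := fun p hp h =>
    pr2 p hp (by
      rw [← span_singleton_le_iff_mem, hJ', mul_comm (I ^ 2)]
      exact Ideal.mul_mono_left (dvd_iff_le.1 h))
  have hK : span {star α₁} = cj I * cj J := by rw [← cj_span, hJ, cj_mul]
  have hK' : span {star α₂} = cj I ^ 2 * cj J' := by rw [← cj_span, hJ', cj_mul, cj_pow]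
  obtain ⟨β₁, f1, g1⟩ := quot (X := α₁ ^ 2 * star α₂) (K := J ^ 2 * cj J') (pow_ne_zero 2 N0') (by
    simp only [← span_singleton_mul_span_singleton, ← span_singleton_pow, hJ, hK', hII]; ring)
  obtain ⟨β₂, f2, g2⟩ := quot (X := α₁ * α₂ ^ 2) (K := J * J' ^ 2) α00 (by
    simp only [← span_singleton_mul_span_singleton, ← span_singleton_pow, hJ, hJ', hα₀]; ring)
  obtain ⟨ρ, f3, -⟩ := quot (X := α₁ ^ 3 * α₂) (K := J ^ 3 * J') α00 (by
    simp only [← span_singleton_mul_span_singleton, ← span_singleton_pow, hJ, hJ', hα₀]; ring)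
  obtain ⟨η, f4, -⟩ := quot (X := star α₁ * α₂ ^ 3) (K := cj J * J' ^ 3) (mul_ne_zero N0' α00) (by
    simp only [← span_singleton_mul_span_singleton, ← span_singleton_pow, hK, hJ', hα₀, hII]; ring)
  obtain ⟨α, f5, g5⟩ := quot (X := α₁ ^ 5) (K := J ^ 5) α00 (by
    simp only [← span_singleton_pow, hJ, hα₀]; ring)
  obtain ⟨α', f6, g6⟩ := quot (X := α₂ ^ 5) (K := J' ^ 5) (pow_ne_zero 2 α00) (by
    simp only [← span_singleton_pow, hJ', hα₀]; ring)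
  obtain ⟨W, f7, g7⟩ := quot (X := α₁ * star α₁) (K := J * cj J) N0' (by
    simp only [← span_singleton_mul_span_singleton, hJ, hK, hII]; ring)
  obtain ⟨X, f8, g8⟩ := quot (X := α₂ * star α₂) (K := J' * cj J') (pow_ne_zero 2 N0') (by
    simp only [← span_singleton_mul_span_singleton, ← span_singleton_pow, hJ', hK', hII]; ring)
  obtain ⟨a₁, ha₁⟩ : ∃ a₁ : ℂ, φ α₁ = A₁ * a₁ := ⟨φ α₁ / A₁, by field_simp⟩
  obtain ⟨a₂, ha₂⟩ : ∃ a₂ : ℂ, ψ α₁ = A₂ * a₂ := ⟨ψ α₁ / A₂, by field_simp⟩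
  obtain ⟨b₁, hb₁⟩ : ∃ b₁ : ℂ, φ α₂ = A₁ ^ 2 * b₁ := ⟨φ α₂ / A₁ ^ 2, by field_simp⟩
  obtain ⟨b₂, hb₂⟩ : ∃ b₂ : ℂ, ψ α₂ = A₂ ^ 2 * b₂ := ⟨ψ α₂ / A₂ ^ 2, by field_simp⟩
  have val : ∀ {X m γ : QuadraticAlgebra ℤ a b} {P Q : ℂ}, X = m * γ → m ≠ 0 → φ X = φ m * P →
      ψ X = ψ m * Q → φ γ = P ∧ ψ γ = Q := fun {X m γ P Q} e m0 e1 e2 => by
    have m1 : φ m * ψ m ≠ 0 := by rw [hnm]; exact_mod_cast hn0 m m0
    rw [e, map_mul] at e1 e2
    exact ⟨mul_left_cancel₀ (left_ne_zero_of_mul m1) e1, mul_left_cancel₀ (right_ne_zero_of_mul m1) e2⟩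
  obtain ⟨v1, w1⟩ := val (P := a₁ ^ 2 * b₂) (Q := a₂ ^ 2 * b₁) f1 (pow_ne_zero 2 N0')
    (by simp only [map_mul, map_pow, map_intCast, s1, ha₁, hb₂, ← hAA]; ring)
    (by simp only [map_mul, map_pow, map_intCast, s2, ha₂, hb₁, ← hAA]; ring)
  obtain ⟨v2, w2⟩ := val (P := a₁ * b₁ ^ 2) (Q := a₂ * b₂ ^ 2) f2 α00
    (by simp only [map_mul, map_pow, ha₁, hb₁, ← hA₁]; ring)
    (by simp only [map_mul, map_pow, ha₂, hb₂, ← hA₂]; ring)
  obtain ⟨v3, w3⟩ := val (P := a₁ ^ 3 * b₁) (Q := a₂ ^ 3 * b₂) f3 α00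
    (by simp only [map_mul, map_pow, ha₁, hb₁, ← hA₁]; ring)
    (by simp only [map_mul, map_pow, ha₂, hb₂, ← hA₂]; ring)
  obtain ⟨v4, w4⟩ := val (P := a₂ * b₁ ^ 3) (Q := a₁ * b₂ ^ 3) f4 (mul_ne_zero N0' α00)
    (by simp only [map_mul, map_pow, map_intCast, s1, ha₂, hb₁, ← hAA, ← hA₁]; ring)
    (by simp only [map_mul, map_pow, map_intCast, s2, ha₁, hb₂, ← hAA, ← hA₂]; ring)
  obtain ⟨v5, w5⟩ := val (P := a₁ ^ 5) (Q := a₂ ^ 5) f5 α00
    (by simp only [map_pow, ha₁, ← hA₁]; ring) (by simp only [map_pow, ha₂, ← hA₂]; ring)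
  obtain ⟨v6, w6⟩ := val (P := b₁ ^ 5) (Q := b₂ ^ 5) f6 (pow_ne_zero 2 α00)
    (by simp only [map_pow, hb₁, ← hA₁]; ring) (by simp only [map_pow, hb₂, ← hA₂]; ring)
  obtain ⟨v7, w7⟩ := val (P := a₁ * a₂) (Q := a₁ * a₂) f7 N0'
    (by simp only [map_mul, map_intCast, s1, ha₁, ha₂, ← hAA]; ring)
    (by simp only [map_mul, map_intCast, s2, ha₁, ha₂, ← hAA]; ring)
  obtain ⟨v8, w8⟩ := val (P := b₁ * b₂) (Q := b₁ * b₂) f8 (pow_ne_zero 2 N0')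
    (by simp only [map_mul, map_pow, map_intCast, s1, hb₁, hb₂, ← hAA]; ring)
    (by simp only [map_mul, map_pow, map_intCast, s2, hb₁, hb₂, ← hAA]; ring)
  have rat : ∀ z : QuadraticAlgebra ℤ a b, φ z = ψ z → ∃ m : ℤ, z = m := fun z e => by
    have : (z.im : ℂ) = 0 := mul_left_cancel₀ δ0 (by rw [him, e, sub_self, mul_zero])
    exact ⟨z.re, QuadraticAlgebra.ext (by simp) (by simpa using this)⟩
  obtain ⟨w, rfl⟩ := rat W (v7.trans w7.symm)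
  obtain ⟨x, rfl⟩ := rat X (v8.trans w8.symm)
  rw [map_intCast] at v7 v8
  have w0 : w ≠ 0 := by
    rintro rfl
    exact mul_ne_zero z1 (star_ne_zero.2 z1) (by simpa using f7)
  have x0 : x ≠ 0 := by
    rintro rfl
    exact mul_ne_zero z2 (star_ne_zero.2 z2) (by simpa using f8)
  have nm : ∀ (z : QuadraticAlgebra ℤ a b) (m : ℤ), φ z * ψ z = m → z.norm = m := fun z m e => by
    rw [hnm] at e
    exact_mod_cast e
  have n1 : β₁.norm = w ^ 2 * x := nm _ _ (by push_cast; rw [v1, w1, v7, v8]; ring)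
  have n2 : β₂.norm = w * x ^ 2 := nm _ _ (by push_cast; rw [v2, w2, v7, v8]; ring)
  have n5 : α.norm = w ^ 5 := nm _ _ (by push_cast; rw [v5, w5, v7]; ring)
  have n6 : α'.norm = x ^ 5 := nm _ _ (by push_cast; rw [v6, w6, v8]; ring)
  have e3 : (x : QuadraticAlgebra ℤ a b) ^ 2 * α = β₁ ^ 2 * β₂ := hext _ _
    (by simp only [map_mul, map_pow, map_intCast, v1, v2, v5, v8]; ring)
    (by simp only [map_mul, map_pow, map_intCast, w1, w2, w5, v8]; ring)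
  have e4 : (w : QuadraticAlgebra ℤ a b) ^ 2 * α' = β₂ ^ 2 * star β₁ := hext _ _
    (by simp only [map_mul, map_pow, map_intCast, s1, w1, v2, v6, v7]; ring)
    (by simp only [map_mul, map_pow, map_intCast, s2, v1, w2, w6, v7]; ring)
  have c1 : ClassGroup.mk0 ⟨I, I0⟩ = (ClassGroup.mk0 ⟨J, mem_nonZeroDivisors_of_ne_zero J0⟩)⁻¹ :=
    ClassGroup.mk0_eq_mk0_inv_iff.2 ⟨α₁, z1, hJ.symm⟩
  have c2 : ClassGroup.mk0 ⟨I, I0⟩ = ClassGroup.mk0 ⟨J', mem_nonZeroDivisors_of_ne_zero J0'⟩ ^ 2 := by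
    have := (ClassGroup.mk0_eq_mk0_inv_iff (I := ⟨I, I0⟩ ^ 2)
      (J := ⟨J', mem_nonZeroDivisors_of_ne_zero J0'⟩)).2 ⟨α₂, z2, by
        rw [SubmonoidClass.coe_pow]; exact hJ'.symm⟩
    rw [map_pow, ← inv_eq_iff_eq_inv] at this
    rw [← this, inv_pow, ← pow_mul, eq_inv_iff_mul_eq_one, ← pow_succ', hc]
  have hS : Sys δ a₁ a₂ b₁ b₂ β₁.im β₂.im ρ.im η.im α.im α'.im w x :=
    ⟨by rw [him, v1, w1], by rw [him, v2, w2], by rw [him, v3, w3], by rw [him, v4, w4],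
      by rw [him, v5, w5], by rw [him, v6, w6], v7.symm, v8.symm⟩
  have hne : β₁.im ≠ 0 ∨ β₂.im ≠ 0 := by
    by_contra h
    simp only [not_or, not_not] at h
    have h2 := dvd_im_mul (dvd_im_mul (dvd_of_eq h.1.symm) (dvd_of_eq h.1.symm)) (dvd_of_eq h.2.symm)
    rw [← pow_two, ← e3, ← Int.cast_pow, im_mul, zero_dvd_iff] at h2
    simp only [re_intCast, im_intCast, Int.cast_id, zero_mul, mul_zero, add_zero, mul_eq_zero,
      pow_eq_zero_iff two_ne_zero, x0, false_or] at h2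
    have h3 : star α = α := QuadraticAlgebra.ext (by simp [h2]) (by simp [h2])
    have h4 : cj J = J := ideal_pow_inj (n := 5) (by norm_num) (by rw [← cj_pow, ← g5, cj_span, h3])
    have h5 : ClassGroup.mk0 ⟨J, mem_nonZeroDivisors_of_ne_zero J0⟩ =
        (ClassGroup.mk0 ⟨J, mem_nonZeroDivisors_of_ne_zero J0⟩)⁻¹ :=
      ClassGroup.mk0_eq_mk0_inv_iff.2 ⟨w, fun h => w0 (by simpa using congrArg QuadraticAlgebra.re h),
        by rw [g7, h4]⟩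
    rw [← c1, ← inv_inj, ← c1, eq_inv_iff_mul_eq_one] at h5
    apply hc1
    rw [← hc, show 5 = 2 * 2 + 1 by rfl, pow_succ, pow_mul, pow_two (ClassGroup.mk0 _), h5]
    simp
  obtain ⟨G, n, s, r, y, v, u, G0, i1, i2, i3, i4, i5, i6, hG⟩ :=
    exists_G β₁.im β₂.im ρ.im η.im α.im α'.im hne
  rw [i1, i2, i3, i4, i5, i6] at hS
  have hS' := hS.div
  have δG : δ * G ≠ 0 := mul_ne_zero δ0 (by exact_mod_cast G0.ne')
  have j1 := hS'.I1 δG
  have j2 := hS'.swap.I1 δG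
  refine ⟨a₁, a₂, b₁, b₂, n, s, r, y, v, u, w, x, G, α, α', ⟨J, mem_nonZeroDivisors_of_ne_zero J0⟩,
    ⟨J', mem_nonZeroDivisors_of_ne_zero J0'⟩, G0, hS', w0, x0, ?_, ?_, ?_,
    ⟨i5, n5, g5, c1⟩, ⟨i6, n6, g6, c2⟩⟩
  · by_contra h
    obtain ⟨p, hp, hd⟩ := Nat.exists_prime_and_dvd h
    have hpz : Prime (p : ℤ) := Nat.prime_iff_prime_int.1 hp
    have dn : (p : ℤ) ∣ n := (Int.natCast_dvd_natCast.2 hd).trans (Int.gcd_dvd_left _ _)
    have ds : (p : ℤ) ∣ s := (Int.natCast_dvd_natCast.2 hd).trans (Int.gcd_dvd_right _ _)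
    refine hpz.not_dvd_one (hG p dn ds (hpz.dvd_of_dvd_pow (n := 2) ?_) (hpz.dvd_of_dvd_pow (n := 2) ?_)
      (half hp (q1 p hp) (q2 p hp) g1 g2 ?_ n1 n2 e3 G0.ne' i1 i2 i5 j1 dn ds)
      (half (A := J') (B := cj J) hp (q2 p hp) (fun h => q1 p hp ?_) ?_ ?_ ?_ (n2.trans (mul_comm _ _))
        ((QuadraticAlgebra.norm_star _).trans (n1.trans (mul_comm _ _))) e4 G0.ne' i2 (by rw [im_star, i1, mul_neg]) i6 j2
        ds (dvd_neg.2 dn)))
    · rw [show r ^ 2 = s * v + w * n * n by linear_combination -j1]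
      exact dvd_add (ds.mul_right _) (dn.mul_left _)
    · rw [show y ^ 2 = x * s * s - n * u by linear_combination -j2]
      exact dvd_sub (ds.mul_left _) (dn.mul_right _)
    · exact Ideal.le_of_dvd (dvd_mul_right J (cj J)) (g7 ▸ mem_span_singleton_self _)
    · simpa only [cj_cj, cj_nat] using cj_dvd h
    · rw [g2, cj_cj, mul_comm]
    · rw [← cj_span, g1, cj_mul, cj_pow, cj_cj, mul_comm]
    · exact Ideal.le_of_dvd (dvd_mul_right J' (cj J')) (g8 ▸ mem_span_singleton_self _)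
  · rw [ha₁, norm_mul, mul_comm] at u1
    rw [ha₂, norm_mul, mul_comm] at u2
    exact max_le (le_of_mul_le_mul_right u1 t1) (le_of_mul_le_mul_right u2 t2)
  · rw [hb₁, norm_mul, norm_pow, mul_comm] at u3
    rw [hb₂, norm_mul, norm_pow, mul_comm] at u4
    exact max_le (le_of_mul_le_mul_right u3 (pow_pos t1 2)) (le_of_mul_le_mul_right u4 (pow_pos t2 2))

end

end Pool.Agent.MP_d0fd9b_nt.H68
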