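import Pool.Agent.MP_d0fd9b_nt.H68.Weyl
import Pool.Agent.MP_d0fd9b_nt.H68.Offdiag
import Pool.Agent.MP_d0fd9b_nt.H68.Ring

/-! Choice of the parameters, dyadic decomposition and the mean value. -/

set_option autoImplicit false

namespace Pool.Agent.MP_d0fd9b_nt.H68

section

open Finset

lemma t8_class {V N : ℕ} (hN : 1 ≤ N) {n s c : ℤ} (hn : (N : ℤ) ≤ n) (hg : Int.gcd n s = 1) :
    (#((II V).filter fun v => n ^ 5 ∣ c - s ^ 5 * v) : ℝ) ≤ 2 * V / N ^ 5 + 1 := by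
  have N0 : (0 : ℤ) < N := by exact_mod_cast hN
  have q0 : (0 : ℤ) < n ^ 5 := pow_pos (N0.trans_le hn) 5
  have hq : (N : ℤ) ^ 5 ≤ n ^ 5 := by gcongr
  have h1 : #((II V).filter fun v => n ^ 5 ∣ c - s ^ 5 * v) ≤ #(Icc (0 : ℤ) (2 * V / N ^ 5 : ℕ)) := by
    refine card_le_card_of_injOn (fun v => (v + V) / n ^ 5) (fun v hv => ?_) fun v hv w hw h => ?_
    · obtain ⟨h1, h2⟩ := abs_le.1 (mem_II.1 (mem_filter.1 hv).1)
      refine mem_coe.2 (mem_Icc.2 ⟨Int.ediv_nonneg (by linarith) q0.le, ?_⟩)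
      push_cast
      refine (Int.le_ediv_iff_mul_le (by positivity)).2 ?_
      have h3 := Int.ediv_mul_le (v + V) q0.ne'
      have h4 : 0 ≤ (v + V) / n ^ 5 := Int.ediv_nonneg (by linarith) q0.le
      nlinarith
    · have h2 : n ^ 5 ∣ s ^ 5 * (v - w) := by
        have := dvd_sub (mem_filter.1 hw).2 (mem_filter.1 hv).2
        rwa [show c - s ^ 5 * w - (c - s ^ 5 * v) = s ^ 5 * (v - w) by ring] at this
      have h3 : n ^ 5 ∣ v - w :=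
        ((Int.isCoprime_iff_gcd_eq_one.2 hg).pow (m := 5) (n := 5)).dvd_of_dvd_mul_left h2
      have h4 : (v + V) % n ^ 5 = (w + V) % n ^ 5 :=
        (Int.emod_emod_of_dvd _ dvd_rfl).symm.trans (by
          rw [Int.emod_emod_of_dvd _ dvd_rfl]
          exact (Int.modEq_iff_dvd.2 (by simpa using h3)).symm)
      have h5 := Int.mul_ediv_add_emod (v + V) (n ^ 5)
      have h6 := Int.mul_ediv_add_emod (w + V) (n ^ 5)
      dsimp only at h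
      rw [h, h4] at h5
      linarith
  rw [Int.card_Icc] at h1
  have h2 : #((II V).filter fun v => n ^ 5 ∣ c - s ^ 5 * v) ≤ 2 * V / N ^ 5 + 1 := by
    generalize 2 * V / N ^ 5 = d at *
    omega
  have h3 : ((2 * V / N ^ 5 : ℕ) : ℝ) ≤ 2 * V / N ^ 5 := by
    exact_mod_cast Nat.cast_div_le (α := ℝ) (m := 2 * V) (n := N ^ 5)
  have h4 : (#((II V).filter fun v => n ^ 5 ∣ c - s ^ 5 * v) : ℝ) ≤ (2 * V / N ^ 5 : ℕ) + 1 := by
    exact_mod_cast h2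
  linarith

lemma t8_cnt {N S : ℕ} (R Y V : ℕ) (hN : 1 ≤ N) {x : ℤ × ℤ} (hx : x ∈ pairs N S) :
    (cnt R Y V x.1 x.2 : ℝ) ≤ (2 * R + 1) * ((2 * Y + 1) * (2 * V / N ^ 5 + 1)) := by
  obtain ⟨h1, hg⟩ := mem_filter.1 hx
  have hn := (mem_Ico.1 (mem_product.1 h1).1).1
  rw [cnt, card_filter, sum_product]
  push_cast
  refine (sum_le_card_nsmul _ _ ((2 * Y + 1) * (2 * V / N ^ 5 + 1) : ℝ) fun r _ => ?_).trans
    (by rw [card_II, nsmul_eq_mul]; push_cast; rfl)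
  rw [sum_product]
  refine (sum_le_card_nsmul _ _ (2 * V / N ^ 5 + 1 : ℝ) fun y _ => ?_).trans
    (by rw [card_II, nsmul_eq_mul]; push_cast; rfl)
  refine le_trans (le_of_eq ?_) (t8_class (V := V) (c := Qf x.1 x.2 r y) hN hn hg)
  rw [card_filter]; push_cast; rfl

lemma t8_pairs (N S : ℕ) : (#(pairs N S) : ℝ) ≤ N * (2 * S + 1) := by
  have : #(pairs N S) ≤ N * (2 * S + 1) := (card_filter_le _ _).trans (by
    rw [card_product, card_II, Int.card_Ico]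
    exact Nat.mul_le_mul_right _ (by omega))
  exact_mod_cast this

lemma t8_mon {a b m : ℝ} (ha : 0 < a) (hb : 0 < b) (am : a ≤ m) (bm : b ≤ m) (i j : ℕ) :
    a ^ i * b ^ j ≤ m ^ (i + j) := by
  have := ha.trans_le am
  rw [pow_add]; gcongr

lemma t8_par {θ a b m n S R Y H : ℝ} (hθ : 0 < θ) (ha : 0 < a) (hb : 0 < b) (am : a ≤ m)
    (bm : b ≤ m) (hn : n = θ * a ^ 2 * b) (S0 : 0 ≤ S) (hS : S ≤ 4 * θ * a * b ^ 2)
    (hR : R = 4 * θ * a ^ 3 * b) (hY : 8 * θ * a * b ^ 3 ≤ Y) (hY' : Y ≤ 16 * θ * a * b ^ 3)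
    (hH : H ≤ θ ^ 4 * a ^ 5 * b ^ 5 / 72) :
    n ^ 3 / Y ≤ 21 * θ ^ 2 * m ^ 5 ∧ S ^ 2 * n / Y + n ^ 3 / R ≤ 21 * θ ^ 2 * m ^ 5 ∧
    H * (4 * S ^ 2 * R / n ^ 5 + 2 * Y / n ^ 3) + S ^ 3 / R ≤ 21 * θ ^ 2 * m ^ 5 ∧
    10 * H * R / n ^ 3 + S ^ 3 / Y + S * n ^ 2 / R ≤ 21 * θ ^ 2 * m ^ 5 := by
  subst hn hR
  have Y0 : 0 < Y := lt_of_lt_of_le (by positivity) hY
  have m0 := ha.trans_le am
  have mon : ∀ (c : ℝ) (i j : ℕ), i + j = 5 → 0 ≤ c → c ≤ 21 →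
      c * θ ^ 2 * (a ^ i * b ^ j) ≤ 21 * θ ^ 2 * m ^ 5 := fun c i j h c0 hc => by
    have := t8_mon ha hb am bm i j
    rw [h] at this
    gcongr
  refine ⟨?_, ?_, ?_, ?_⟩
  · calc _ ≤ (θ * a ^ 2 * b) ^ 3 / (8 * θ * a * b ^ 3) := by gcongr
      _ = 1 / 8 * θ ^ 2 * (a ^ 5 * b ^ 0) := by field_simp
      _ ≤ _ := mon _ _ _ rfl (by norm_num) (by norm_num)
  · calc _ ≤ (4 * θ * a * b ^ 2) ^ 2 * (θ * a ^ 2 * b) / (8 * θ * a * b ^ 3) +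
          (θ * a ^ 2 * b) ^ 3 / (4 * θ * a ^ 3 * b) := by gcongr
      _ = 9 / 4 * θ ^ 2 * (a ^ 3 * b ^ 2) := by field_simp; ring
      _ ≤ _ := mon _ _ _ rfl (by norm_num) (by norm_num)
  · calc _ ≤ θ ^ 4 * a ^ 5 * b ^ 5 / 72 * (4 * (4 * θ * a * b ^ 2) ^ 2 * (4 * θ * a ^ 3 * b) /
          (θ * a ^ 2 * b) ^ 5 + 2 * (16 * θ * a * b ^ 3) / (θ * a ^ 2 * b) ^ 3) +
          (4 * θ * a * b ^ 2) ^ 3 / (4 * θ * a ^ 3 * b) := by gcongr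
      _ = 20 * θ ^ 2 * (a ^ 0 * b ^ 5) := by field_simp; ring
      _ ≤ _ := mon _ _ _ rfl (by norm_num) (by norm_num)
  · calc _ ≤ 10 * (θ ^ 4 * a ^ 5 * b ^ 5 / 72) * (4 * θ * a ^ 3 * b) / (θ * a ^ 2 * b) ^ 3 +
          (4 * θ * a * b ^ 2) ^ 3 / (8 * θ * a * b ^ 3) +
          4 * θ * a * b ^ 2 * (θ * a ^ 2 * b) ^ 2 / (4 * θ * a ^ 3 * b) := by gcongr
      _ = 86 / 9 * θ ^ 2 * (a ^ 2 * b ^ 3) := by field_simp; ring
      _ ≤ _ := mon _ _ _ rfl (by norm_num) (by norm_num)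

lemma t8_fin {θ a b m n S R Y H K Q c W τ : ℝ} (hθ : 0 < θ) (ha : 0 < a) (hb : 0 < b) (am : a ≤ m)
    (bm : b ≤ m) (hm : θ * m ^ 2 ≤ 36) (hn : n = θ * a ^ 2 * b) (S0 : 0 < S)
    (hS : S ≤ 4 * θ * a * b ^ 2) (hR : R = 4 * θ * a ^ 3 * b) (Y0 : 0 < Y)
    (hY' : Y ≤ 16 * θ * a * b ^ 3) (hH : θ ^ 4 * a ^ 5 * b ^ 5 / 144 ≤ H) (K0 : 0 ≤ K)
    (hK : K ≤ 21 * θ ^ 2 * m ^ 5) (Q0 : 0 < Q) (hQ : Q ^ 2 = R * Y) (τ0 : 0 ≤ τ) :
    3 * (n * S) * (100 * R * Y / H + 768 * Q / H * (H + m ^ 4 * H / (Q * n * S) / 2 * (c * W))) +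
      768 * Q / H / (2 * (m ^ 4 * H / (Q * n * S))) *
        (7000 * τ ^ 3 * (K ^ 4 * (H + n * S) + K ^ 2 * n * S * H)) ≤
      (10 ^ 10 + 1152 * (c * W) + 10 ^ 31 * τ ^ 3) * m ^ 4 := by
  have m0 := ha.trans_le am
  have H0 : 0 < H := lt_of_lt_of_le (by positivity) hH
  have n0 : 0 < n := by rw [hn]; positivity
  have R0 : 0 < R := by rw [hR]; positivity
  have mon := t8_mon ha hb am bm
  have pw : ∀ k : ℕ, θ ^ k * m ^ (2 * k) ≤ 36 ^ k := fun k => by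
    rw [pow_mul, ← mul_pow]; gcongr
  have hP : n * S ≤ 4 * θ ^ 2 * (a ^ 3 * b ^ 3) :=
    calc n * S ≤ n * (4 * θ * a * b ^ 2) := by gcongr
      _ = _ := by rw [hn]; ring
  have hT : n * S * R * Y / H ≤ 36864 * (a ^ 2 * b ^ 2) :=
    calc _ ≤ 4 * θ ^ 2 * (a ^ 3 * b ^ 3) * R * (16 * θ * a * b ^ 3) /
          (θ ^ 4 * a ^ 5 * b ^ 5 / 144) := by gcongr
      _ = _ := by rw [hR]; field_simp; ring
  have hT' : n * S * R * Y / H ≤ 36864 * m ^ 4 := hT.trans (by gcongr; exact mon 2 2)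
  have hQ' : Q ≤ 8 * θ * (a ^ 2 * b ^ 2) := by
    refine le_of_pow_le_pow_left₀ two_ne_zero (by positivity) ?_
    calc Q ^ 2 ≤ R * (16 * θ * a * b ^ 3) := by rw [hQ]; gcongr
      _ = _ := by rw [hR]; ring
  have h2 : n * S * Q ≤ 32 * 36 ^ 3 * m ^ 4 :=
    calc _ ≤ 4 * θ ^ 2 * (a ^ 3 * b ^ 3) * (8 * θ * (a ^ 2 * b ^ 2)) := by gcongr
      _ ≤ 4 * θ ^ 2 * m ^ (3 + 3) * (8 * θ * m ^ (2 + 2)) := by gcongr <;> apply mon
      _ = 32 * (θ ^ 3 * m ^ (2 * 3)) * m ^ 4 := by ring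
      _ ≤ _ := by gcongr; exact pw 3
  have hK' : K ≤ 27216 * m :=
    calc K ≤ 21 * (θ ^ 2 * m ^ (2 * 2)) * m := hK.trans_eq (by ring)
      _ ≤ 21 * 36 ^ 2 * m := by gcongr; exact pw 2
      _ = _ := by ring
  have hP' : n * S ≤ 5184 * m ^ 2 :=
    calc _ ≤ 4 * θ ^ 2 * m ^ (3 + 3) := hP.trans (by gcongr; apply mon)
      _ = 4 * (θ ^ 2 * m ^ (2 * 2)) * m ^ 2 := by ring
      _ ≤ 4 * 36 ^ 2 * m ^ 2 := by gcongr; exact pw 2
      _ = _ := by ring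
  have h4a : n * S * R * Y / H * K ^ 4 ≤ 10 ^ 23 * m ^ 8 :=
    calc _ ≤ 36864 * m ^ 4 * (27216 * m) ^ 4 := by gcongr
      _ = 36864 * 27216 ^ 4 * m ^ 8 := by ring
      _ ≤ _ := by gcongr; norm_num
  have h4b : n * S * R * Y / H * (n * S / H) * K ^ 4 ≤ 10 ^ 23 * m ^ 8 :=
    calc _ ≤ 36864 * (a ^ 2 * b ^ 2) * (4 * θ ^ 2 * (a ^ 3 * b ^ 3) /
          (θ ^ 4 * a ^ 5 * b ^ 5 / 144)) * (21 * θ ^ 2 * m ^ 5) ^ 4 := by gcongr
      _ = 36864 * 576 * 21 ^ 4 * (θ ^ 6 * m ^ (2 * 6)) * m ^ 8 := by field_simp; ring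
      _ ≤ 36864 * 576 * 21 ^ 4 * 36 ^ 6 * m ^ 8 := by gcongr; exact pw 6
      _ ≤ _ := by gcongr; norm_num
  have h4c : n * S * R * Y / H * (n * S) * K ^ 2 ≤ 10 ^ 23 * m ^ 8 :=
    calc _ ≤ 36864 * m ^ 4 * (5184 * m ^ 2) * (27216 * m) ^ 2 := by gcongr
      _ = 36864 * 5184 * 27216 ^ 2 * m ^ 8 := by ring
      _ ≤ _ := by gcongr; norm_num
  have e : 768 * Q / H / (2 * (m ^ 4 * H / (Q * n * S))) *
      (7000 * τ ^ 3 * (K ^ 4 * (H + n * S) + K ^ 2 * n * S * H)) = 2688000 * τ ^ 3 / m ^ 4 *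
      (n * S * R * Y / H * K ^ 4 + n * S * R * Y / H * (n * S / H) * K ^ 4 +
        n * S * R * Y / H * (n * S) * K ^ 2) := by
    have : R = Q ^ 2 / Y := by rw [hQ]; field_simp
    rw [this]; field_simp; ring
  have e' : 3 * (n * S) * (100 * R * Y / H + 768 * Q / H *
      (H + m ^ 4 * H / (Q * n * S) / 2 * (c * W))) =
      300 * (n * S * R * Y / H) + 2304 * (n * S * Q) + 1152 * (c * W) * m ^ 4 := by
    field_simp; ring
  have h5 : 2688000 * τ ^ 3 / m ^ 4 * (n * S * R * Y / H * K ^ 4 +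
      n * S * R * Y / H * (n * S / H) * K ^ 4 + n * S * R * Y / H * (n * S) * K ^ 2) ≤
      10 ^ 31 * τ ^ 3 * m ^ 4 :=
    calc _ ≤ 2688000 * τ ^ 3 / m ^ 4 * (10 ^ 23 * m ^ 8 + 10 ^ 23 * m ^ 8 + 10 ^ 23 * m ^ 8) := by
          gcongr
      _ = 8064000 * 10 ^ 23 * τ ^ 3 * m ^ 4 := by field_simp; ring
      _ ≤ _ := by gcongr; norm_num
  have m4 : 0 < m ^ 4 := by positivity
  rw [e, e']
  linarith

lemma t8_sqrt {Z r l : ℝ} (hZ : 0 ≤ Z) (hr : 0 < r) (hl : 0 < l) :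
    √(1 + Z) ≤ 1 + (l / 2 * (1 / r) + 1 / (2 * l) * (r * Z)) := by
  have h1 : √Z ≤ l / 2 * (1 / r) + 1 / (2 * l) * (r * Z) := by
    have h := Real.sq_sqrt hZ
    have h0 := Real.sqrt_nonneg Z
    generalize √Z = u at *
    have : l / 2 * (1 / r) + 1 / (2 * l) * (r * Z) - u = (l - r * u) ^ 2 / (2 * l * r) := by
      rw [← h]; field_simp; ring
    have : 0 ≤ (l - r * u) ^ 2 / (2 * l * r) := by positivity
    linarith
  have h2 : √(1 + Z) ≤ 1 + √Z := Real.sqrt_le_iff.2 ⟨by positivity, by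
    nlinarith [Real.sq_sqrt hZ, Real.sqrt_nonneg Z]⟩
  linarith

lemma t8_sum {N S H K : ℕ} (f : ℤ × ℤ → ℝ) {u w l P c D : ℝ} (u0 : 0 ≤ u) (w0 : 0 ≤ w) (hl : 0 < l)
    (hf : ∀ x ∈ pairs N S, f x ≤ u + w * ∑ k ∈ Icc 1 H, √(1 + (Zc K x.1 x.2 k : ℝ)))
    (hP : (#(pairs N S) : ℝ) ≤ P) (hc : ∑ k ∈ Icc 1 H, (1 : ℝ) / rad k ≤ c)
    (hD : ∑ x ∈ pairs N S, ∑ k ∈ Icc 1 H, (rad k : ℝ) * Zc K x.1 x.2 k ≤ D) :
    ∑ x ∈ pairs N S, f x ≤ P * (u + w * (H + l / 2 * c)) + w / (2 * l) * D := by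
  have r0 : ∀ k, (0 : ℝ) < rad k := fun k => by
    exact_mod_cast prod_pos fun p hp => (Nat.prime_of_mem_primeFactors hp).pos
  have c0 : 0 ≤ c := (sum_nonneg fun k _ => by have := r0 k; positivity).trans hc
  calc _ ≤ ∑ x ∈ pairs N S, (u + w * (H + l / 2 * c) +
        w / (2 * l) * ∑ k ∈ Icc 1 H, (rad k : ℝ) * Zc K x.1 x.2 k) := by
        refine sum_le_sum fun x hx => (hf x hx).trans ?_
        have h := sum_le_sum fun k (_ : k ∈ Icc 1 H) =>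
          t8_sqrt (Nat.cast_nonneg (Zc K x.1 x.2 k)) (r0 k) hl
        rw [sum_add_distrib, sum_add_distrib, ← mul_sum, ← mul_sum, sum_const, Nat.card_Icc,
          nsmul_eq_mul, Nat.add_sub_cancel, mul_one] at h
        calc _ ≤ u + w * (H + (l / 2 * c + 1 / (2 * l) *
              ∑ k ∈ Icc 1 H, (rad k : ℝ) * Zc K x.1 x.2 k)) := by
              gcongr
              exact h.trans (by gcongr)
          _ = _ := by ring
    _ ≤ _ := by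
        rw [sum_add_distrib, ← mul_sum, sum_const, nsmul_eq_mul]
        gcongr

lemma t8_div {x y : ℕ} (hy : 0 < y) : ((x / y : ℕ) : ℝ) ≤ x / y ∧ (x : ℝ) / y < (x / y : ℕ) + 1 := by
  refine ⟨Nat.cast_div_le, ?_⟩
  rw [div_lt_iff₀ (by exact_mod_cast hy)]
  have := Nat.lt_div_mul_add (a := x) hy
  have : (x : ℝ) < (x / y : ℕ) * y + y := by exact_mod_cast this
  linarith

lemma t8_last {η c d m W : ℝ} (c0 : 0 ≤ c) (m1 : 1 ≤ m)
    (hW : W = (10 ^ 31 * m ^ 6) ^ η) (W1 : 1 ≤ W) :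
    (10 ^ 10 + 1152 * (c * W) + 10 ^ 31 * (d * W) ^ 3) * m ^ 4 ≤
      (10 ^ 10 + 1152 * c + 10 ^ 31 * d ^ 3) * ((10 ^ 31) ^ η) ^ 3 * (m ^ η) ^ 18 * m ^ 4 := by
  have e : W ^ 3 = ((10 ^ 31) ^ η) ^ 3 * (m ^ η) ^ 18 := by
    rw [hW, Real.mul_rpow (by positivity) (by positivity), ← Real.rpow_pow_comm (by positivity) η 6,
      mul_pow, ← pow_mul]
  have W3 : W ≤ W ^ 3 := le_self_pow₀ W1 three_ne_zero
  have : c * W ≤ c * W ^ 3 := by gcongr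
  rw [mul_assoc (_ + _), ← e, mul_pow d]
  gcongr
  linarith

lemma t8_main {η : ℝ} (hη : 0 < η) : ∃ C : ℝ, 0 ≤ C ∧ ∀ N A B m : ℕ, 2 ≤ N → 1 ≤ A → 1 ≤ B →
    A ≤ m → B ≤ m → N * m ^ 2 ≤ 36 * (A ^ 2 * B) → N ≤ 18 * B → 1 ≤ 4 * N * B / A →
    1 ≤ N ^ 4 * B / (72 * A ^ 3) → ∑ x ∈ pairs N (4 * N * B / A),
      (cnt (4 * N * A) (8 * N * B ^ 2 / A + 1) (12 * N * A ^ 3 / B) x.1 x.2 : ℝ) ≤
      C * ((m : ℝ) ^ η) ^ 18 * m ^ 4 := by
  obtain ⟨c, c0, hc⟩ := rad_sum hη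
  obtain ⟨d, d1, hd⟩ := tau_le hη
  refine ⟨(10 ^ 10 + 1152 * c + 10 ^ 31 * d ^ 3) * ((10 ^ 31) ^ η) ^ 3, by positivity,
    fun N A B m N2 A1 B1 Am Bm hm NB S1 H1 => ?_⟩
  have a1 : (1 : ℝ) ≤ A := by exact_mod_cast A1
  have b1 : (1 : ℝ) ≤ B := by exact_mod_cast B1
  have n2 : (2 : ℝ) ≤ N := by exact_mod_cast N2
  have am : (A : ℝ) ≤ m := by exact_mod_cast Am
  have bm : (B : ℝ) ≤ m := by exact_mod_cast Bm
  have m1 : (1 : ℝ) ≤ m := a1.trans am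
  have a0 : (0 : ℝ) < A := by linarith
  have b0 : (0 : ℝ) < B := by linarith
  obtain ⟨θ, hθ⟩ : ∃ θ : ℝ, θ = N / (A ^ 2 * B) := ⟨_, rfl⟩
  have θ0 : 0 < θ := by rw [hθ]; positivity
  have hn : (N : ℝ) = θ * A ^ 2 * B := by rw [hθ]; field_simp
  have hθm : θ * m ^ 2 ≤ 36 := by
    rw [hθ, div_mul_eq_mul_div, div_le_iff₀ (by positivity)]; exact_mod_cast hm
  obtain ⟨s1, -⟩ := t8_div (x := 4 * N * B) (y := A) A1
  obtain ⟨y1, y2⟩ := t8_div (x := 8 * N * B ^ 2) (y := A) A1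
  obtain ⟨h1, h2⟩ := t8_div (x := N ^ 4 * B) (y := 72 * A ^ 3) (by positivity)
  have hV : 6 * (N ^ 4 * B / (72 * A ^ 3)) * (12 * N * A ^ 3 / B) ≤ N ^ 5 := by
    obtain ⟨v1, -⟩ := t8_div (x := 12 * N * A ^ 3) (y := B) B1
    have : (6 : ℝ) * (N ^ 4 * B / (72 * A ^ 3) : ℕ) * (12 * N * A ^ 3 / B : ℕ) ≤ N ^ 5 :=
      calc _ ≤ (6 : ℝ) * ((N ^ 4 * B : ℕ) / (72 * A ^ 3 : ℕ)) * ((12 * N * A ^ 3 : ℕ) / B) := by
            gcongr
        _ = _ := by push_cast; field_simp; norm_num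
    exact_mod_cast this
  generalize 12 * N * A ^ 3 / B = V at *
  generalize 4 * N * B / A = S at *
  generalize N ^ 4 * B / (72 * A ^ 3) = H at *
  have R0 : 0 < 4 * N * A := by positivity
  have hR : ((4 * N * A : ℕ) : ℝ) = 4 * θ * A ^ 3 * B := by push_cast; rw [hn]; ring
  generalize 4 * N * A = R at *
  have S1' : (1 : ℝ) ≤ S := by exact_mod_cast S1
  have H1' : (1 : ℝ) ≤ H := by exact_mod_cast H1
  have hS : (S : ℝ) ≤ 4 * θ * A * B ^ 2 := s1.trans_eq (by push_cast; rw [hn]; field_simp)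
  have e1 : ((8 * N * B ^ 2 : ℕ) : ℝ) / A = 8 * θ * A * B ^ 3 := by push_cast; rw [hn]; field_simp
  have e2 : ((N ^ 4 * B : ℕ) : ℝ) / (72 * A ^ 3 : ℕ) = θ ^ 4 * A ^ 5 * B ^ 5 / 72 := by
    push_cast; rw [hn]; field_simp
  rw [e1] at y1 y2
  rw [e2] at h1 h2
  have hY : 8 * θ * A * B ^ 3 ≤ ((8 * N * B ^ 2 / A + 1 : ℕ) : ℝ) := by
    rw [Nat.cast_succ]; exact y2.le
  have hY' : ((8 * N * B ^ 2 / A + 1 : ℕ) : ℝ) ≤ 16 * θ * A * B ^ 3 := by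
    rw [Nat.cast_succ]
    have : 4 * θ * A * B ^ 2 * 1 ≤ 4 * θ * A * B ^ 2 * B := by gcongr
    linarith
  have Y0 : 0 < 8 * N * B ^ 2 / A + 1 := Nat.succ_pos _
  generalize 8 * N * B ^ 2 / A + 1 = Y at *
  obtain ⟨K, hK⟩ : ∃ K, K = ⌊21 * θ ^ 2 * m ^ 5⌋₊ := ⟨_, rfl⟩
  have K1 : (K : ℝ) ≤ 21 * θ ^ 2 * m ^ 5 := hK ▸ Nat.floor_le (by positivity)
  have K2 : 21 * θ ^ 2 * m ^ 5 < (K : ℝ) + 1 := hK ▸ Nat.lt_floor_add_one _
  obtain ⟨k1, k2, k3, k4⟩ := t8_par θ0 a0 b0 am bm hn (by positivity) hS hR hY hY' h1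
  have pw : ∀ k : ℕ, θ ^ k * m ^ (2 * k) ≤ 36 ^ k := fun k => by
    rw [pow_mul, ← mul_pow]; gcongr
  have K3 : (K : ℝ) ≤ 27216 * m :=
    calc _ ≤ 21 * (θ ^ 2 * m ^ (2 * 2)) * m := K1.trans_eq (by ring)
      _ ≤ 21 * 36 ^ 2 * m := by gcongr; exact pw 2
      _ = _ := by ring
  have o1 : (H : ℝ) ≤ 10 ^ 31 * m ^ 6 :=
    calc _ ≤ θ ^ 4 * m ^ 5 * m ^ 5 / 72 := h1.trans (by gcongr)
      _ = 1 / 72 * (θ ^ 4 * m ^ (2 * 4)) * m ^ 2 := by ring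
      _ ≤ 1 / 72 * 36 ^ 4 * m ^ 6 := by gcongr; exacts [pw 4, by norm_num]
      _ ≤ _ := by gcongr; norm_num
  have o2 : (20000 : ℝ) * K ^ 6 ≤ 10 ^ 31 * m ^ 6 :=
    calc _ ≤ (20000 : ℝ) * (27216 * m) ^ 6 := by gcongr
      _ = 20000 * 27216 ^ 6 * m ^ 6 := by ring
      _ ≤ _ := by gcongr; norm_num
  have o3 : (50 : ℝ) * K * (N + S) ^ 3 ≤ 10 ^ 31 * m ^ 6 := by
    have t1 : (N : ℝ) ≤ 18 * m := le_trans (by exact_mod_cast NB) (by gcongr : 18 * (B : ℝ) ≤ _)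
    have t2 : (S : ℝ) ≤ 144 * m :=
      calc _ ≤ 4 * θ * m * m ^ 2 := hS.trans (by gcongr)
        _ = 4 * (θ * m ^ 2) * m := by ring
        _ ≤ 4 * 36 * m := by gcongr
        _ = _ := by ring
    calc _ ≤ (50 : ℝ) * (27216 * m) * (18 * m + 144 * m) ^ 3 := by gcongr
      _ = 50 * 27216 * 162 ^ 3 * m ^ 4 := by ring
      _ ≤ _ := by gcongr; all_goals norm_num
  obtain ⟨W, hW⟩ : ∃ W : ℝ, W = (10 ^ 31 * m ^ 6) ^ η := ⟨_, rfl⟩
  have W1 : 1 ≤ W := hW ▸ Real.one_le_rpow (H1'.trans o1) hη.le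
  have hD := wsum_le (N := N) (S := S) (H := H) (K := K) (Ω := 10 ^ 31 * m ^ 6) (τ := d * W)
    (by omega) S1 (one_le_mul_of_one_le_of_one_le d1 W1)
    (fun k k0 hk => hW ▸ hd k k0 _ (by exact_mod_cast hk)) (by exact_mod_cast o1)
    (by exact_mod_cast o2) (by exact_mod_cast o3)
  have Q0 : 0 < √((R : ℝ) * Y) := by positivity
  have hP : (#(pairs N S) : ℝ) ≤ 3 * (N * S) := (t8_pairs N S).trans (by nlinarith)
  have hs := t8_sum (fun x => (cnt R Y V x.1 x.2 : ℝ)) (by positivity) (by positivity)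
    (l := m ^ 4 * H / (√((R : ℝ) * Y) * N * S)) (by positivity)
    (fun x hx => weyl_one N2 R0 Y0 H1 hV (k1.trans_lt K2) (k2.trans_lt K2) (k3.trans_lt K2)
      (k4.trans_lt K2) hx) hP (c := c * W) ((hc H).trans (by rw [hW]; gcongr)) hD
  refine (hs.trans (t8_fin θ0 a0 b0 am bm hθm hn (by positivity) hS hR (by positivity) hY'
    (by linarith) (by positivity) K1 Q0 (Real.sq_sqrt (by positivity)) (by positivity))).trans ?_
  exact t8_last c0 m1 hW W1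

lemma t8_triv {N A B m : ℕ} (N1 : 1 ≤ N) (A1 : 1 ≤ A) (B1 : 1 ≤ B) (Am : A ≤ m) (Bm : B ≤ m)
    (h : N = 1 ∨ 4 * N * B / A = 0 ∨ N ^ 4 * B / (72 * A ^ 3) = 0) :
    ∑ x ∈ pairs N (4 * N * B / A),
      (cnt (4 * N * A) (8 * N * B ^ 2 / A + 1) (12 * N * A ^ 3 / B) x.1 x.2 : ℝ) ≤
      10 ^ 6 * m ^ 4 := by
  have a1 : (1 : ℝ) ≤ A := by exact_mod_cast A1
  have b1 : (1 : ℝ) ≤ B := by exact_mod_cast B1
  have n1 : (1 : ℝ) ≤ N := by exact_mod_cast N1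
  have am : (A : ℝ) ≤ m := by exact_mod_cast Am
  have bm : (B : ℝ) ≤ m := by exact_mod_cast Bm
  have mon := t8_mon (by linarith) (by linarith) am bm
  obtain ⟨s1, s2⟩ := t8_div (x := 4 * N * B) (y := A) A1
  obtain ⟨y1, -⟩ := t8_div (x := 8 * N * B ^ 2) (y := A) A1
  obtain ⟨v1, -⟩ := t8_div (x := 12 * N * A ^ 3) (y := B) B1
  obtain ⟨-, h2⟩ := t8_div (x := N ^ 4 * B) (y := 72 * A ^ 3) (by positivity)
  have h0 := (sum_le_card_nsmul _ _ _ fun x hx => t8_cnt (S := 4 * N * B / A) (4 * N * A)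
    (8 * N * B ^ 2 / A + 1) (12 * N * A ^ 3 / B) N1 hx)
  rw [nsmul_eq_mul, Nat.cast_succ] at h0
  have hp := t8_pairs N (4 * N * B / A)
  have hR : 2 * ((4 * N * A : ℕ) : ℝ) + 1 ≤ 9 * N * A := by push_cast; nlinarith
  generalize 12 * N * A ^ 3 / B = V at *
  generalize 8 * N * B ^ 2 / A = Y at *
  push_cast at s1 s2 y1 v1 h2
  have m4 : (0 : ℝ) ≤ m ^ 4 := by positivity
  by_cases hS : 4 * N * B / A = 0
  · by_cases hN : N = 1
    · subst hN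
      rw [hS] at s2 hp h0 ⊢
      simp only [Nat.cast_zero, Nat.cast_one, mul_zero, zero_add, mul_one, one_pow, div_one] at *
      have t1 : 2 * ((Y : ℝ) + 1) + 1 ≤ 7 * B := by
        have : 8 * (B : ℝ) ^ 2 / A = 2 * B * (4 * B / A) := by ring
        nlinarith
      have t2 : 2 * (V : ℝ) + 1 ≤ 25 * A ^ 3 / B := by
        rw [div_lt_one (by positivity)] at s2
        have : (1 : ℝ) ≤ A ^ 3 / B := (one_le_div (by positivity)).2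
          (le_trans (by linarith) (le_self_pow₀ a1 three_ne_zero))
        have e : 25 * (A : ℝ) ^ 3 / B = 2 * (12 * A ^ 3 / B) + A ^ 3 / B := by ring
        linarith
      calc _ ≤ 1 * (9 * A * (7 * B * (25 * A ^ 3 / B)) : ℝ) := h0.trans (by gcongr)
        _ = 1575 * (A ^ 4 * B ^ 0) := by field_simp; ring
        _ ≤ _ := by have := mon 4 0; norm_num at this ⊢; linarith
    · rw [hS, sum_eq_zero fun x hx => ?_]
      · positivity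
      · obtain ⟨h1, hg⟩ := mem_filter.1 hx
        obtain ⟨h3, h4⟩ := mem_product.1 h1
        have h5 := (mem_Ico.1 h3).1
        have h6 : x.2 = 0 := by simpa using mem_II.1 h4
        rw [h6, Int.gcd_zero_right] at hg
        omega
  · have S1 : (1 : ℝ) ≤ (4 * N * B / A : ℕ) := by exact_mod_cast Nat.pos_of_ne_zero hS
    have t0 : (#(pairs N (4 * N * B / A)) : ℝ) ≤ N * (3 * (4 * N * B / A)) :=
      hp.trans (by gcongr; linarith)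
    have t1 : 2 * ((Y : ℝ) + 1) + 1 ≤ 28 * N * B ^ 2 / A := by
      have e : 28 * (N : ℝ) * B ^ 2 / A = 2 * (8 * N * B ^ 2 / A) + 3 * (4 * N * B / A * B) := by ring
      have : (1 : ℝ) ≤ 4 * N * B / A * B := one_le_mul_of_one_le_of_one_le (S1.trans s1) b1
      linarith
    have t2 : (N : ℝ) ^ 4 * B ^ 3 / A ≤ 72 * m ^ 4 := by
      rcases h with rfl | h | h
      · have : (B : ℝ) ^ 3 / A ≤ A ^ 1 * B ^ 3 := (div_le_self (by positivity) a1).trans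
          (le_mul_of_one_le_left (by positivity) (by simpa using a1))
        have h3 : (A : ℝ) ^ 1 * B ^ 3 ≤ m ^ 4 := mon 1 3
        rw [Nat.cast_one, one_pow, one_mul]
        linarith
      · exact absurd h hS
      · rw [h, Nat.cast_zero, zero_add, div_lt_one (by positivity)] at h2
        calc _ = (N : ℝ) ^ 4 * B * (B ^ 2 / A) := by ring
          _ ≤ 72 * A ^ 3 * (B ^ 2 / A) := by gcongr
          _ = 72 * (A ^ 2 * B ^ 2) := by field_simp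
          _ ≤ _ := by gcongr; exact mon 2 2
    calc _ ≤ N * (3 * (4 * N * B / A)) * (9 * N * A * (28 * N * B ^ 2 / A *
          (2 * (12 * N * A ^ 3 / B) / N ^ 5 + 1)) : ℝ) := h0.trans (by gcongr)
      _ = 72576 * (A ^ 2 * B ^ 2) + 3024 * (N ^ 4 * B ^ 3 / A) := by field_simp; ring
      _ ≤ 72576 * m ^ 4 + 3024 * (72 * m ^ 4) := by gcongr; exact mon 2 2
      _ ≤ _ := by linarith

theorem box_le {ε : ℝ} (hε : 0 < ε) : ∃ C : ℝ, 0 ≤ C ∧ ∀ N A B : ℕ, 1 ≤ N → 1 ≤ A → 1 ≤ B →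
    N ≤ 18 * B → N * B ≤ 36 * A ^ 2 → ∀ M : ℝ, A ≤ M → B ≤ M →
    ∑ x ∈ pairs N (4 * N * B / A),
      (cnt (4 * N * A) (8 * N * B ^ 2 / A + 1) (12 * N * A ^ 3 / B) x.1 x.2 : ℝ) ≤
      C * M ^ (4 + ε) := by
  obtain ⟨C, C0, hC⟩ := t8_main (η := ε / 18) (by positivity)
  refine ⟨C + 10 ^ 6, by positivity, fun N A B N1 A1 B1 h1 h2 M AM BM => ?_⟩
  have hm : ((max A B : ℕ) : ℝ) ≤ M := by push_cast; exact max_le AM BM
  have M1 : 1 ≤ M := le_trans (by exact_mod_cast A1) AM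
  have e : M ^ (4 + ε) = (M ^ (ε / 18)) ^ 18 * M ^ 4 := by
    rw [← Real.rpow_mul_natCast (by positivity), ← Real.rpow_add_natCast (by positivity)]
    congr 1; push_cast; ring
  have W1 : 1 ≤ (M ^ (ε / 18)) ^ 18 := one_le_pow₀ (Real.one_le_rpow M1 (by positivity))
  rw [e]
  by_cases h : N = 1 ∨ 4 * N * B / A = 0 ∨ N ^ 4 * B / (72 * A ^ 3) = 0
  · refine (t8_triv N1 A1 B1 (le_max_left A B) (le_max_right A B) h).trans ?_
    calc (10 : ℝ) ^ 6 * (max A B : ℕ) ^ 4 ≤ (C + 10 ^ 6) * (1 * M ^ 4) := by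
          rw [one_mul]; gcongr; linarith
      _ ≤ _ := by gcongr
  · push Not at h
    have h3 : N * (max A B) ^ 2 ≤ 36 * (A ^ 2 * B) := by
      rcases le_total A B with h | h
      · rw [max_eq_right h]; nlinarith
      · rw [max_eq_left h]; nlinarith
    refine (hC N A B _ (by omega) A1 B1 (le_max_left A B) (le_max_right A B) h3 h1
      (Nat.pos_of_ne_zero h.2.1) (Nat.pos_of_ne_zero h.2.2)).trans ?_
    rw [← mul_assoc]
    gcongr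
    linarith

end

section

open Finset

/-- the tuples counted by one dyadic box -/
noncomputable def t9_G (N A B : ℕ) : Finset (ℤ × ℤ × ℤ × ℤ × ℤ) :=
  (pairs N (4 * N * B / A)).biUnion fun x =>
    ((II (4 * N * A) ×ˢ II (8 * N * B ^ 2 / A + 1) ×ˢ II (12 * N * A ^ 3 / B)).filter fun z =>
      x.1 ^ 5 ∣ Qf x.1 x.2 z.1 z.2.1 - x.2 ^ 5 * z.2.2).image fun w => (x.1, x.2, w)

lemma t9_card (N A B : ℕ) : (#(t9_G N A B) : ℝ) ≤ ∑ x ∈ pairs N (4 * N * B / A),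
    (cnt (4 * N * A) (8 * N * B ^ 2 / A + 1) (12 * N * A ^ 3 / B) x.1 x.2 : ℝ) := by
  rw [← Nat.cast_sum, Nat.cast_le]
  exact card_biUnion_le.trans (sum_le_sum fun x _ => card_image_le)

lemma t9_div {x : ℤ} {a b : ℕ} (ha : 0 < a) (h : |(x : ℝ)| * a ≤ b) : |x| ≤ ((b / a : ℕ) : ℤ) := by
  rw [← Int.natCast_natAbs, Nat.cast_le, Nat.le_div_iff_mul_le ha]
  have : |(x : ℝ)| = (x.natAbs : ℝ) := by rw [← Int.cast_abs, ← Int.natCast_natAbs, Int.cast_natCast]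
  rw [this] at h
  exact_mod_cast h

lemma t9_mem {M : ℝ} {z : ℤ × ℤ × ℤ × ℤ × ℤ} (hz : Good M z) : ∃ i j k : ℕ,
    (2 : ℝ) ^ i ≤ 18 * M ∧ (2 : ℝ) ^ j ≤ 18 * M ∧ (2 : ℝ) ^ k ≤ 18 * M ∧
    (2 ^ i ≤ 18 * 2 ^ (k + 1) ∧ 2 ^ i * 2 ^ (k + 1) ≤ 36 * (2 ^ (j + 1)) ^ 2 ∧
      ((2 ^ (j + 1) : ℕ) : ℝ) ≤ 2 * M ∧ ((2 ^ (k + 1) : ℕ) : ℝ) ≤ 2 * M) ∧
    z ∈ t9_G (2 ^ i) (2 ^ (j + 1)) (2 ^ (k + 1)) := by
  obtain ⟨n, s, r, y, v⟩ := z
  obtain ⟨n0, hg, hd, A, B, A1, B1, AM, BM, hs, hr, hy, hv, h1, h2⟩ := hz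
  dsimp only at n0 hg hd hs hr hy hv h1 h2
  have n1 : (1 : ℝ) ≤ n := by exact_mod_cast n0
  obtain ⟨i, i1, i2⟩ := exists_nat_pow_near n1 one_lt_two
  obtain ⟨j, j1, j2⟩ := exists_nat_pow_near A1 one_lt_two
  obtain ⟨k, k1, k2⟩ := exists_nat_pow_near B1 one_lt_two
  refine ⟨i, j, k, by linarith, by linarith, by linarith, ?_⟩
  have e1 : ((2 ^ i : ℕ) : ℝ) ≤ n ∧ (n : ℝ) < 2 * (2 ^ i : ℕ) := by
    push_cast; exact ⟨i1, by rw [pow_succ] at i2; linarith⟩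
  have e2 : A < (2 ^ (j + 1) : ℕ) ∧ ((2 ^ (j + 1) : ℕ) : ℝ) ≤ 2 * A := by
    push_cast; exact ⟨j2, by rw [pow_succ]; linarith⟩
  have e3 : B < (2 ^ (k + 1) : ℕ) ∧ ((2 ^ (k + 1) : ℕ) : ℝ) ≤ 2 * B := by
    push_cast; exact ⟨k2, by rw [pow_succ]; linarith⟩
  have p1 : 0 < 2 ^ i := by positivity
  have p2 : 0 < 2 ^ (j + 1) := by positivity
  have p3 : 0 < 2 ^ (k + 1) := by positivity
  generalize 2 ^ i = N at *
  generalize 2 ^ (j + 1) = a at *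
  generalize 2 ^ (k + 1) = b at *
  obtain ⟨e1, f1⟩ := e1
  obtain ⟨e2, f2⟩ := e2
  obtain ⟨e3, f3⟩ := e3
  have N0 : (0 : ℝ) ≤ N := by positivity
  refine ⟨⟨?_, ?_, by linarith, by linarith⟩, ?_⟩
  · have : (N : ℝ) ≤ 18 * b := by linarith
    exact_mod_cast this
  · have : (N : ℝ) * b ≤ 36 * a ^ 2 :=
      calc (N : ℝ) * b ≤ n * (2 * B) := by gcongr
        _ ≤ 36 * A ^ 2 := by linarith
        _ ≤ 36 * a ^ 2 := by gcongr
    exact_mod_cast this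
  · refine mem_biUnion.2 ⟨(n, s), ?_, mem_image.2 ⟨(r, y, v), ?_, rfl⟩⟩
    · refine mem_filter.2 ⟨mem_product.2 ⟨mem_Ico.2 ⟨by exact_mod_cast e1, by exact_mod_cast f1⟩,
        mem_II.2 (t9_div p2 ?_)⟩, hg⟩
      push_cast
      calc |(s : ℝ)| * a ≤ |(s : ℝ)| * (2 * A) := by gcongr
        _ ≤ 2 * (n * B) := by linarith
        _ ≤ 2 * ((2 * N) * b) := by gcongr
        _ = _ := by ring
    · refine mem_filter.2 ⟨mem_product.2 ⟨mem_II.2 ?_, mem_product.2 ⟨mem_II.2 ?_,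
        mem_II.2 (t9_div p3 ?_)⟩⟩, hd⟩
      · have : |(r : ℝ)| ≤ 4 * N * a :=
          calc |(r : ℝ)| ≤ 2 * n * A := hr
            _ ≤ 2 * (2 * N) * a := by gcongr
            _ = _ := by ring
        exact_mod_cast this
      · refine (t9_div (b := 8 * N * b ^ 2) p2 ?_).trans (by push_cast; linarith)
        push_cast
        calc |(y : ℝ)| * a ≤ |(y : ℝ)| * (2 * A) := by gcongr
          _ ≤ 4 * (n * B ^ 2) := by linarith
          _ ≤ 4 * ((2 * N) * b ^ 2) := by gcongr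
          _ = _ := by ring
      · push_cast
        calc |(v : ℝ)| * b ≤ |(v : ℝ)| * (2 * B) := by gcongr
          _ ≤ 6 * (n * A ^ 3) := by linarith
          _ ≤ 6 * ((2 * N) * a ^ 3) := by gcongr
          _ = _ := by ring

lemma t9_log {η M : ℝ} (hη : 0 < η) (hM : 1 ≤ M) {i : ℕ} (h : (2 : ℝ) ^ i ≤ 18 * M) :
    (i : ℝ) ≤ 2 * 18 ^ η / η * M ^ η := by
  have h1 := Real.log_le_log (by positivity) h
  rw [Real.log_pow] at h1
  have h2 := Real.log_le_rpow_div (x := 18 * M) (by positivity) hη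
  rw [Real.mul_rpow (by norm_num) (by positivity)] at h2
  have h3 := Real.log_two_gt_d9
  have h4 : (i : ℝ) * (1 / 2) ≤ i * Real.log 2 := by gcongr; linarith
  calc (i : ℝ) ≤ 2 * (18 ^ η * M ^ η / η) := by linarith
    _ = _ := by ring

open Classical in
theorem good_le {ε : ℝ} (hε : 0 < ε) : ∃ C : ℝ, 0 ≤ C ∧ ∀ M : ℝ, 1 ≤ M →
    ∀ E : Finset (ℤ × ℤ × ℤ × ℤ × ℤ), (∀ z ∈ E, Good M z) → (#E : ℝ) ≤ C * M ^ (4 + ε) := by
  obtain ⟨C, C0, hC⟩ := box_le (half_pos hε)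
  have hη : 0 < ε / 6 := by positivity
  set c : ℝ := 2 * 18 ^ (ε / 6) / (ε / 6) with hc
  have c0 : 0 ≤ c := by positivity
  refine ⟨(c + 1) ^ 3 * C * 2 ^ (4 + ε / 2), by positivity, fun M hM E hE => ?_⟩
  set J := ⌊c * M ^ (ε / 6)⌋₊ + 1
  have M1 : 1 ≤ M ^ (ε / 6) := Real.one_le_rpow hM hη.le
  have hJ : (J : ℝ) ≤ (c + 1) * M ^ (ε / 6) := by
    have := Nat.floor_le (a := c * M ^ (ε / 6)) (by positivity)
    simp only [J]
    push_cast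
    linarith
  have hlt : ∀ i : ℕ, (2 : ℝ) ^ i ≤ 18 * M → i ∈ range J := fun i h =>
    mem_range.2 (Nat.lt_succ_of_le (Nat.le_floor (t9_log hη hM h)))
  set P := (range J ×ˢ range J ×ˢ range J).filter fun p : ℕ × ℕ × ℕ =>
    2 ^ p.1 ≤ 18 * 2 ^ (p.2.2 + 1) ∧ 2 ^ p.1 * 2 ^ (p.2.2 + 1) ≤ 36 * (2 ^ (p.2.1 + 1)) ^ 2 ∧
      ((2 ^ (p.2.1 + 1) : ℕ) : ℝ) ≤ 2 * M ∧ ((2 ^ (p.2.2 + 1) : ℕ) : ℝ) ≤ 2 * M
  have hsub : E ⊆ P.biUnion fun p => t9_G (2 ^ p.1) (2 ^ (p.2.1 + 1)) (2 ^ (p.2.2 + 1)) := by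
    intro z hz
    obtain ⟨i, j, k, hi, hj, hk, h1, h2⟩ := t9_mem (hE z hz)
    exact mem_biUnion.2 ⟨(i, j, k), mem_filter.2 ⟨mem_product.2 ⟨hlt i hi,
      mem_product.2 ⟨hlt j hj, hlt k hk⟩⟩, h1⟩, h2⟩
  have hP : (#P : ℝ) ≤ (J : ℝ) ^ 3 := by
    have : #P ≤ J ^ 3 := (card_filter_le _ _).trans (by simp [pow_succ, mul_assoc])
    exact_mod_cast this
  calc (#E : ℝ) ≤ ∑ p ∈ P, (#(t9_G (2 ^ p.1) (2 ^ (p.2.1 + 1)) (2 ^ (p.2.2 + 1))) : ℝ) := by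
        exact_mod_cast (card_le_card hsub).trans card_biUnion_le
    _ ≤ ∑ _p ∈ P, C * (2 * M) ^ (4 + ε / 2) := sum_le_sum fun p hp => by
        obtain ⟨-, h1, h2, h3, h4⟩ := mem_filter.1 hp
        exact (t9_card _ _ _).trans (hC _ _ _ Nat.one_le_two_pow Nat.one_le_two_pow
          Nat.one_le_two_pow h1 h2 _ h3 h4)
    _ ≤ ((c + 1) * M ^ (ε / 6)) ^ 3 * (C * (2 * M) ^ (4 + ε / 2)) := by
        rw [sum_const, nsmul_eq_mul]
        gcongr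
        exact hP.trans (by gcongr)
    _ = _ := by
        have e : M ^ (4 + ε) = (M ^ (ε / 6)) ^ 3 * M ^ (4 + ε / 2) := by
          rw [← Real.rpow_natCast, ← Real.rpow_mul (by positivity), ← Real.rpow_add (by positivity)]
          congr 1; push_cast; ring
        rw [Real.mul_rpow (by norm_num) (by positivity), e]; ring

end

section

open QuadraticAlgebra Ideal H72 Finset

open Classical in
theorem torsion_le_card {d : ℤ} (hs : Squarefree d) (h1 : d ≠ 1) {M : ℝ}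
    (hM : 3 * √(√(4 * |(d : ℝ)|)) ≤ M) : ∃ T : Finset (ℤ × ℤ × ℤ × ℤ × ℤ), torsion 5 d ≤ 1 + 4 * #T ∧
      ∀ z ∈ T, Good M z ∧ ∃ w g : ℤ, g ≠ 0 ∧ Rel z w (d * g ^ 2) := by
  obtain ⟨a, b, f, _, _, hb, hf, hD, he⟩ := torsion_eq hs h1 5
  have d1 : 1 ≤ |d| := Int.one_le_abs hs.ne_zero
  have f1 : 1 ≤ f ^ 2 ∧ f ^ 2 ≤ 4 := by rcases hf with rfl | rfl <;> norm_num
  have hA : |b ^ 2 + 4 * a| = f ^ 2 * |d| := by rw [hD, abs_mul, abs_of_nonneg (sq_nonneg f)]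
  have hA1 : 1 ≤ |b ^ 2 + 4 * a| := by rw [hA]; nlinarith
  have hA2 : |b ^ 2 + 4 * a| ≤ 4 * |d| := by rw [hA]; nlinarith
  have D0 : b ^ 2 + 4 * a ≠ 0 := abs_pos.1 (by linarith)
  have f0 : f ≠ 0 := by rintro rfl; simp at f1
  set Δ := √|((b ^ 2 + 4 * a : ℤ) : ℝ)| with hΔ'
  have hΔ : Δ ^ 2 = |((b ^ 2 + 4 * a : ℤ) : ℝ)| := Real.sq_sqrt (abs_nonneg _)
  have Δ1 : 1 ≤ Δ := Real.one_le_sqrt.2 (by exact_mod_cast hA1)
  have hM' : 3 * √Δ ≤ M := by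
    refine le_trans ?_ hM
    have : |((b ^ 2 + 4 * a : ℤ) : ℝ)| ≤ 4 * |(d : ℝ)| := by exact_mod_cast hA2
    gcongr
    exact Real.sqrt_le_sqrt this
  obtain ⟨δ, hδ⟩ : ∃ δ : ℂ, δ * δ = b ^ 2 + 4 * a := by
    obtain ⟨δ, h⟩ := IsAlgClosed.exists_eq_mul_self ((b : ℂ) ^ 2 + 4 * a)
    exact ⟨δ, h.symm⟩
  have hδ' : ‖δ‖ = Δ := by
    refine (pow_left_inj₀ (norm_nonneg _) (by linarith) two_ne_zero).1 ?_
    rw [hΔ, pow_two, ← norm_mul, hδ, ← Complex.norm_intCast]; push_cast; rfl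
  have key : ∀ c : ClassGroup (QuadraticAlgebra ℤ a b), c ^ 5 = 1 ∧ c ≠ 1 →
      ∃ (z : ℤ × ℤ × ℤ × ℤ × ℤ) (w G : ℤ) (e : Bool) (α : QuadraticAlgebra ℤ a b)
        (J : nonZeroDivisors (Ideal (QuadraticAlgebra ℤ a b))), Good M z ∧ 0 < G ∧
        Rel z w ((b ^ 2 + 4 * a) * G ^ 2) ∧ α.im = G * z.2.2.2.2 ∧ α.norm = w ^ 5 ∧
        span {α} = J.1 ^ 5 ∧ c = if e then (ClassGroup.mk0 J)⁻¹ else ClassGroup.mk0 J ^ 2 := by
    rintro c ⟨c1, c2⟩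
    obtain ⟨a₁, a₂, b₁, b₂, n, s, r, y, v, u, w, x, G, α, α', J, J', G0, hS, w0, x0, hc, hA, hB,
      ⟨p1, p2, p3, p4⟩, q1, q2, q3, q4⟩ := exists_sys hb Δ1 hΔ hδ c c1 c2
    have G1 : (1 : ℝ) ≤ G := by exact_mod_cast G0
    obtain ⟨z, z1, ⟨z2, z3⟩ | ⟨z2, z3⟩⟩ := hS.side (D := (b ^ 2 + 4 * a) * G ^ 2) Δ1 (by
      rw [norm_mul, hδ', Complex.norm_intCast, abs_of_pos (by linarith)]
      nlinarith) (by push_cast; linear_combination (G : ℂ) ^ 2 * hδ) w0 x0 hc hA hB hM'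
    · exact ⟨z, w, G, true, α, J, z1, G0, z2, z3 ▸ p1, p2, p3, by simpa using p4⟩
    · exact ⟨z, x, G, false, α', J', z1, G0, z2, z3 ▸ q1, q2, q3, by simpa using q4⟩
  choose! z w G e α J k1 k2 k3 k4 k5 k6 k7 using key
  let _ := Fintype.ofFinite (ClassGroup (QuadraticAlgebra ℤ a b))
  set S := (univ : Finset (ClassGroup (QuadraticAlgebra ℤ a b))).filter fun c => c ^ 5 = 1 ∧ c ≠ 1
    with hS
  have mS : ∀ c ∈ S, c ^ 5 = 1 ∧ c ≠ 1 := fun c hc => (mem_filter.1 hc).2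
  refine ⟨S.image z, ?_, fun t ht => ?_⟩
  · have c1 : #S ≤ #(S.image z ×ˢ (univ : Finset Bool) ×ˢ (univ : Finset Bool)) := by
      refine card_le_card_of_injOn (fun c => (z c, e c, decide (0 ≤ 2 * (α c).re + b * (α c).im)))
        (fun c hc => mem_coe.2 (mem_product.2 ⟨mem_image_of_mem z hc,
          mem_product.2 ⟨mem_univ _, mem_univ _⟩⟩)) fun c hc c' hc' h => ?_
      simp only [Prod.mk.injEq, decide_eq_decide] at h
      obtain ⟨h2, h3, h4⟩ := h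
      have m := mS c hc
      have m' := mS c' hc'
      obtain ⟨e1, e2⟩ := (k3 c m).unique (k1 c m).1.ne' (h2 ▸ k3 c' m')
      have e3 : G c = G c' := (pow_left_inj₀ (k2 c m).le (k2 c' m').le two_ne_zero).1
        (mul_left_cancel₀ D0 e2)
      have e4 : (α c).im = (α c').im := by rw [k4 c m, k4 c' m', e3, h2]
      have e5 : (α c).norm = (α c').norm := by rw [k5 c m, k5 c' m', e1]
      rw [norm_def, norm_def, e4] at e5
      rw [e4] at h4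
      have e6 : (2 * (α c).re + b * (α c').im) ^ 2 = (2 * (α c').re + b * (α c').im) ^ 2 := by
        linear_combination 4 * e5
      have e7 : (α c).re = (α c').re := by
        rcases sq_eq_sq_iff_eq_or_eq_neg.1 e6 with h | h <;> omega
      have e8 : J c = J c' := Subtype.ext (ideal_pow_inj (n := 5) (by norm_num) (by
        rw [← k6 c m, ← k6 c' m', QuadraticAlgebra.ext e7 e4]))
      rw [k7 c m, k7 c' m', h3, e8]
    rw [card_product, card_product, card_univ, Fintype.card_bool] at c1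
    rw [he, Nat.card_eq_fintype_card, Fintype.card_subtype]
    refine (card_le_card (t := insert 1 S) fun c hc => ?_).trans ((card_insert_le _ _).trans (by omega))
    rcases eq_or_ne c 1 with h | h
    · exact h ▸ mem_insert_self _ _
    · exact mem_insert_of_mem (mem_filter.2 ⟨mem_univ _, (mem_filter.1 hc).2, h⟩)
  · obtain ⟨c, hc, rfl⟩ := mem_image.1 ht
    have m := mS c hc
    refine ⟨k1 c m, w c, f * G c, mul_ne_zero f0 (k2 c m).ne', ?_⟩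
    convert k3 c m using 1
    rw [hD]; ring

open Classical in
theorem five_mean {ε : ℝ} (hε : 0 < ε) : ∀ᶠ N : ℕ in Filter.atTop,
    ∑ d ∈ (Icc (-(N : ℤ)) N).filter (fun d => Squarefree d ∧ d ≠ 1), (torsion 5 d : ℝ) ≤
      (N : ℝ) ^ (1 + ε) := by
  obtain ⟨C, C0, hC⟩ := good_le (ε := ε) hε
  have h0 : ∀ᶠ x : ℝ in Filter.atTop, 3 + 4 * C * (324 * 36 ^ (ε / 2)) ≤ x ^ (ε / 2) :=
    (tendsto_rpow_atTop (half_pos hε)).eventually_ge_atTop _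
  filter_upwards [tendsto_natCast_atTop_atTop.eventually h0, Filter.eventually_ge_atTop 1] with N hN N1
  have N1' : (1 : ℝ) ≤ N := by exact_mod_cast N1
  have N0 : (0 : ℝ) < N := by linarith
  set D := (Icc (-(N : ℤ)) N).filter fun d => Squarefree d ∧ d ≠ 1 with hD
  set M := 3 * √(√(4 * (N : ℝ))) with hM
  have M1 : 1 ≤ √(√(4 * (N : ℝ))) := Real.one_le_sqrt.2 (Real.one_le_sqrt.2 (by linarith))
  have M4 : M ^ 4 = 324 * N := by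
    rw [hM, mul_pow, show 4 = 2 * 2 by rfl, pow_mul (√_), Real.sq_sqrt (Real.sqrt_nonneg _),
      Real.sq_sqrt (by positivity)]
    ring
  have key : ∀ d ∈ D, ∃ T : Finset (ℤ × ℤ × ℤ × ℤ × ℤ), torsion 5 d ≤ 1 + 4 * #T ∧
      ∀ z ∈ T, Good M z ∧ ∃ w g : ℤ, g ≠ 0 ∧ Rel z w (d * g ^ 2) := fun d hd => by
    obtain ⟨a1, a2, a3⟩ := mem_filter.1 hd
    refine torsion_le_card a2 a3 ?_
    have : |(d : ℝ)| ≤ N := by exact_mod_cast abs_le.2 (mem_Icc.1 a1)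
    rw [hM]
    gcongr
  choose! T t1 t2 using key
  have disj : (D : Set ℤ).PairwiseDisjoint T := fun d hd d' hd' hne => by
    refine disjoint_left.2 fun z hz hz' => hne ?_
    obtain ⟨a1, w, g, g0, a2⟩ := t2 d hd z hz
    obtain ⟨-, w', g', g0', a2'⟩ := t2 d' hd' z hz'
    have e := (a2.unique a1.1.ne' a2').2
    have d1 := sqf_dvd (mem_filter.1 hd).2.1 (g := g') (v := g) ⟨d', by rw [e, mul_comm]⟩
    have d2 := sqf_dvd (mem_filter.1 hd').2.1 (g := g) (v := g') ⟨d, by rw [← e, mul_comm]⟩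
    have e2 : g ^ 2 = g' ^ 2 := by
      rcases Int.associated_iff.1 (associated_of_dvd_dvd d1 d2) with h | h <;> rw [h]
      ring
    rw [e2] at e
    exact mul_right_cancel₀ (pow_ne_zero 2 g0') e
  have c1 := hC M (by rw [hM]; linarith) (D.biUnion T) fun z hz => by
    obtain ⟨d, hd, hz⟩ := mem_biUnion.1 hz
    exact (t2 d hd z hz).1
  rw [card_biUnion disj] at c1
  have c2 : ∑ d ∈ D, torsion 5 d ≤ 2 * N + 1 + 4 * ∑ d ∈ D, #(T d) := by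
    refine (sum_le_sum t1).trans ?_
    rw [sum_add_distrib, ← mul_sum, sum_const, smul_eq_mul, mul_one]
    have : #D ≤ 2 * N + 1 := (card_filter_le _ _).trans (by rw [Int.card_Icc]; omega)
    omega
  have c3 := (Nat.cast_le (α := ℝ)).2 c2
  rw [Nat.cast_add, Nat.cast_mul 4, Nat.cast_sum] at c3
  have M0 : 0 < M := by rw [hM]; linarith
  have X1 : 1 ≤ (N : ℝ) ^ (ε / 2) := Real.one_le_rpow N1' (half_pos hε).le
  have c4 : M ^ ε ≤ 36 ^ (ε / 2) * (N : ℝ) ^ (ε / 2) := by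
    rw [← Real.mul_rpow (by norm_num) N0.le, show ε = 2 * (ε / 2) by ring, Real.rpow_mul M0.le,
      show 2 * (ε / 2) / 2 = ε / 2 by ring]
    refine Real.rpow_le_rpow (by positivity) ?_ (half_pos hε).le
    rw [Real.rpow_two]
    refine le_of_sq_le_sq ?_ (by positivity)
    rw [← pow_mul, M4]
    nlinarith
  rw [Real.rpow_add M0, show (4 : ℝ) = (4 : ℕ) by norm_num, Real.rpow_natCast, M4] at c1
  rw [show 1 + ε = 1 + ε / 2 + ε / 2 by ring, Real.rpow_add N0, Real.rpow_add N0, Real.rpow_one]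
  refine c3.trans ?_
  push_cast at c1 ⊢
  have c5 : C * (324 * N * M ^ ε) ≤ C * (324 * N * (36 ^ (ε / 2) * (N : ℝ) ^ (ε / 2))) := by gcongr
  have c6 := mul_le_mul_of_nonneg_left hN (show 0 ≤ N * (N : ℝ) ^ (ε / 2) by positivity)
  nlinarith [mul_le_mul_of_nonneg_left X1 N0.le]

end

end Pool.Agent.MP_d0fd9b_nt.H68
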