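import Pool.Agent.MP_d0fd9b_nt.H68.Base

/-! The Weyl step: a finite double large sieve and the differenced system. -/

set_option autoImplicit false

namespace Pool.Agent.MP_d0fd9b_nt.H68

section

open Finset

lemma t1_ee_nat (n : ℕ) (x : ℝ) : ee (n * x) = ee x ^ n := by
  rw [ee, ee, ← Complex.exp_nat_mul]; push_cast; ring_nf

lemma t1_orth {Q : ℕ} (hQ : 0 < Q) (a m : ℤ) :
    ∑ u ∈ Ico a (a + Q), ee (((u * m : ℤ) : ℝ) / Q) = if (Q : ℤ) ∣ m then (Q : ℂ) else 0 := by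
  have hQ' : (Q : ℝ) ≠ 0 := by positivity
  split_ifs with h
  · obtain ⟨k, rfl⟩ := h
    rw [sum_congr rfl (g := fun _ => (1 : ℂ))]
    · simp
    · intro u _
      rw [← ee_int (u * k)]; congr 1; push_cast; field_simp
  · have e : ∑ u ∈ Ico a (a + Q), ee (((u * m : ℤ) : ℝ) / Q) =
        ee (((a * m : ℤ) : ℝ) / Q) * ∑ i ∈ range Q, ee ((m : ℝ) / Q) ^ i := by
      rw [Int.Ico_eq_finset_map, sum_map, mul_sum]
      simp only [add_sub_cancel_left, Int.toNat_natCast]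
      refine sum_congr rfl fun i _ => ?_
      rw [← t1_ee_nat, ← ee_add]; congr 1
      simp only [Function.Embedding.trans_apply, Nat.castEmbedding_apply, addLeftEmbedding_apply]
      push_cast; ring
    have hz : ee ((m : ℝ) / Q) ≠ 1 := by
      intro h1
      rw [ee, Complex.exp_eq_one_iff] at h1
      obtain ⟨k, hk⟩ := h1
      apply h
      have h2 : (((m : ℝ) / Q : ℝ) : ℂ) = k := by
        have h3 : (2 * Real.pi * Complex.I : ℂ) ≠ 0 := Complex.two_pi_I_ne_zero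
        apply mul_right_cancel₀ h3
        rw [← hk]; ring
      have h4 : (m : ℝ) / Q = k := by exact_mod_cast h2
      refine ⟨k, ?_⟩
      have h5 : (m : ℝ) = Q * k := by rw [← h4]; field_simp
      exact_mod_cast h5
    rw [e, geom_sum_eq hz, ← t1_ee_nat, show (Q : ℝ) * (m / Q) = ((m : ℤ) : ℝ) by field_simp, ee_int]
    simp

lemma t1_sq {ι : Type} (M : Finset ι) (f : ι → ℂ) :
    ((‖∑ i ∈ M, f i‖ ^ 2 : ℝ) : ℂ) = ∑ i ∈ M, ∑ j ∈ M, f i * (starRingEnd ℂ) (f j) := by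
  rw [← Complex.normSq_eq_norm_sq, ← Complex.mul_conj, map_sum, sum_mul_sum]

open Classical in
lemma t1_ker {q L : ℕ} (hq : 0 < q) (hL : 0 < L) :
    ∃ (U : Finset ℤ) (W : ℤ → ℝ), II L ⊆ U ∧ (∀ u, 0 ≤ W u) ∧ (∀ u ∈ II L, 1 ≤ W u) ∧
      ∀ m : ℤ, ‖∑ u ∈ U, (W u : ℂ) * ee (((u * m : ℤ) : ℝ) / q)‖ ≤
        if Cl q L m then 24 * (L : ℝ) else 0 := by
  have hq' : (0 : ℝ) < q := by positivity
  have hL' : (0 : ℝ) < L := by positivity
  have hQ : 0 < 6 * q * L := by positivity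
  refine ⟨Ico (-(L : ℤ)) (-(L : ℤ) + (6 * q * L : ℕ)),
    fun u => 4 / (q : ℝ) ^ 2 * ‖∑ j ∈ range q, ee (j * ((u : ℝ) / (6 * q * L : ℕ)))‖ ^ 2,
    fun u hu => ?_, fun u => by positivity, fun u hu => ?_, fun m => ?_⟩
  · rw [mem_II, abs_le] at hu
    rw [mem_Ico]
    refine ⟨hu.1, ?_⟩
    have : (1 : ℤ) ≤ q := by exact_mod_cast hq
    have : (0 : ℤ) < L := by exact_mod_cast hL
    push_cast; nlinarith [hu.2]
  · rw [mem_II] at hu
    have hu' : |(u : ℝ)| ≤ L := by exact_mod_cast hu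
    have h := half_le_norm_sum (J := q) (x := (u : ℝ) / (6 * q * L : ℕ)) (by
      rw [abs_div, Nat.abs_cast]; push_cast
      rw [← mul_div_assoc, div_le_div_iff₀ (by positivity) (by norm_num)]; nlinarith)
    have h2 := pow_le_pow_left₀ (by positivity) h 2
    calc (1 : ℝ) = 4 / (q : ℝ) ^ 2 * ((q : ℝ) / 2) ^ 2 := by field_simp; norm_num
      _ ≤ _ := mul_le_mul_of_nonneg_left h2 (by positivity)
  · have e : ∑ u ∈ Ico (-(L : ℤ)) (-(L : ℤ) + (6 * q * L : ℕ)),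
        ((4 / (q : ℝ) ^ 2 * ‖∑ j ∈ range q, ee (j * ((u : ℝ) / (6 * q * L : ℕ)))‖ ^ 2 : ℝ) : ℂ) *
          ee (((u * m : ℤ) : ℝ) / q) =
        ((4 / (q : ℝ) ^ 2 : ℝ) : ℂ) * ∑ k ∈ range q, ∑ j ∈ range q,
          if ((6 * q * L : ℕ) : ℤ) ∣ 6 * L * m + j - k then ((6 * q * L : ℕ) : ℂ) else 0 := by
      simp_rw [← t1_orth hQ (-(L : ℤ))]
      rw [sum_comm]
      simp_rw [sum_comm (s := range q) (t := Ico _ _)]
      rw [mul_sum]
      refine sum_congr rfl fun u _ => ?_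
      rw [Complex.ofReal_mul, t1_sq, mul_assoc, sum_mul]
      congr 1
      refine sum_congr rfl fun j _ => ?_
      rw [sum_mul]
      refine sum_congr rfl fun k _ => ?_
      rw [conj_ee, ← ee_add, ← ee_add]; congr 1
      push_cast; field_simp; ring
    rw [e, norm_mul, Complex.norm_real, Real.norm_of_nonneg (by positivity)]
    split_ifs with hc
    · have h1 : ∀ k ∈ range q, ‖∑ j ∈ range q,
          if ((6 * q * L : ℕ) : ℤ) ∣ 6 * L * m + j - k then ((6 * q * L : ℕ) : ℂ) else 0‖ ≤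
          6 * q * L := by
        intro k _
        rw [← sum_filter, sum_const, nsmul_eq_mul, norm_mul, Complex.norm_natCast,
          Complex.norm_natCast]
        have : #((range q).filter fun j : ℕ => ((6 * q * L : ℕ) : ℤ) ∣ 6 * L * m + j - k) ≤ 1 := by
          refine card_le_one.2 fun a ha b hb => ?_
          rw [mem_filter, mem_range] at ha hb
          have h2 := dvd_sub ha.2 hb.2
          rw [show 6 * L * m + a - k - (6 * L * m + b - k) = (a : ℤ) - b by ring] at h2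
          have h3 : q ≤ 6 * q * L := by nlinarith
          have := Int.eq_zero_of_abs_lt_dvd h2 (by rw [abs_lt]; omega)
          omega
        have h4 : (#((range q).filter fun j : ℕ =>
          ((6 * q * L : ℕ) : ℤ) ∣ 6 * L * m + j - k) : ℝ) ≤ 1 := by exact_mod_cast this
        refine (mul_le_of_le_one_left (by positivity) h4).trans (le_of_eq ?_)
        push_cast; ring
      have h2 := (norm_sum_le _ _).trans (sum_le_card_nsmul _ _ _ h1)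
      rw [card_range, nsmul_eq_mul] at h2
      calc _ ≤ 4 / (q : ℝ) ^ 2 * (q * (6 * q * L)) := by gcongr
        _ = _ := by field_simp; ring
    · rw [sum_eq_zero fun k hk => sum_eq_zero fun j hj => if_neg ?_]
      · simp
      · rintro ⟨i, hi⟩
        rw [mem_range] at hk hj
        refine hc ⟨m - q * i, ?_, ⟨i, by ring⟩⟩
        have h5 : (6 : ℤ) * L * |m - q * i| = |(k : ℤ) - j| := by
          rw [show (k : ℤ) - j = 6 * L * (m - q * i) by push_cast at hi; linarith, abs_mul,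
            abs_of_nonneg (by positivity : (0 : ℤ) ≤ 6 * L)]
        rw [h5, abs_lt]; omega

open Classical in
theorem dls2 {ι : Type} (M : Finset ι) (c : ι → ℂ) (hc : ∀ i ∈ M, ‖c i‖ ≤ 1) (m₁ m₂ : ι → ℤ)
    (q L₁ L₂ : ℕ) (hq : 0 < q) (h₁ : 0 < L₁) (h₂ : 0 < L₂) :
    ∑ u ∈ II L₁ ×ˢ II L₂, ‖∑ i ∈ M, c i * ee (((u.1 * m₁ i + u.2 * m₂ i : ℤ) : ℝ) / q)‖ ^ 2 ≤
      576 * L₁ * L₂ *
        (#((M ×ˢ M).filter fun p => Cl q L₁ (m₁ p.1 - m₁ p.2) ∧ Cl q L₂ (m₂ p.1 - m₂ p.2)) : ℝ) := by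
  obtain ⟨U₁, W₁, s₁, n₁, o₁, k₁⟩ := t1_ker hq h₁
  obtain ⟨U₂, W₂, s₂, n₂, o₂, k₂⟩ := t1_ker hq h₂
  set g : ℤ × ℤ → ℝ := fun u =>
    ‖∑ i ∈ M, c i * ee (((u.1 * m₁ i + u.2 * m₂ i : ℤ) : ℝ) / q)‖ ^ 2 with hg
  have a1 : ∑ u ∈ II L₁ ×ˢ II L₂, g u ≤ ∑ u ∈ U₁ ×ˢ U₂, W₁ u.1 * W₂ u.2 * g u := by
    refine le_trans (sum_le_sum fun u hu => ?_) (sum_le_sum_of_subset_of_nonneg
      (product_subset_product s₁ s₂) fun u _ _ => mul_nonneg (mul_nonneg (n₁ _) (n₂ _)) (by positivity))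
    rw [mem_product] at hu
    exact le_mul_of_one_le_left (by positivity) (one_le_mul_of_one_le_of_one_le (o₁ _ hu.1) (o₂ _ hu.2))
  have e : ((∑ u ∈ U₁ ×ˢ U₂, W₁ u.1 * W₂ u.2 * g u : ℝ) : ℂ) =
      ∑ p ∈ M ×ˢ M, c p.1 * (starRingEnd ℂ) (c p.2) *
        ((∑ u ∈ U₁, (W₁ u : ℂ) * ee (((u * (m₁ p.1 - m₁ p.2) : ℤ) : ℝ) / q)) *
          ∑ u ∈ U₂, (W₂ u : ℂ) * ee (((u * (m₂ p.1 - m₂ p.2) : ℤ) : ℝ) / q)) := by
    simp_rw [sum_mul_sum, ← sum_product', mul_sum]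
    rw [sum_comm, Complex.ofReal_sum]
    refine sum_congr rfl fun u _ => ?_
    rw [Complex.ofReal_mul, hg, t1_sq, ← sum_product', mul_sum]
    refine sum_congr rfl fun p _ => ?_
    have e2 : ee (((u.1 * m₁ p.1 + u.2 * m₂ p.1 : ℤ) : ℝ) / q) *
        ee (-(((u.1 * m₁ p.2 + u.2 * m₂ p.2 : ℤ) : ℝ) / q)) =
        ee (((u.1 * (m₁ p.1 - m₁ p.2) : ℤ) : ℝ) / q) * ee (((u.2 * (m₂ p.1 - m₂ p.2) : ℤ) : ℝ) / q) := by
      rw [← ee_add, ← ee_add]; congr 1; push_cast; ring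
    rw [map_mul, conj_ee, Complex.ofReal_mul]
    linear_combination (W₁ u.1 * W₂ u.2 * c p.1 * (starRingEnd ℂ) (c p.2) : ℂ) * e2
  refine a1.trans ((le_abs_self _).trans ?_)
  rw [← Real.norm_eq_abs, ← Complex.norm_real, e, card_filter, Nat.cast_sum, mul_sum]
  refine (norm_sum_le _ _).trans (sum_le_sum fun p hp => ?_)
  rw [mem_product] at hp
  rw [norm_mul, norm_mul, norm_mul, Complex.norm_conj]
  have b1 := mul_le_one₀ (hc _ hp.1) (norm_nonneg _) (hc _ hp.2)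
  refine (mul_le_of_le_one_left (by positivity) b1).trans ?_
  refine (mul_le_mul (k₁ _) (k₂ _) (norm_nonneg _) (by split_ifs <;> positivity)).trans ?_
  by_cases c1 : Cl q L₁ (m₁ p.1 - m₁ p.2) <;> by_cases c2 : Cl q L₂ (m₂ p.1 - m₂ p.2) <;>
    simp [c1, c2]
  linarith

end

section

open Finset

theorem t2_alg {n s σ k u₁ u₂ t₁ t₂ : ℤ} (hn : n ≠ 0) (hs : s ≠ 0) (hc : IsCoprime n s)
    (hσ : n ^ 5 ∣ σ * s ^ 5 - 1)
    (h₁ : n ^ 5 ∣ k * σ * s ^ 2 * (2 * s ^ 2 * u₁ - n ^ 2 * u₂) - t₁)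
    (h₂ : n ^ 5 ∣ -(k * σ * n ^ 2 * (s ^ 2 * u₁ + 2 * n ^ 2 * u₂)) - t₂) :
    ∃ e c f g : ℤ, t₂ = -(n ^ 2 * c) ∧ 2 * s ^ 2 * c - t₁ = n ^ 2 * g ∧
      n ^ 5 * e = k * (2 * s ^ 2 * u₁ - n ^ 2 * u₂) - s ^ 3 * t₁ ∧
      F2 n s (e, c, f, g) = 5 * k * u₁ ∧ F1 n s (e, c, f, g) = 5 * k * u₂ := by
  obtain ⟨w, hw⟩ := hσ
  obtain ⟨x, hx⟩ := h₁
  obtain ⟨y, hy⟩ := h₂
  obtain ⟨e, he⟩ : ∃ e, n ^ 5 * e = k * (2 * s ^ 2 * u₁ - n ^ 2 * u₂) - s ^ 3 * t₁ :=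
    ⟨s ^ 3 * x - k * (2 * s ^ 2 * u₁ - n ^ 2 * u₂) * w, by
      linear_combination (-s ^ 3) * hx + k * (2 * s ^ 2 * u₁ - n ^ 2 * u₂) * hw⟩
  obtain ⟨c, hc'⟩ : ∃ c, c = k * σ * (s ^ 2 * u₁ + 2 * n ^ 2 * u₂) + n ^ 3 * y := ⟨_, rfl⟩
  have ht : t₂ = -(n ^ 2 * c) := by rw [hc']; linear_combination -hy
  obtain ⟨e₂, he₂⟩ : ∃ e₂, k * (s ^ 2 * u₁ + 2 * n ^ 2 * u₂) = s ^ 5 * c + n ^ 3 * e₂ :=
    ⟨-(s ^ 5 * y) - k * (s ^ 2 * u₁ + 2 * n ^ 2 * u₂) * n ^ 2 * w, by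
      rw [hc']; linear_combination (-(k * (s ^ 2 * u₁ + 2 * n ^ 2 * u₂))) * hw⟩
  obtain ⟨f, hf⟩ : s ^ 2 ∣ 2 * n ^ 2 * e + e₂ :=
    (hc.symm.pow (m := 2) (n := 3)).dvd_of_dvd_mul_left
      ⟨5 * k * u₁ - 2 * s * t₁ - s ^ 3 * c, by linear_combination 2 * he - he₂⟩
  obtain ⟨g, hg⟩ : n ^ 2 ∣ 2 * s ^ 2 * c - t₁ :=
    (hc.pow (m := 2) (n := 3)).dvd_of_dvd_mul_left
      ⟨5 * k * u₂ - 2 * n * e₂ + n ^ 3 * e, by linear_combination -he - 2 * he₂⟩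
  refine ⟨e, c, f, g, ht, hg, he, ?_, ?_⟩
  · apply mul_left_cancel₀ (pow_ne_zero 2 hs)
    simp only [F2]
    linear_combination 2 * he - he₂ - n ^ 3 * hf + 2 * s ^ 3 * hg
  · apply mul_left_cancel₀ (pow_ne_zero 2 hn)
    simp only [F1]
    linear_combination -he - 2 * he₂ - 2 * n ^ 3 * hf - s ^ 3 * hg

theorem t2_mem {K : ℕ} {x : ℤ} (h : |(x : ℝ)| < K + 1) : x ∈ II K := by
  rw [mem_II]
  have : |x| < K + 1 := by exact_mod_cast h
  omega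

theorem t2_size {N S R Y H K n s k u₁ u₂ t₁ e c f g : ℝ} (hN : 0 < N) (hR : 0 < R) (hY : 0 < Y)
    (k1 : N ^ 3 / Y < K) (k2 : S ^ 2 * N / Y + N ^ 3 / R < K)
    (k3 : H * (4 * S ^ 2 * R / N ^ 5 + 2 * Y / N ^ 3) + S ^ 3 / R < K)
    (k4 : 10 * H * R / N ^ 3 + S ^ 3 / Y + S * N ^ 2 / R < K)
    (n1 : N ≤ n) (n2 : n ≤ 2 * N) (hs : |s| ≤ S) (hk : |k| ≤ H) (hu₁ : |u₁| ≤ 2 * R)
    (hu₂ : |u₂| ≤ 2 * Y) (ht : 12 * R * |t₁| ≤ n ^ 5) (hc : 12 * Y * |c| ≤ n ^ 3)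
    (hg : 2 * s ^ 2 * c - t₁ = n ^ 2 * g)
    (he : n ^ 5 * e = k * (2 * s ^ 2 * u₁ - n ^ 2 * u₂) - s ^ 3 * t₁)
    (hf : 5 * c * s ^ 3 - 2 * g * n ^ 2 * s + f * n ^ 3 = 5 * k * u₁) :
    |e| < K ∧ |c| < K ∧ |f| < K ∧ |g| < K := by
  have hn : 0 < n := by linarith
  have hS : 0 ≤ S := (abs_nonneg _).trans hs
  have hH : 0 ≤ H := (abs_nonneg _).trans hk
  have c1 : |c| ≤ n ^ 3 / (12 * Y) := by rw [le_div_iff₀ (by positivity)]; linarith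
  have t1 : |t₁| ≤ n ^ 5 / (12 * R) := by rw [le_div_iff₀ (by positivity)]; linarith
  have g1 : |g| ≤ S ^ 2 * n / (6 * Y) + n ^ 3 / (12 * R) := by
    refine le_of_mul_le_mul_left ?_ (pow_pos hn 2)
    calc n ^ 2 * |g| = |2 * s ^ 2 * c - t₁| := by rw [hg, abs_mul, abs_of_pos (pow_pos hn 2)]
      _ ≤ 2 * |s| ^ 2 * |c| + |t₁| := by
        refine (abs_sub _ _).trans (le_of_eq ?_)
        rw [abs_mul, abs_mul, abs_pow, abs_two]
      _ ≤ 2 * S ^ 2 * (n ^ 3 / (12 * Y)) + n ^ 5 / (12 * R) := by gcongr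
      _ = _ := by field_simp; ring
  have e1 : |e| ≤ H * (4 * S ^ 2 * R / n ^ 5 + 2 * Y / n ^ 3) + S ^ 3 / (12 * R) := by
    refine le_of_mul_le_mul_left ?_ (pow_pos hn 5)
    calc n ^ 5 * |e| = |k * (2 * s ^ 2 * u₁ - n ^ 2 * u₂) - s ^ 3 * t₁| := by
          rw [← he, abs_mul, abs_of_pos (pow_pos hn 5)]
      _ ≤ |k| * (2 * |s| ^ 2 * |u₁| + n ^ 2 * |u₂|) + |s| ^ 3 * |t₁| := by
        refine (abs_sub _ _).trans ?_
        rw [abs_mul, abs_mul (s ^ 3), abs_pow]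
        gcongr
        refine (abs_sub _ _).trans (le_of_eq ?_)
        rw [abs_mul, abs_mul, abs_mul, abs_pow, abs_pow, abs_two, abs_of_pos hn]
      _ ≤ H * (2 * S ^ 2 * (2 * R) + n ^ 2 * (2 * Y)) + S ^ 3 * (n ^ 5 / (12 * R)) := by gcongr
      _ = _ := by field_simp; ring
  have f1 : |f| ≤ 10 * H * R / n ^ 3 + 5 * S ^ 3 / (12 * Y) +
      2 * S * (S ^ 2 / (6 * Y) + n ^ 2 / (12 * R)) := by
    refine le_of_mul_le_mul_left ?_ (pow_pos hn 3)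
    calc n ^ 3 * |f| = |5 * k * u₁ - 5 * c * s ^ 3 + 2 * g * n ^ 2 * s| := by
          rw [← abs_of_pos (pow_pos hn 3), ← abs_mul, ← hf]; congr 1; ring
      _ ≤ 5 * |k| * |u₁| + 5 * |c| * |s| ^ 3 + 2 * |g| * n ^ 2 * |s| := by
        refine (abs_add_le _ _).trans (add_le_add ((abs_sub _ _).trans (le_of_eq ?_)) (le_of_eq ?_))
        · simp only [abs_mul, abs_pow, Nat.abs_ofNat]
        · simp only [abs_mul, abs_pow, abs_two, abs_of_pos hn]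
      _ ≤ 5 * H * (2 * R) + 5 * (n ^ 3 / (12 * Y)) * S ^ 3 +
          2 * (S ^ 2 * n / (6 * Y) + n ^ 3 / (12 * R)) * n ^ 2 * S := by gcongr
      _ = _ := by field_simp; ring
  refine ⟨e1.trans_lt (lt_of_le_of_lt ?_ k3), c1.trans_lt (lt_of_le_of_lt ?_ k1),
    f1.trans_lt (lt_of_le_of_lt ?_ k4), g1.trans_lt (lt_of_le_of_lt ?_ k2)⟩
  · gcongr; linarith
  · calc _ ≤ (2 * N) ^ 3 / (12 * Y) := by gcongr
      _ = 2 / 3 * (N ^ 3 / Y) := by field_simp; ring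
      _ ≤ _ := by have : 0 ≤ N ^ 3 / Y := by positivity
                  linarith
  · calc _ ≤ 10 * H * R / N ^ 3 + 5 * S ^ 3 / (12 * Y) +
          2 * S * (S ^ 2 / (6 * Y) + (2 * N) ^ 2 / (12 * R)) := by gcongr
      _ = 10 * H * R / N ^ 3 + 3 / 4 * (S ^ 3 / Y) + 2 / 3 * (S * N ^ 2 / R) := by
        field_simp; ring
      _ ≤ _ := by
        have : 0 ≤ S ^ 3 / Y := by positivity
        have : 0 ≤ S * N ^ 2 / R := by positivity
        linarith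
  · calc _ ≤ S ^ 2 * (2 * N) / (6 * Y) + (2 * N) ^ 3 / (12 * R) := by gcongr
      _ = 1 / 3 * (S ^ 2 * N / Y) + 2 / 3 * (N ^ 3 / R) := by field_simp; ring
      _ ≤ _ := by
        have : 0 ≤ S ^ 2 * N / Y := by positivity
        have : 0 ≤ N ^ 3 / R := by positivity
        linarith

open Classical in
theorem close_le {N S R Y H K : ℕ} (hN : 2 ≤ N) (hR : 0 < R) (hY : 0 < Y)
    (k1 : (N : ℝ) ^ 3 / Y < K + 1) (k2 : (S : ℝ) ^ 2 * N / Y + (N : ℝ) ^ 3 / R < K + 1)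
    (k3 : H * (4 * (S : ℝ) ^ 2 * R / N ^ 5 + 2 * Y / N ^ 3) + (S : ℝ) ^ 3 / R < K + 1)
    (k4 : 10 * (H : ℝ) * R / N ^ 3 + (S : ℝ) ^ 3 / Y + (S : ℝ) * N ^ 2 / R < K + 1)
    {n s σ k : ℤ} (hp : (n, s) ∈ pairs N S) (hσ : n ^ 5 ∣ σ * s ^ 5 - 1) (k0 : k ≠ 0) (hk : |k| ≤ H) :
    #((II (2 * R) ×ˢ II (2 * Y)).filter fun u =>
      Cl (n ^ 5).toNat (2 * R) (k * σ * s ^ 2 * (2 * s ^ 2 * u.1 - n ^ 2 * u.2)) ∧
      Cl (n ^ 5).toNat (2 * Y) (-(k * σ * n ^ 2 * (s ^ 2 * u.1 + 2 * n ^ 2 * u.2)))) ≤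
      1 + Zc K n s k.natAbs := by
  simp only [pairs, mem_filter, mem_product, mem_Ico, mem_II] at hp
  obtain ⟨⟨⟨n1, n2⟩, hs⟩, hg⟩ := hp
  have hn : 0 < n := by omega
  have hs0 : s ≠ 0 := by
    rintro rfl
    rw [Int.gcd_zero_right] at hg
    omega
  have hq : (((n ^ 5).toNat : ℕ) : ℤ) = n ^ 5 := Int.toNat_of_nonneg (by positivity)
  have h5 : 5 * k ≠ 0 := by omega
  rw [add_comm, Zc]
  refine le_trans (card_le_card ?_) ((card_insert_le ((0, 0) : ℤ × ℤ) _).trans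
    (Nat.add_le_add_right (card_image_le
      (f := fun t => (F2 n s t / (5 * k), F1 n s t / (5 * k)))) 1))
  rintro ⟨u₁, u₂⟩ hu
  simp only [mem_filter, mem_product, mem_II, Cl, hq] at hu
  obtain ⟨⟨hu₁, hu₂⟩, ⟨t₁, a1, a2⟩, t₂, b1, b2⟩ := hu
  obtain ⟨e, c, f, g, rfl, x2, x3, x4, x5⟩ :=
    t2_alg hn.ne' hs0 (Int.isCoprime_iff_gcd_eq_one.2 hg) hσ a2 b2
  have b3 : 12 * (Y : ℤ) * |c| ≤ n ^ 3 := by
    refine le_of_mul_le_mul_left ?_ (pow_pos hn 2)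
    rw [abs_neg, abs_mul, abs_of_pos (pow_pos hn 2)] at b1
    push_cast at b1
    linarith
  have a3 : 12 * (R : ℤ) * |t₁| ≤ n ^ 5 := by push_cast at a1; linarith
  obtain ⟨y1, y2, y3, y4⟩ := t2_size (n := n) (s := s) (k := k) (u₁ := u₁) (u₂ := u₂) (t₁ := t₁)
    (e := e) (c := c) (f := f) (g := g) (by exact_mod_cast (by omega : 0 < N))
    (by exact_mod_cast hR) (by exact_mod_cast hY) k1 k2 k3 k4 (by exact_mod_cast n1)
    (by exact_mod_cast n2.le) (by exact_mod_cast hs) (by exact_mod_cast hk) (by exact_mod_cast hu₁)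
    (by exact_mod_cast hu₂) (by exact_mod_cast a3) (by exact_mod_cast b3) (by exact_mod_cast x2)
    (by exact_mod_cast x3) (by simp only [F2] at x4; exact_mod_cast x4)
  rw [mem_insert]
  by_cases h0 : (u₁, u₂) = (0, 0)
  · exact Or.inl h0
  refine Or.inr (mem_image.2 ⟨(e, c, f, g), mem_filter.2 ⟨?_, ?_, ?_, ?_⟩, ?_⟩)
  · simp only [box, mem_product]
    exact ⟨t2_mem y1, t2_mem y2, t2_mem y3, t2_mem y4⟩
  · rw [x5, Int.natAbs_dvd]; exact ⟨5 * u₂, by ring⟩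
  · rw [x4, Int.natAbs_dvd]; exact ⟨5 * u₁, by ring⟩
  · rw [x4, x5]
    by_contra hc
    simp only [not_or, not_not, mul_eq_zero (a := 5 * k), h5, false_or] at hc
    exact h0 (by rw [hc.1, hc.2])
  · simp only [x4, x5, Int.mul_ediv_cancel_left _ h5]

end

section

open Finset

lemma t3_off (H h : ℕ) (hh : h < H) (g : ℕ → ℝ) (hg : ∀ k, 0 ≤ g k) :
    ∑ h' ∈ (range H).erase h, g ((h : ℤ) - h').natAbs ≤ 2 * ∑ k ∈ Icc 1 H, g k := by
  have key : ∀ T : Finset ℕ, T ⊆ (range H).erase h →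
      Set.InjOn (fun h' : ℕ => ((h : ℤ) - h').natAbs) T →
      ∑ h' ∈ T, g ((h : ℤ) - h').natAbs ≤ ∑ k ∈ Icc 1 H, g k := by
    intro T hT hi
    rw [← sum_image (f := g) hi]
    refine sum_le_sum_of_subset_of_nonneg (fun k hk => ?_) fun k _ _ => hg k
    obtain ⟨x, hx, rfl⟩ := mem_image.1 hk
    have := hT hx
    rw [mem_erase, mem_range] at this
    rw [mem_Icc]
    omega
  rw [← sum_filter_add_sum_filter_not _ (fun h' => h' < h), two_mul]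
  refine add_le_add (key _ (filter_subset _ _) fun x hx y hy e => ?_)
    (key _ (filter_subset _ _) fun x hx y hy e => ?_)
  · have h1 := (mem_filter.1 hx).2
    have h2 := (mem_filter.1 hy).2
    simp only at e
    omega
  · have h1 := (mem_filter.1 hx).2
    have h2 := (mem_filter.1 hy).2
    simp only at e
    omega

lemma t3_pairsum (H : ℕ) (F : ℤ → ℝ) (A : ℝ) (g : ℕ → ℝ) (hg : ∀ k, 0 ≤ g k) (h0 : F 0 ≤ A)
    (h1 : ∀ k : ℤ, k ≠ 0 → |k| ≤ H → F k ≤ g k.natAbs) :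
    ∑ h ∈ range H, ∑ h' ∈ range H, F ((h : ℤ) - h') ≤ H * (A + 2 * ∑ k ∈ Icc 1 H, g k) := by
  refine le_trans (sum_le_card_nsmul _ _ (A + 2 * ∑ k ∈ Icc 1 H, g k) fun h hh => ?_)
    (by rw [card_range, nsmul_eq_mul])
  rw [← add_sum_erase _ _ hh, sub_self]
  refine add_le_add h0 (le_trans (sum_le_sum fun h' hh' => ?_) (t3_off H h (mem_range.1 hh) g hg))
  rw [mem_erase, mem_range] at hh'
  rw [mem_range] at hh
  refine h1 _ (by omega) ?_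
  rw [abs_le]
  omega

lemma t3_sq (H : ℕ) (x : ℝ) : ((‖∑ h ∈ range H, ee (h * x)‖ ^ 2 : ℝ) : ℂ) =
    ∑ h ∈ range H, ∑ h' ∈ range H, ee ((((h : ℤ) - h' : ℤ) : ℝ) * x) := by
  rw [← Complex.normSq_eq_norm_sq, ← Complex.mul_conj, map_sum, sum_mul_sum]
  refine sum_congr rfl fun h _ => sum_congr rfl fun h' _ => ?_
  rw [conj_ee, ← ee_add]
  congr 1
  push_cast
  ring

lemma t3_mem_sub {R Y : ℕ} {P U : ℤ × ℤ} (hP : P ∈ II R ×ˢ II Y) (hU : U ∈ II R ×ˢ II Y) :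
    P - U ∈ II (2 * R) ×ˢ II (2 * Y) := by
  simp only [mem_product, mem_II, abs_le, Prod.fst_sub, Prod.snd_sub] at hP hU ⊢
  push_cast
  omega

lemma t3_shift {R Y : ℕ} (w : ℤ × ℤ → ℝ) (hw : ∀ P, 0 ≤ w P) {U : ℤ × ℤ}
    (hU : U ∈ II R ×ˢ II Y) :
    ∑ P ∈ II R ×ˢ II Y, w P ≤ ∑ P ∈ II (2 * R) ×ˢ II (2 * Y), w (P + U) := by
  have : ∑ P ∈ II R ×ˢ II Y, w P =
      ∑ P ∈ (II R ×ˢ II Y).image (fun P => P - U), w (P + U) := by
    rw [sum_image fun x _ y _ e => sub_left_injective e]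
    simp only [sub_add_cancel]
  rw [this]
  refine sum_le_sum_of_subset_of_nonneg (fun P hP => ?_) fun P _ _ => hw _
  obtain ⟨x, hx, rfl⟩ := mem_image.1 hP
  exact t3_mem_sub hx hU

open Classical in
lemma t3_pairs {R Y : ℕ} (p : ℤ × ℤ → Prop) :
    #(((II R ×ˢ II Y) ×ˢ (II R ×ˢ II Y)).filter fun z => p (z.1 - z.2)) ≤
      #(II R ×ˢ II Y) * #((II (2 * R) ×ˢ II (2 * Y)).filter p) := by
  rw [← card_product]
  refine card_le_card_of_injOn (fun z => (z.2, z.1 - z.2)) (fun z hz => ?_) fun z _ z' _ e => ?_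
  · obtain ⟨h1, h2⟩ := mem_filter.1 hz
    obtain ⟨h3, h4⟩ := mem_product.1 h1
    exact mem_product.2 ⟨h4, mem_filter.2 ⟨t3_mem_sub h3 h4, h2⟩⟩
  · obtain ⟨h1, h2⟩ := Prod.mk.inj e
    refine Prod.ext ?_ h1
    rw [h1] at h2
    exact sub_left_injective h2

lemma t3_S {N S R Y H K : ℕ} (hN : 2 ≤ N) (hR : 0 < R) (hY : 0 < Y)
    (k1 : (N : ℝ) ^ 3 / Y < K + 1) (k2 : (S : ℝ) ^ 2 * N / Y + (N : ℝ) ^ 3 / R < K + 1)
    (k3 : H * (4 * (S : ℝ) ^ 2 * R / N ^ 5 + 2 * Y / N ^ 3) + (S : ℝ) ^ 3 / R < K + 1)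
    (k4 : 10 * (H : ℝ) * R / N ^ 3 + (S : ℝ) ^ 3 / Y + (S : ℝ) * N ^ 2 / R < K + 1)
    {n s σ k : ℤ} (hp : (n, s) ∈ pairs N S) (hσ : n ^ 5 ∣ σ * s ^ 5 - 1) (k0 : k ≠ 0)
    (hk : |k| ≤ H) (hq : 0 < (n ^ 5).toNat) :
    ‖∑ U' ∈ II R ×ˢ II Y, ∑ U ∈ II (2 * R) ×ˢ II (2 * Y),
      ee ((k : ℝ) * (((σ * Qf n s (U + U').1 (U + U').2 : ℤ) : ℝ) / ((n ^ 5).toNat : ℕ)))‖ ≤
      96 * #(II R ×ˢ II Y) * √(R * Y) * √(1 + (Zc K n s k.natAbs : ℝ)) := by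
  classical
  set q := (n ^ 5).toNat with hqd
  set m₁ : ℤ × ℤ → ℤ := fun u => k * σ * s ^ 2 * (2 * s ^ 2 * u.1 - n ^ 2 * u.2) with hm₁
  set m₂ : ℤ × ℤ → ℤ := fun u => -(k * σ * n ^ 2 * (s ^ 2 * u.1 + 2 * n ^ 2 * u.2)) with hm₂
  set c : ℤ × ℤ → ℂ := fun u => ee ((k : ℝ) * (((σ * Qf n s u.1 u.2 : ℤ) : ℝ) / q)) with hc
  have d := dls2 (II R ×ˢ II Y) c (fun i _ => (norm_ee _).le) m₁ m₂ q (2 * R) (2 * Y) hq
    (by omega) (by omega)
  have cl := close_le hN hR hY k1 k2 k3 k4 hp hσ k0 hk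
  have pr := t3_pairs (R := R) (Y := Y) fun u => Cl q (2 * R) (m₁ u) ∧ Cl q (2 * Y) (m₂ u)
  have e1 : ∀ x y : ℤ × ℤ, m₁ x - m₁ y = m₁ (x - y) := fun x y => by
    simp only [hm₁, Prod.fst_sub, Prod.snd_sub]; ring
  have e2 : ∀ x y : ℤ × ℤ, m₂ x - m₂ y = m₂ (x - y) := fun x y => by
    simp only [hm₂, Prod.fst_sub, Prod.snd_sub]; ring
  simp only [e1, e2] at d
  have pr2 : (#(((II R ×ˢ II Y) ×ˢ (II R ×ˢ II Y)).filter fun z =>
      Cl q (2 * R) (m₁ (z.1 - z.2)) ∧ Cl q (2 * Y) (m₂ (z.1 - z.2))) : ℝ) ≤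
      #(II R ×ˢ II Y) * (1 + (Zc K n s k.natAbs : ℝ)) := by
    have := le_trans pr (Nat.mul_le_mul_left _ (le_trans (le_of_eq (by congr)) cl))
    have h2 : #(((II R ×ˢ II Y) ×ˢ (II R ×ˢ II Y)).filter fun z =>
      Cl q (2 * R) (m₁ (z.1 - z.2)) ∧ Cl q (2 * Y) (m₂ (z.1 - z.2))) ≤
      #(II R ×ˢ II Y) * (1 + Zc K n s k.natAbs) := le_trans (le_of_eq (by congr)) this
    exact_mod_cast h2
  set a : ℤ × ℤ → ℝ := fun u =>
    ‖∑ i ∈ II R ×ˢ II Y, c i * ee (((u.1 * m₁ i + u.2 * m₂ i : ℤ) : ℝ) / q)‖ with ha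
  have d2 : ∑ u ∈ II (2 * R) ×ˢ II (2 * Y), a u ^ 2 ≤
      576 * (2 * R) * (2 * Y) * (#(II R ×ˢ II Y) * (1 + (Zc K n s k.natAbs : ℝ))) := by
    refine le_trans d ?_
    push_cast
    refine mul_le_mul_of_nonneg_left (le_trans (le_of_eq (by congr)) pr2) (by positivity)
  rw [sum_comm]
  refine le_trans (norm_sum_le _ _) ?_
  have e3 : ∀ U ∈ II (2 * R) ×ˢ II (2 * Y), ‖∑ U' ∈ II R ×ˢ II Y,
      ee ((k : ℝ) * (((σ * Qf n s (U + U').1 (U + U').2 : ℤ) : ℝ) / q))‖ = a U := by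
    intro U _
    rw [ha]
    simp only
    rw [← one_mul ‖∑ i ∈ II R ×ˢ II Y, c i * _‖, ← norm_ee ((k : ℝ) *
      (((σ * Qf n s U.1 U.2 : ℤ) : ℝ) / q)), ← norm_mul, mul_sum]
    congr 1
    refine sum_congr rfl fun U' _ => ?_
    rw [hc]
    simp only
    rw [← ee_add, ← ee_add]
    congr 1
    simp only [hm₁, hm₂, Qf, Prod.fst_add, Prod.snd_add]
    push_cast
    ring
  rw [sum_congr rfl e3]
  have cs := sq_sum_le_card_mul_sum_sq (s := II (2 * R) ×ˢ II (2 * Y)) (f := a)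
  have b2 : (#(II (2 * R) ×ˢ II (2 * Y)) : ℝ) ≤ 4 * #(II R ×ˢ II Y) := by
    rw [card_product, card_product, card_II, card_II, card_II, card_II]
    push_cast
    nlinarith [(Nat.cast_nonneg R : (0 : ℝ) ≤ R), (Nat.cast_nonneg Y : (0 : ℝ) ≤ Y)]
  refine (abs_le_of_sq_le_sq' ?_ (by positivity)).2
  rw [mul_pow, mul_pow, mul_pow, Real.sq_sqrt (by positivity), Real.sq_sqrt (by positivity)]
  refine le_trans cs (le_trans (mul_le_mul b2 d2 (sum_nonneg fun _ _ => sq_nonneg _)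
    (by positivity)) (le_of_eq (by ring)))

theorem weyl_one {N S R Y V H K : ℕ} (hN : 2 ≤ N) (hR : 0 < R) (hY : 0 < Y) (hH : 0 < H)
    (hV : 6 * H * V ≤ N ^ 5)
    (k1 : (N : ℝ) ^ 3 / Y < K + 1) (k2 : (S : ℝ) ^ 2 * N / Y + (N : ℝ) ^ 3 / R < K + 1)
    (k3 : H * (4 * (S : ℝ) ^ 2 * R / N ^ 5 + 2 * Y / N ^ 3) + (S : ℝ) ^ 3 / R < K + 1)
    (k4 : 10 * (H : ℝ) * R / N ^ 3 + (S : ℝ) ^ 3 / Y + (S : ℝ) * N ^ 2 / R < K + 1)
    {n s : ℤ} (hp : (n, s) ∈ pairs N S) :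
    (cnt R Y V n s : ℝ) ≤ 100 * R * Y / H +
      768 * √(R * Y) / H * ∑ k ∈ Icc 1 H, √(1 + (Zc K n s k : ℝ)) := by
  classical
  obtain ⟨hp1, hp2⟩ := mem_filter.1 hp
  have hn : (N : ℤ) ≤ n := (mem_Ico.1 (mem_product.1 hp1).1).1
  have hn0 : 0 < n := by omega
  have hco : IsCoprime (s ^ 5) (n ^ 5) := (Int.isCoprime_iff_gcd_eq_one.2 hp2).symm.pow
  obtain ⟨σ, b, hσb⟩ := hco
  have hσ : n ^ 5 ∣ σ * s ^ 5 - 1 := ⟨-b, by linear_combination hσb⟩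
  have hqz : (((n ^ 5).toNat : ℕ) : ℤ) = n ^ 5 := Int.toNat_of_nonneg (by positivity)
  have hNq : N ^ 5 ≤ (n ^ 5).toNat := by
    have : ((N : ℤ)) ^ 5 ≤ n ^ 5 := pow_le_pow_left₀ (by positivity) hn 5
    rw [← hqz] at this
    exact_mod_cast this
  have hq : 0 < (n ^ 5).toNat := lt_of_lt_of_le (by positivity) hNq
  have hS := fun k k0 hk => t3_S hN hR hY k1 k2 k3 k4 hp hσ (k := k) k0 hk hq
  set q := (n ^ 5).toNat with hqd
  have hqr : (0 : ℝ) < q := by exact_mod_cast hq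
  set x : ℤ × ℤ → ℝ := fun P => ((σ * Qf n s P.1 P.2 : ℤ) : ℝ) / q with hx
  set w : ℤ × ℤ → ℝ := fun P => ‖∑ h ∈ range H, ee (h * x P)‖ ^ 2 with hw
  have hw0 : ∀ P, 0 ≤ w P := fun P => sq_nonneg _
  have hVq : 6 * H * V ≤ q := hV.trans hNq
  have s1 : (cnt R Y V n s : ℝ) * ((H : ℝ) / 2) ^ 2 ≤ ∑ P ∈ II R ×ˢ II Y, w P := by
    rw [cnt]
    set E := (II R ×ˢ II Y ×ˢ II V).filter fun z => n ^ 5 ∣ Qf n s z.1 z.2.1 - s ^ 5 * z.2.2
      with hE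
    have inj : Set.InjOn (fun z : ℤ × ℤ × ℤ => (z.1, z.2.1)) E := by
      rintro ⟨r, y, v⟩ hz ⟨r', y', v'⟩ hz' e
      obtain ⟨rfl, rfl⟩ := Prod.mk.inj e
      obtain ⟨h1, h2⟩ := mem_filter.1 hz
      obtain ⟨h3, h4⟩ := mem_filter.1 hz'
      have h5 := mem_II.1 (mem_product.1 (mem_product.1 h1).2).2
      have h6 := mem_II.1 (mem_product.1 (mem_product.1 h3).2).2
      simp only at h2 h4 h5 h6
      have h7 : n ^ 5 ∣ v' - v := by
        have := dvd_sub ((dvd_sub h2 h4).mul_left σ) (hσ.mul_right (v' - v))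
        rwa [show σ * (Qf n s r y - s ^ 5 * v - (Qf n s r y - s ^ 5 * v')) -
          (σ * s ^ 5 - 1) * (v' - v) = v' - v by ring] at this
      have h8 : 6 * (H : ℤ) * V ≤ n ^ 5 := by rw [← hqz]; exact_mod_cast hVq
      have h9 : |v' - v| < n ^ 5 := by
        have a1 : (1 : ℤ) ≤ H := by exact_mod_cast hH
        have a2 : (0 : ℤ) ≤ V := by positivity
        have a3 : 0 < n ^ 5 := by positivity
        have a4 : (V : ℤ) ≤ H * V := by nlinarith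
        rw [abs_le] at h5 h6
        rw [abs_lt]
        constructor <;> nlinarith
      have := Int.eq_zero_of_abs_lt_dvd h7 h9
      rw [show v' = v by omega]
    rw [← nsmul_eq_mul]
    refine le_trans (card_nsmul_le_sum E (fun z => w (z.1, z.2.1)) _ fun z hz => ?_) ?_
    · obtain ⟨h1, h2⟩ := mem_filter.1 hz
      have h5 := mem_II.1 (mem_product.1 (mem_product.1 h1).2).2
      obtain ⟨t, ht⟩ : n ^ 5 ∣ σ * Qf n s z.1 z.2.1 - z.2.2 := by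
        have := dvd_add (h2.mul_left σ) (hσ.mul_right z.2.2)
        rwa [show σ * (Qf n s z.1 z.2.1 - s ^ 5 * z.2.2) + (σ * s ^ 5 - 1) * z.2.2 =
          σ * Qf n s z.1 z.2.1 - z.2.2 by ring] at this
      have hxz : x (z.1, z.2.1) = (z.2.2 : ℝ) / q + t := by
        rw [hx]
        simp only
        rw [show σ * Qf n s z.1 z.2.1 = z.2.2 + (q : ℤ) * t by rw [hqz]; linear_combination ht]
        push_cast
        field_simp
      have e : ∑ h ∈ range H, ee (h * x (z.1, z.2.1)) =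
          ∑ h ∈ range H, ee (h * ((z.2.2 : ℝ) / q)) := by
        refine sum_congr rfl fun h _ => ?_
        rw [hxz, mul_add, ee_add, show (h : ℝ) * t = ((h * t : ℤ) : ℝ) by push_cast; ring, ee_int,
          mul_one]
      rw [hw]
      simp only
      rw [e]
      refine pow_le_pow_left₀ (by positivity) (half_le_norm_sum ?_) 2
      rw [abs_div, abs_of_pos hqr, ← mul_div_assoc, div_le_iff₀ hqr]
      have a1 : |(z.2.2 : ℝ)| ≤ V := by exact_mod_cast h5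
      have a2 : 6 * (H : ℝ) * V ≤ q := by exact_mod_cast hVq
      nlinarith [(Nat.cast_nonneg H : (0 : ℝ) ≤ H)]
    · rw [← sum_image (f := w) inj]
      refine sum_le_sum_of_subset_of_nonneg (fun P hP => ?_) fun P _ _ => hw0 _
      obtain ⟨z, hz, rfl⟩ := mem_image.1 hP
      have h1 := (mem_filter.1 hz).1
      exact mem_product.2 ⟨(mem_product.1 h1).1, (mem_product.1 (mem_product.1 h1).2).1⟩
  set W := ∑ U' ∈ II R ×ˢ II Y, ∑ U ∈ II (2 * R) ×ˢ II (2 * Y), w (U + U') with hW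
  have s2 : (#(II R ×ˢ II Y) : ℝ) * ∑ P ∈ II R ×ˢ II Y, w P ≤ W := by
    rw [← nsmul_eq_mul]
    exact card_nsmul_le_sum _ _ _ fun U hU => t3_shift w hw0 hU
  set F : ℤ → ℂ := fun k => ∑ U' ∈ II R ×ˢ II Y, ∑ U ∈ II (2 * R) ×ˢ II (2 * Y),
    ee ((k : ℝ) * x (U + U')) with hF
  have s3 : (W : ℂ) = ∑ h ∈ range H, ∑ h' ∈ range H, F ((h : ℤ) - h') := by
    rw [hW, Complex.ofReal_sum]
    simp only [Complex.ofReal_sum, hw, t3_sq, hF]
    rw [sum_congr rfl fun U' _ => sum_comm, sum_comm]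
    refine sum_congr rfl fun h _ => ?_
    rw [sum_congr rfl fun U' _ => sum_comm, sum_comm]
  have s4 : W ≤ ∑ h ∈ range H, ∑ h' ∈ range H, ‖F ((h : ℤ) - h')‖ := by
    refine le_trans (le_abs_self W) ?_
    rw [← Real.norm_eq_abs, ← Complex.norm_real, s3]
    exact le_trans (norm_sum_le _ _) (sum_le_sum fun h _ => norm_sum_le _ _)
  have b1 : (0 : ℝ) < #(II R ×ˢ II Y) := by
    rw [card_product, card_II, card_II]
    positivity
  have s5 := t3_pairsum H (fun k => ‖F k‖) (#(II R ×ˢ II Y) * (25 * R * Y))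
    (fun k => 96 * #(II R ×ˢ II Y) * √(R * Y) * √(1 + (Zc K n s k : ℝ)))
    (fun k => by positivity) ?_ fun k k0 hk => hS k k0 hk
  · rw [← mul_sum] at s5
    have hHr : (0 : ℝ) < H := by exact_mod_cast hH
    set G := ∑ k ∈ Icc 1 H, √(1 + (Zc K n s k : ℝ))
    have s6 := le_trans (mul_le_mul_of_nonneg_left s1 b1.le) (le_trans s2 (le_trans s4 s5))
    have s7 : (cnt R Y V n s : ℝ) * ((H : ℝ) / 2) ^ 2 ≤ H * (25 * R * Y + 192 * √(R * Y) * G) := by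
      refine le_of_mul_le_mul_left (le_trans s6 (le_of_eq (by ring))) b1
    rw [div_mul_eq_mul_div, ← add_div, le_div_iff₀ hHr]
    refine le_of_mul_le_mul_left ?_ hHr
    linarith
  · simp only [hF, Int.cast_zero, zero_mul, ee_zero, sum_const, nsmul_eq_mul, mul_one, norm_mul,
      Complex.norm_natCast]
    refine mul_le_mul_of_nonneg_left ?_ b1.le
    rw [card_product, card_II, card_II]
    have a1 : (1 : ℝ) ≤ R := by exact_mod_cast hR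
    have a2 : (1 : ℝ) ≤ Y := by exact_mod_cast hY
    push_cast
    nlinarith

end

end Pool.Agent.MP_d0fd9b_nt.H68
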